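import Pool.Agent.L5helper89.HB.Defs

/-!
# Integer and rational combinations of indicator vectors
-/

set_option autoImplicit false
set_option linter.unusedSectionVars false

namespace Pool.Agent.L5helper89.HB

open Finset

variable {α : Type} [Fintype α] [DecidableEq α]

variable {S : Set (Finset α)} {K : Set ℚ}

lemma chi_mem (h0 : (0 : ℚ) ∈ K) (h1 : (1 : ℚ) ∈ K) {F : Finset α} (hF : F ∈ S) :
    chi F ∈ combos S K := by
  refine ⟨fun G => if G = F then 1 else 0, ?_, ?_, ?_⟩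
  · intro G
    by_cases h : G = F <;> simp [h, h0, h1]
  · intro G hG
    have : G ≠ F := fun h => hG (h ▸ hF)
    simp [this]
  · simp

lemma zero_mem' (h0 : (0 : ℚ) ∈ K) : (0 : α → ℚ) ∈ combos S K :=
  ⟨fun _ => 0, fun _ => h0, fun _ _ => rfl, by simp⟩

lemma add_mem' (hK : ∀ x ∈ K, ∀ y ∈ K, x + y ∈ K) {p q : α → ℚ} (hp : p ∈ combos S K)
    (hq : q ∈ combos S K) : p + q ∈ combos S K := by
  obtain ⟨c, hc, hc0, rfl⟩ := hp
  obtain ⟨d, hd, hd0, rfl⟩ := hq
  refine ⟨fun F => c F + d F, fun F => hK _ (hc F) _ (hd F), ?_, ?_⟩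
  · intro F hF
    simp [hc0 F hF, hd0 F hF]
  · rw [← Finset.sum_add_distrib]
    refine Finset.sum_congr rfl fun F _ => ?_
    rw [add_smul]

lemma smul_mem' {r : ℚ} (hK : ∀ x ∈ K, r * x ∈ K) {p : α → ℚ} (hp : p ∈ combos S K) :
    r • p ∈ combos S K := by
  obtain ⟨c, hc, hc0, rfl⟩ := hp
  refine ⟨fun F => r * c F, fun F => hK _ (hc F), ?_, ?_⟩
  · intro F hF
    simp [hc0 F hF]
  · rw [Finset.smul_sum]
    refine Finset.sum_congr rfl fun F _ => ?_
    rw [smul_smul]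

lemma Cone.chi {F : Finset α} (hF : F ∈ S) : chi F ∈ Cone S :=
  chi_mem (by simp) (by simp) hF

lemma Cone.add {p q : α → ℚ} (hp : p ∈ Cone S) (hq : q ∈ Cone S) : p + q ∈ Cone S :=
  add_mem' (fun _ hx _ hy => add_nonneg hx hy) hp hq

lemma Cone.smul {r : ℚ} (hr : 0 ≤ r) {p : α → ℚ} (hp : p ∈ Cone S) : r • p ∈ Cone S :=
  smul_mem' (fun _ hx => mul_nonneg hr hx) hp

lemma Lat.chi {F : Finset α} (hF : F ∈ S) : chi F ∈ Lat S :=
  chi_mem (K := Set.range ((↑) : ℤ → ℚ)) ⟨0, by simp⟩ ⟨1, by simp⟩ hF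

lemma Lat.add {p q : α → ℚ} (hp : p ∈ Lat S) (hq : q ∈ Lat S) : p + q ∈ Lat S := by
  refine add_mem' ?_ hp hq
  rintro _ ⟨a, rfl⟩ _ ⟨b, rfl⟩
  exact ⟨a + b, by push_cast; ring⟩

lemma Lat.smul (r : ℤ) {p : α → ℚ} (hp : p ∈ Lat S) : (r : ℚ) • p ∈ Lat S := by
  refine smul_mem' ?_ hp
  rintro _ ⟨a, rfl⟩
  exact ⟨r * a, by push_cast; ring⟩

lemma IntCone.chi {F : Finset α} (hF : F ∈ S) : chi F ∈ IntCone S :=
  chi_mem (K := Set.range ((↑) : ℕ → ℚ)) ⟨0, by simp⟩ ⟨1, by simp⟩ hF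

lemma IntCone.zero : (0 : α → ℚ) ∈ IntCone S :=
  zero_mem' (K := Set.range ((↑) : ℕ → ℚ)) ⟨0, by simp⟩

lemma IntCone.add {p q : α → ℚ} (hp : p ∈ IntCone S) (hq : q ∈ IntCone S) :
    p + q ∈ IntCone S := by
  refine add_mem' ?_ hp hq
  rintro _ ⟨a, rfl⟩ _ ⟨b, rfl⟩
  exact ⟨a + b, by push_cast; ring⟩

lemma IntCone.sum {ι : Type} (s : Finset ι) (f : ι → α → ℚ) (hf : ∀ i ∈ s, f i ∈ IntCone S) :
    ∑ i ∈ s, f i ∈ IntCone S := by
  classical
  induction s using Finset.induction_on with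
  | empty => simpa using IntCone.zero
  | insert i s hi ih =>
    rw [Finset.sum_insert hi]
    exact IntCone.add (hf i (by simp)) (ih fun j hj => hf j (by simp [hj]))

lemma intCone_subset : IntCone S ⊆ Cone S ∩ Lat S := by
  rintro p ⟨c, hc, hc0, rfl⟩
  refine ⟨⟨c, ?_, hc0, rfl⟩, ⟨c, ?_, hc0, rfl⟩⟩
  · intro F
    obtain ⟨n, hn⟩ := hc F
    show 0 ≤ c F
    rw [← hn]
    positivity
  · intro F
    obtain ⟨n, hn⟩ := hc F
    exact ⟨n, by rw [← hn]; simp⟩

lemma sum_chi (F : Finset α) (A : Finset α) : ∑ e ∈ A, chi F e = ((A ∩ F).card : ℚ) := by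
  simp [chi, Finset.sum_ite_mem]

lemma sum_combo (c : Finset α → ℚ) (A : Finset α) :
    ∑ e ∈ A, (∑ F, c F • chi F) e = ∑ F, c F * ((A ∩ F).card : ℚ) := by
  simp only [Finset.sum_apply, Pi.smul_apply, smul_eq_mul]
  rw [Finset.sum_comm]
  refine Finset.sum_congr rfl fun F _ => ?_
  rw [← Finset.mul_sum, sum_chi]

/-- Weight five is impossible for a nonnegative integer combination of sets of size 3 and 4. -/
lemma not_hilbert (hS : ∀ F ∈ S, F.card = 3 ∨ F.card = 4) {p : α → ℚ} (hc : p ∈ Cone S)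
    (hl : p ∈ Lat S) (h5 : ∑ e, p e = 5) : ¬ IsHilbert S := by
  intro hH
  have hp : p ∈ IntCone S := by
    rw [hH]
    exact ⟨hc, hl⟩
  obtain ⟨c, hcn, hc0, rfl⟩ := hp
  choose n hn using hcn
  rw [sum_combo] at h5
  have h6 : ∑ F : Finset α, n F * F.card = 5 := by
    have : ((∑ F : Finset α, n F * F.card : ℕ) : ℚ) = 5 := by
      rw [← h5]
      push_cast
      refine Finset.sum_congr rfl fun F _ => ?_
      rw [← hn F, Finset.univ_inter]
    exact_mod_cast this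
  have h7 : ∑ F : Finset α, n F * F.card =
      3 * (∑ F : Finset α, if F.card = 3 then n F else 0) +
      4 * (∑ F : Finset α, if F.card = 4 then n F else 0) := by
    rw [Finset.mul_sum, Finset.mul_sum, ← Finset.sum_add_distrib]
    refine Finset.sum_congr rfl fun F _ => ?_
    by_cases hF : F ∈ S
    · rcases hS F hF with h | h
      · simp [h]; ring
      · simp [h]; ring
    · have h8 : n F = 0 := by
        have := hn F
        rw [hc0 F hF] at this
        exact_mod_cast this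
      simp [h8]
  omega

/-- The unit vector at `a`. -/
def del (a : α) : α → ℚ := chi {a}

lemma chi_insert {a : α} {F : Finset α} (h : a ∉ F) : chi (insert a F) = del a + chi F := by
  ext x
  by_cases hx : x = a
  · subst hx
    simp [chi, del, h]
  · simp [chi, del, hx]

lemma chi3 {a b c : α} (hab : a ≠ b) (hac : a ≠ c) (hbc : b ≠ c) :
    chi {a, b, c} = del a + del b + del c := by
  rw [chi_insert (by simp [hab, hac]), chi_insert (by simp [hbc])]
  rw [add_assoc]; rfl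

lemma chi4 {a b c d : α} (hab : a ≠ b) (hac : a ≠ c) (had : a ≠ d) (hbc : b ≠ c) (hbd : b ≠ d)
    (hcd : c ≠ d) : chi {a, b, c, d} = del a + del b + del c + del d := by
  rw [chi_insert (by simp [hab, hac, had]), chi3 hbc hbd hcd]
  abel

lemma sum_del (a : α) : ∑ e, del a e = 1 := by
  simp [del, chi]

end Pool.Agent.L5helper89.HB
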