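import Pool.Agent.L5helper89.HB.Basic

/-!
# Balanced decompositions of nonnegative integer vectors
-/

set_option autoImplicit false
set_option linter.unusedSectionVars false
set_option linter.unusedVariables false

namespace Pool.Agent.L5helper89.HB

open Finset

variable {α : Type} [Fintype α] [DecidableEq α]

lemma decomp_step (A : Finset α) (x : α → ℕ) (k c : ℕ) (hx : ∀ a ∈ A, x a ≤ k + 1)
    (h1 : ∑ a ∈ A, x a ≤ (k + 1) * c) (h2 : (k + 1) * c ≤ ∑ a ∈ A, x a + k) :
    ∃ F ⊆ A, F.card = c ∧ (∀ a ∈ F, 1 ≤ x a) ∧ ∀ a ∈ A, x a = k + 1 → a ∈ F := by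
  set M := A.filter fun a => x a = k + 1 with hM
  set U := A.filter fun a => 1 ≤ x a with hU
  have hMU : M ⊆ U := by
    intro a ha
    rw [hM, Finset.mem_filter] at ha
    rw [hU, Finset.mem_filter]
    exact ⟨ha.1, by omega⟩
  have hMc : M.card ≤ c := by
    have h3 : M.card * (k + 1) ≤ ∑ a ∈ A, x a := by
      calc M.card * (k + 1) = ∑ a ∈ M, (k + 1) := by simp
        _ = ∑ a ∈ M, x a := Finset.sum_congr rfl fun a ha => by
            rw [hM, Finset.mem_filter] at ha
            exact ha.2.symm
        _ ≤ ∑ a ∈ A, x a := Finset.sum_le_sum_of_subset (Finset.filter_subset _ _)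
    have h4 : M.card * (k + 1) ≤ c * (k + 1) := by
      calc M.card * (k + 1) ≤ ∑ a ∈ A, x a := h3
        _ ≤ (k + 1) * c := h1
        _ = c * (k + 1) := Nat.mul_comm _ _
    exact Nat.le_of_mul_le_mul_right h4 (Nat.succ_pos k)
  have hUc : c ≤ U.card := by
    have h3 : ∑ a ∈ A, x a ≤ U.card * (k + 1) := by
      calc ∑ a ∈ A, x a = ∑ a ∈ U, x a := by
            rw [hU, Finset.sum_filter]
            refine Finset.sum_congr rfl fun a _ => ?_
            by_cases h : 1 ≤ x a
            · simp [h]
            · simp only [h, if_false]; omega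
        _ ≤ ∑ a ∈ U, (k + 1) := Finset.sum_le_sum fun a ha => by
            rw [hU, Finset.mem_filter] at ha
            exact hx a ha.1
        _ = U.card * (k + 1) := by simp
    by_contra hlt
    push Not at hlt
    have h4 : U.card + 1 ≤ c := hlt
    have h5 : (k + 1) * (U.card + 1) ≤ (k + 1) * c := Nat.mul_le_mul_left _ h4
    have h6 : (k + 1) * (U.card + 1) = U.card * (k + 1) + k + 1 := by ring
    omega
  obtain ⟨F, hF1, hF2, hF3⟩ := Finset.exists_subsuperset_card_eq hMU hMc hUc
  refine ⟨F, hF2.trans (Finset.filter_subset _ _), hF3, ?_, ?_⟩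
  · intro a ha
    have := hF2 ha
    rw [hU, Finset.mem_filter] at this
    exact this.2
  · intro a ha hxa
    exact hF1 (by rw [hM, Finset.mem_filter]; exact ⟨ha, hxa⟩)

lemma sum_sub (A F : Finset α) (x : α → ℕ) (hFA : F ⊆ A) (hF : ∀ a ∈ F, 1 ≤ x a) :
    ∑ a ∈ A, (x a - if a ∈ F then 1 else 0) + F.card = ∑ a ∈ A, x a := by
  have h1 : F.card = ∑ a ∈ A, (if a ∈ F then 1 else 0) := by
    rw [Finset.sum_ite_mem, Finset.inter_eq_right.mpr hFA]
    simp
  rw [h1, ← Finset.sum_add_distrib]
  refine Finset.sum_congr rfl fun a _ => ?_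
  by_cases h : a ∈ F
  · have := hF a h
    simp only [h, if_true]; omega
  · simp [h]

lemma decomp_zero (s : ℕ) (A : Finset α) (n : ℕ) : ∀ (x : α → ℕ), (∀ a, x a ≤ n) →
    (∀ a, a ∉ A → x a = 0) → ∑ a ∈ A, x a = s * n →
    ∃ Q : ℕ → Finset α, (∀ i < n, Q i ⊆ A ∧ (Q i).card = s) ∧
      (fun a => (x a : ℚ)) = ∑ i ∈ Finset.range n, chi (Q i) := by
  induction n with
  | zero =>
    intro x hx _ _
    refine ⟨fun _ => ∅, by simp, ?_⟩
    ext a
    have := hx a
    have h0 : x a = 0 := by omega
    simp [h0]
  | succ n ih =>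
    intro x hx h0 hsum
    obtain ⟨F, hFA, hFc, hF1, hF2⟩ := decomp_step A x n s (fun a _ => hx a)
      (by rw [hsum, Nat.mul_comm]) (by rw [hsum, Nat.mul_comm]; omega)
    have hs := sum_sub A F x hFA hF1
    obtain ⟨Q, hQ, hQs⟩ := ih (fun a => x a - if a ∈ F then 1 else 0) (by
        intro a
        have h3 := hx a
        by_cases h : a ∈ F
        · simp only [h, if_true]; omega
        · simp only [h, if_false]
          by_cases hA : a ∈ A
          · have h4 : x a ≠ n + 1 := fun h5 => h (hF2 a hA h5)
            omega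
          · have := h0 a hA
            omega) (by
        intro a ha
        have := h0 a ha
        omega) (by
        have h7 : s * (n + 1) = s * n + s := by ring
        rw [hsum, hFc, h7] at hs
        omega)
    refine ⟨fun i => if i = n then F else Q i, ?_, ?_⟩
    · intro i hi
      by_cases h : i = n
      · simp [h, hFA, hFc]
      · simp only [h, if_false]
        exact hQ i (by omega)
    · rw [Finset.sum_range_succ]
      have h8 : ∑ i ∈ Finset.range n, chi (if i = n then F else Q i) =
          ∑ i ∈ Finset.range n, chi (Q i) := by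
        refine Finset.sum_congr rfl fun i hi => ?_
        have : i ≠ n := by
          have := Finset.mem_range.mp hi
          omega
        simp [this]
      rw [h8, ← hQs]
      ext a
      simp only [if_true, Pi.add_apply, chi]
      by_cases h : a ∈ F
      · have := hF1 a h
        simp only [h, if_true]
        push_cast [this]
        ring
      · simp [h]

lemma decomp (s : ℕ) (A : Finset α) (l n : ℕ) : ∀ (x : α → ℕ), (∀ a, x a ≤ l + n) →
    (∀ a, a ∉ A → x a = 0) → ∑ a ∈ A, x a = (s + 1) * l + s * n →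
    ∃ P Q : ℕ → Finset α, (∀ i < l, P i ⊆ A ∧ (P i).card = s + 1) ∧
      (∀ i < n, Q i ⊆ A ∧ (Q i).card = s) ∧
      (fun a => (x a : ℚ)) = ∑ i ∈ Finset.range l, chi (P i) +
        ∑ i ∈ Finset.range n, chi (Q i) := by
  induction l with
  | zero =>
    intro x hx h0 hsum
    obtain ⟨Q, hQ, hQs⟩ := decomp_zero s A n x (by simpa using hx) h0 (by simpa using hsum)
    exact ⟨fun _ => ∅, Q, by simp, hQ, by simpa using hQs⟩
  | succ l ih =>
    intro x hx h0 hsum
    obtain ⟨F, hFA, hFc, hF1, hF2⟩ := decomp_step A x (l + n) (s + 1)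
      (fun a _ => by have := hx a; omega)
      (by rw [hsum]; nlinarith) (by rw [hsum]; nlinarith)
    have hs := sum_sub A F x hFA hF1
    obtain ⟨P, Q, hP, hQ, hPQ⟩ := ih (fun a => x a - if a ∈ F then 1 else 0) (by
        intro a
        have h3 := hx a
        by_cases h : a ∈ F
        · simp only [h, if_true]; omega
        · simp only [h, if_false]
          by_cases hA : a ∈ A
          · have h4 : x a ≠ l + n + 1 := fun h5 => h (hF2 a hA h5)
            omega
          · have := h0 a hA
            omega) (by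
        intro a ha
        have := h0 a ha
        omega) (by
        have h7 : (s + 1) * (l + 1) + s * n = ((s + 1) * l + s * n) + (s + 1) := by ring
        rw [hsum, hFc, h7] at hs
        omega)
    refine ⟨fun i => if i = l then F else P i, Q, ?_, hQ, ?_⟩
    · intro i hi
      by_cases h : i = l
      · simp [h, hFA, hFc]
      · simp only [h, if_false]
        exact hP i (by omega)
    · rw [Finset.sum_range_succ]
      have h8 : ∑ i ∈ Finset.range l, chi (if i = l then F else P i) =
          ∑ i ∈ Finset.range l, chi (P i) := by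
        refine Finset.sum_congr rfl fun i hi => ?_
        have : i ≠ l := by
          have := Finset.mem_range.mp hi
          omega
        simp [this]
      rw [h8]
      have h9 : ∑ i ∈ Finset.range l, chi (P i) + chi (if l = l then F else P l) +
          ∑ i ∈ Finset.range n, chi (Q i) =
          (∑ i ∈ Finset.range l, chi (P i) + ∑ i ∈ Finset.range n, chi (Q i)) + chi F := by
        rw [if_pos rfl]; abel
      rw [h9, ← hPQ]
      ext a
      simp only [Pi.add_apply, chi]
      by_cases h : a ∈ F
      · have := hF1 a h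
        simp only [h, if_true]
        push_cast [this]
        ring
      · simp [h]

variable {S : Set (Finset α)}

/-- A linear inequality that holds for the generators holds on the cone. -/
lemma cone_ineq (w : α → ℚ) (hw : ∀ F ∈ S, 0 ≤ ∑ e ∈ F, w e) {p : α → ℚ} (hp : p ∈ Cone S) :
    0 ≤ ∑ e, w e * p e := by
  obtain ⟨c, hc, hc0, rfl⟩ := hp
  have h1 : ∑ e, w e * (∑ F, c F • chi F) e = ∑ F, c F * ∑ e ∈ F, w e := by
    simp only [Finset.sum_apply, Pi.smul_apply, smul_eq_mul, Finset.mul_sum]
    rw [Finset.sum_comm]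
    refine Finset.sum_congr rfl fun F _ => ?_
    rw [← Finset.sum_subset (Finset.subset_univ F)]
    · refine Finset.sum_congr rfl fun e he => ?_
      simp only [chi, he, if_true]; ring
    · intro e _ he
      simp [chi, he]
  rw [h1]
  refine Finset.sum_nonneg fun F _ => ?_
  by_cases hF : F ∈ S
  · exact mul_nonneg (hc F) (hw F hF)
  · simp [hc0 F hF]

/-- A congruence that holds for the generators holds on the lattice. -/
lemma lat_dvd (w : α → ℤ) (m : ℤ) (hw : ∀ F ∈ S, m ∣ ∑ e ∈ F, w e) {x : α → ℤ}
    (hp : (fun e => (x e : ℚ)) ∈ Lat S) : m ∣ ∑ e, w e * x e := by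
  obtain ⟨c, hc, hc0, hx⟩ := hp
  choose n hn using hc
  have h1 : ((∑ e, w e * x e : ℤ) : ℚ) = ((∑ F : Finset α, n F * ∑ e ∈ F, w e : ℤ) : ℚ) := by
    push_cast
    have h2 : ∀ e, (x e : ℚ) = ∑ F, c F * chi F e := by
      intro e
      have := congrFun hx e
      simpa [Finset.sum_apply] using this
    simp only [h2, Finset.mul_sum]
    rw [Finset.sum_comm]
    refine Finset.sum_congr rfl fun F _ => ?_
    rw [← Finset.sum_subset (Finset.subset_univ F)]
    · refine Finset.sum_congr rfl fun e he => ?_
      simp only [chi, he, if_true, hn F]; ring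
    · intro e _ he
      simp [chi, he]
  have h2 : ∑ e, w e * x e = ∑ F : Finset α, n F * ∑ e ∈ F, w e := by exact_mod_cast h1
  rw [h2]
  refine Finset.dvd_sum fun F _ => ?_
  by_cases hF : F ∈ S
  · exact Dvd.dvd.mul_left (hw F hF) _
  · have : n F = 0 := by
      have := hn F
      rw [hc0 F hF] at this
      exact_mod_cast this
    simp [this]

lemma exists_nat {p : α → ℚ} (hc : p ∈ Cone S) (hl : p ∈ Lat S) :
    ∃ x : α → ℕ, p = fun e => (x e : ℚ) := by
  have h1 : ∀ e, ∃ m : ℤ, p e = m := by
    intro e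
    obtain ⟨c, hcn, hc0, rfl⟩ := hl
    choose n hn using hcn
    refine ⟨∑ F : Finset α, n F * if e ∈ F then 1 else 0, ?_⟩
    push_cast
    simp only [Finset.sum_apply, Pi.smul_apply, smul_eq_mul, chi]
    refine Finset.sum_congr rfl fun F _ => ?_
    rw [hn F]
  have h2 : ∀ e, 0 ≤ p e := by
    intro e
    obtain ⟨c, hc, hc0, rfl⟩ := hc
    simp only [Finset.sum_apply, Pi.smul_apply, smul_eq_mul, chi]
    refine Finset.sum_nonneg fun F _ => mul_nonneg (hc F) (by split_ifs <;> norm_num)
  have h3 : ∀ e, ∃ m : ℕ, p e = m := by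
    intro e
    obtain ⟨m, hm⟩ := h1 e
    have h4 := h2 e
    rw [hm] at h4
    have h5 : 0 ≤ m := by exact_mod_cast h4
    obtain ⟨k, rfl⟩ := Int.eq_ofNat_of_zero_le h5
    exact ⟨k, by simpa using hm⟩
  choose x hx using h3
  exact ⟨x, funext hx⟩

end Pool.Agent.L5helper89.HB
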