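import Mathlib

/-!
# Hilbert bases of circuits: definitions
-/

set_option autoImplicit false
set_option linter.unusedSectionVars false

namespace Pool.Agent.L5helper89.HB

variable {α : Type} [Fintype α] [DecidableEq α]

/-- The indicator vector of a finite set. -/
def chi (F : Finset α) : α → ℚ := fun e => if e ∈ F then 1 else 0

/-- All sums `∑ c_F χ^F` over the members `F` of `S`, with coefficients `c_F` in `K`. -/
def combos (S : Set (Finset α)) (K : Set ℚ) : Set (α → ℚ) :=
  {p | ∃ c : Finset α → ℚ, (∀ F, c F ∈ K) ∧ (∀ F, F ∉ S → c F = 0) ∧ p = ∑ F, c F • chi F}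

/-- Nonnegative rational combinations. -/
def Cone (S : Set (Finset α)) : Set (α → ℚ) := combos S {q | 0 ≤ q}

/-- Integer combinations. -/
def Lat (S : Set (Finset α)) : Set (α → ℚ) := combos S (Set.range ((↑) : ℤ → ℚ))

/-- Nonnegative integer combinations. -/
def IntCone (S : Set (Finset α)) : Set (α → ℚ) := combos S (Set.range ((↑) : ℕ → ℚ))

/-- The indicator vectors of the members of `S` form a Hilbert basis. -/
def IsHilbert (S : Set (Finset α)) : Prop := IntCone S = Cone S ∩ Lat S

/-- The circuits of `M`, as finite sets. -/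
def circ {α : Type} (M : Matroid α) : Set (Finset α) := {C | M.IsCircuit (C : Set α)}

/-- `M` has a minor isomorphic to the uniform matroid of rank two on four elements. -/
def HasU24Minor {α : Type} (M : Matroid α) : Prop :=
  ∃ N : Matroid α, N.IsMinor M ∧ N.E.encard = 4 ∧ ∀ X ⊆ N.E, (N.Indep X ↔ X.encard ≤ 2)

end Pool.Agent.L5helper89.HB
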