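import Pool.Agent.L5helper89.HB.Lines2

/-!
# Two intersecting lines of size three force a binary space
-/

set_option autoImplicit false
set_option linter.unusedSectionVars false
set_option linter.unusedVariables false

namespace Pool.Agent.L5helper89.HB

open Finset

variable {α : Type} [Fintype α] [DecidableEq α] {col : α → α → α → Prop} {S : Set (Finset α)}

/-- Four lines through a point. -/
def Four (col : α → α → α → Prop) (p q r s t : α) : Prop :=
  ¬ col p q r ∧ ¬ col p q s ∧ ¬ col p q t ∧ ¬ col p r s ∧ ¬ col p r t ∧ ¬ col p s t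

/-- The sixth and the seventh point are collinear with `a`. -/
lemma fano_line (hc : ColAx col) (hS : Fam col S) (hH : IsHilbert S) {a b c d e f g : α}
    (hab : a ≠ b) (hac : a ≠ c) (hbc : b ≠ c) (had : a ≠ d) (hae : a ≠ e) (hde : d ≠ e)
    (h1 : col a b c) (h2 : col a d e) (h3 : ¬ col a b d) (hbf : b ≠ f) (hdf : d ≠ f)
    (hbg : b ≠ g) (heg : e ≠ g)
    (n1 : a ≠ f) (n2 : c ≠ f) (n3 : e ≠ f) (n4 : a ≠ g) (n5 : c ≠ g) (n6 : d ≠ g)
    (h4 : col b d f) (h5 : col c e f) (h6 : col b e g) (h7 : col c d g) : col a f g := by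
  by_contra hafg
  obtain ⟨f1, f2, f3, f4, f5, f6, f7⟩ := theta_facts hc hab hac hbc had hae hde h1 h2 h3
  have s1 := hc.s1
  have s2 := hc.s2
  have tr := hc.tr
  have dg := hc.dg
  have k1 : ¬ col a f b := by grind
  have k2 : ¬ col a g b := by grind
  have k3 : ¬ col f g b := by grind
  have k4 : ¬ col a f c := by grind
  have k5 : ¬ col a g c := by grind
  have k6 : ¬ col f g c := by grind
  refine not_hilbert hS.card (theta_cone hc hS hab hac hbc had hae hde h1 h2 h3) ?_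
    (sum_five a b c d e) hH
  have l1 := lat3 hS hab hac hbc h1
  have l2 := lat4 hc hS f1 f2 f3 f4
  have hbd : b ≠ d := (ne_of_not_col hc f1).2.1
  have hbe : b ≠ e := (ne_of_not_col hc f2).2.1
  have l3 := lat3 hS hbd hbf hdf h4
  have l4 := lat3 hS hbe hbg heg h6
  have l5 := lat4 hc hS hafg k1 k2 k3
  have l6 := lat4 hc hS hafg k4 k5 k6
  have := Lat.add (Lat.add (Lat.add (Lat.add (Lat.add (Lat.smul (-1) l1) (Lat.smul 3 l2))
    (Lat.smul (-2) l3)) (Lat.smul (-2) l4)) (Lat.smul 3 l5)) (Lat.smul (-1) l6)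
  convert this using 1
  push_cast
  module

lemma pig (hc : ColAx col) {p r1 r2 r3 q1 q2 q3 q4 : α} (n1 : p ≠ r1) (n2 : p ≠ r2)
    (n3 : p ≠ r3) (h1 : col p r1 q1 ∨ col p r2 q1 ∨ col p r3 q1)
    (h2 : col p r1 q2 ∨ col p r2 q2 ∨ col p r3 q2) (h3 : col p r1 q3 ∨ col p r2 q3 ∨ col p r3 q3)
    (h4 : col p r1 q4 ∨ col p r2 q4 ∨ col p r3 q4) : ¬ Four col p q1 q2 q3 q4 := by
  rintro ⟨g1, g2, g3, g4, g5, g6⟩
  have t1 : ∀ r x y, p ≠ r → col p r x → col p r y → col p x y :=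
    fun r x y hr hx hy => hc.tr p r x y hr hx hy
  have u1 := fun x y => t1 r1 x y n1
  have u2 := fun x y => t1 r2 x y n2
  have u3 := fun x y => t1 r3 x y n3
  rcases h1 with h1 | h1 | h1 <;> rcases h2 with h2 | h2 | h2 <;>
    rcases h3 with h3 | h3 | h3 <;> rcases h4 with h4 | h4 | h4 <;>
    first
      | exact g1 (u1 _ _ h1 h2)
      | exact g1 (u2 _ _ h1 h2)
      | exact g1 (u3 _ _ h1 h2)
      | exact g2 (u1 _ _ h1 h3)
      | exact g2 (u2 _ _ h1 h3)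
      | exact g2 (u3 _ _ h1 h3)
      | exact g3 (u1 _ _ h1 h4)
      | exact g3 (u2 _ _ h1 h4)
      | exact g3 (u3 _ _ h1 h4)
      | exact g4 (u1 _ _ h2 h3)
      | exact g4 (u2 _ _ h2 h3)
      | exact g4 (u3 _ _ h2 h3)
      | exact g5 (u1 _ _ h2 h4)
      | exact g5 (u2 _ _ h2 h4)
      | exact g5 (u3 _ _ h2 h4)
      | exact g6 (u1 _ _ h3 h4)
      | exact g6 (u2 _ _ h3 h4)
      | exact g6 (u3 _ _ h3 h4)

/-- Four lines through a point exclude two intersecting lines of size three. -/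
lemma no_theta_of_four (hc : ColAx col) (hS : Fam col S) (hH : IsHilbert S) {p q1 q2 q3 q4 : α}
    (hF : Four col p q1 q2 q3 q4) : NoTheta col := by
  intro a b c d e hab hac hbc had hae hde h1 h2
  by_contra h3
  obtain ⟨f1, f2, f3, f4, f5, f6, f7⟩ := theta_facts hc hab hac hbc had hae hde h1 h2 h3
  have s1 := hc.s1
  have s2 := hc.s2
  have tr := hc.tr
  have dg := hc.dg
  have hbd : b ≠ d := (ne_of_not_col hc f1).2.1
  have hbe : b ≠ e := (ne_of_not_col hc f2).2.1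
  have hcd : c ≠ d := (ne_of_not_col hc f1).2.2
  have hce : c ≠ e := (ne_of_not_col hc f2).2.2
  have all : ∀ x, x = a ∨ x = b ∨ x = c ∨ x = d ∨ x = e ∨
      (a ≠ x ∧ b ≠ x ∧ c ≠ x ∧ d ≠ x ∧ e ≠ x ∧ col b d x ∧ col c e x) ∨
      (a ≠ x ∧ b ≠ x ∧ c ≠ x ∧ d ≠ x ∧ e ≠ x ∧ col b e x ∧ col c d x) := by
    intro x
    by_cases x1 : x = a
    · exact Or.inl x1
    by_cases x2 : x = b
    · exact Or.inr (Or.inl x2)
    by_cases x3 : x = c
    · exact Or.inr (Or.inr (Or.inl x3))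
    by_cases x4 : x = d
    · exact Or.inr (Or.inr (Or.inr (Or.inl x4)))
    by_cases x5 : x = e
    · exact Or.inr (Or.inr (Or.inr (Or.inr (Or.inl x5))))
    rcases theta_point hc hS hH hab hac hbc had hae hde h1 h2 h3 (Ne.symm x1) (Ne.symm x2)
      (Ne.symm x3) (Ne.symm x4) (Ne.symm x5) with h | h
    · exact Or.inr (Or.inr (Or.inr (Or.inr (Or.inr (Or.inl ⟨Ne.symm x1, Ne.symm x2, Ne.symm x3,
        Ne.symm x4, Ne.symm x5, h.1, h.2⟩)))))
    · exact Or.inr (Or.inr (Or.inr (Or.inr (Or.inr (Or.inr ⟨Ne.symm x1, Ne.symm x2, Ne.symm x3,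
        Ne.symm x4, Ne.symm x5, h.1, h.2⟩)))))
  have afg : ∀ f g, (a ≠ f ∧ b ≠ f ∧ c ≠ f ∧ d ≠ f ∧ e ≠ f ∧ col b d f ∧ col c e f) →
      (a ≠ g ∧ b ≠ g ∧ c ≠ g ∧ d ≠ g ∧ e ≠ g ∧ col b e g ∧ col c d g) → col a f g := by
    rintro f g ⟨x1, x2, x3, x4, x5, x6, x7⟩ ⟨y1, y2, y3, y4, y5, y6, y7⟩
    exact fano_line hc hS hH hab hac hbc had hae hde h1 h2 h3 x2 x4 y2 y5 x1 x3 x5 y1 y3 y4
      x6 x7 y6 y7
  have ff : ∀ f g, (a ≠ f ∧ b ≠ f ∧ c ≠ f ∧ d ≠ f ∧ e ≠ f ∧ col b d f ∧ col c e f) →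
      (a ≠ g ∧ b ≠ g ∧ c ≠ g ∧ d ≠ g ∧ e ≠ g ∧ col b d g ∧ col c e g) → f = g := by
    rintro f g ⟨x1, x2, x3, x4, x5, x6, x7⟩ ⟨y1, y2, y3, y4, y5, y6, y7⟩
    by_contra hfg
    exact two_points hc f1 f4 hfg x6 x7 y6 y7
  have gg : ∀ f g, (a ≠ f ∧ b ≠ f ∧ c ≠ f ∧ d ≠ f ∧ e ≠ f ∧ col b e f ∧ col c d f) →
      (a ≠ g ∧ b ≠ g ∧ c ≠ g ∧ d ≠ g ∧ e ≠ g ∧ col b e g ∧ col c d g) → f = g := by
    rintro f g ⟨x1, x2, x3, x4, x5, x6, x7⟩ ⟨y1, y2, y3, y4, y5, y6, y7⟩
    by_contra hfg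
    exact two_points hc f2 (fun h => f4 (s2 _ _ _ h)) hfg x6 x7 y6 y7
  have dg2 : ∀ x y, col x y y := by
    intro x y
    exact s1 _ _ _ (s2 _ _ _ (dg y x))
  have dg3 : ∀ x y, col x y x := by
    intro x y
    exact s2 _ _ _ (dg x y)
  -- three lines through every point cover everything
  have cover : ∀ p, ∃ r1 r2 r3, p ≠ r1 ∧ p ≠ r2 ∧ p ≠ r3 ∧
      ∀ q, col p r1 q ∨ col p r2 q ∨ col p r3 q := by
    intro p
    rcases all p with rfl | rfl | rfl | rfl | rfl | hp | hp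
    · -- p = a
      by_cases hT : ∃ f, (p ≠ f ∧ b ≠ f ∧ c ≠ f ∧ d ≠ f ∧ e ≠ f ∧ col b d f ∧ col c e f)
      · obtain ⟨f, hf⟩ := hT
        refine ⟨b, d, f, hab, had, hf.1, fun q => ?_⟩
        rcases all q with rfl | rfl | rfl | rfl | rfl | hq | hq
        · exact Or.inl (dg3 _ _)
        · exact Or.inl (dg2 _ _)
        · exact Or.inl h1
        · exact Or.inr (Or.inl (dg2 _ _))
        · exact Or.inr (Or.inl h2)
        · exact Or.inr (Or.inr (by rw [ff f q hf hq]; exact dg2 _ _))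
        · exact Or.inr (Or.inr (afg f q hf hq))
      · by_cases hT2 : ∃ g, (p ≠ g ∧ b ≠ g ∧ c ≠ g ∧ d ≠ g ∧ e ≠ g ∧ col b e g ∧ col c d g)
        · obtain ⟨g, hg⟩ := hT2
          refine ⟨b, d, g, hab, had, hg.1, fun q => ?_⟩
          rcases all q with rfl | rfl | rfl | rfl | rfl | hq | hq
          · exact Or.inl (dg3 _ _)
          · exact Or.inl (dg2 _ _)
          · exact Or.inl h1
          · exact Or.inr (Or.inl (dg2 _ _))
          · exact Or.inr (Or.inl h2)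
          · exact absurd ⟨q, hq⟩ hT
          · exact Or.inr (Or.inr (by rw [gg g q hg hq]; exact dg2 _ _))
        · refine ⟨b, d, b, hab, had, hab, fun q => ?_⟩
          rcases all q with rfl | rfl | rfl | rfl | rfl | hq | hq
          · exact Or.inl (dg3 _ _)
          · exact Or.inl (dg2 _ _)
          · exact Or.inl h1
          · exact Or.inr (Or.inl (dg2 _ _))
          · exact Or.inr (Or.inl h2)
          · exact absurd ⟨q, hq⟩ hT
          · exact absurd ⟨q, hq⟩ hT2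
    · -- p = b
      refine ⟨a, d, e, hab.symm, hbd, hbe, fun q => ?_⟩
      rcases all q with rfl | rfl | rfl | rfl | rfl | hq | hq
      · exact Or.inl (dg2 _ _)
      · exact Or.inl (dg3 _ _)
      · exact Or.inl (s1 _ _ _ h1)
      · exact Or.inr (Or.inl (dg2 _ _))
      · exact Or.inr (Or.inr (dg2 _ _))
      · exact Or.inr (Or.inl hq.2.2.2.2.2.1)
      · exact Or.inr (Or.inr hq.2.2.2.2.2.1)
    · -- p = c
      refine ⟨a, e, d, hac.symm, hce, hcd, fun q => ?_⟩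
      rcases all q with rfl | rfl | rfl | rfl | rfl | hq | hq
      · exact Or.inl (dg2 _ _)
      · exact Or.inl (s1 _ _ _ (s2 _ _ _ h1))
      · exact Or.inl (dg3 _ _)
      · exact Or.inr (Or.inr (dg2 _ _))
      · exact Or.inr (Or.inl (dg2 _ _))
      · exact Or.inr (Or.inl hq.2.2.2.2.2.2)
      · exact Or.inr (Or.inr hq.2.2.2.2.2.2)
    · -- p = d
      refine ⟨a, b, c, had.symm, hbd.symm, hcd.symm, fun q => ?_⟩
      rcases all q with rfl | rfl | rfl | rfl | rfl | hq | hq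
      · exact Or.inl (dg2 _ _)
      · exact Or.inr (Or.inl (dg2 _ _))
      · exact Or.inr (Or.inr (dg2 _ _))
      · exact Or.inl (dg3 _ _)
      · exact Or.inl (s1 _ _ _ h2)
      · exact Or.inr (Or.inl (s1 _ _ _ hq.2.2.2.2.2.1))
      · exact Or.inr (Or.inr (s1 _ _ _ hq.2.2.2.2.2.2))
    · -- p = e
      refine ⟨a, c, b, hae.symm, hce.symm, hbe.symm, fun q => ?_⟩
      rcases all q with rfl | rfl | rfl | rfl | rfl | hq | hq
      · exact Or.inl (dg2 _ _)
      · exact Or.inr (Or.inr (dg2 _ _))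
      · exact Or.inr (Or.inl (dg2 _ _))
      · exact Or.inl (s1 _ _ _ (s2 _ _ _ h2))
      · exact Or.inl (dg3 _ _)
      · exact Or.inr (Or.inl (s1 _ _ _ hq.2.2.2.2.2.2))
      · exact Or.inr (Or.inr (s1 _ _ _ hq.2.2.2.2.2.1))
    · -- p = f
      refine ⟨b, c, a, hp.2.1.symm, hp.2.2.1.symm, hp.1.symm, fun q => ?_⟩
      rcases all q with rfl | rfl | rfl | rfl | rfl | hq | hq
      · exact Or.inr (Or.inr (dg2 _ _))
      · exact Or.inl (dg2 _ _)
      · exact Or.inr (Or.inl (dg2 _ _))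
      · refine Or.inl ?_
        have := hp.2.2.2.2.2.1
        exact s1 _ _ _ (s2 _ _ _ this)
      · refine Or.inr (Or.inl ?_)
        have := hp.2.2.2.2.2.2
        exact s1 _ _ _ (s2 _ _ _ this)
      · rw [ff q p hq hp]
        exact Or.inl (dg3 _ _)
      · refine Or.inr (Or.inr ?_)
        exact s1 _ _ _ (afg p q hp hq)
    · -- p = g
      refine ⟨b, c, a, hp.2.1.symm, hp.2.2.1.symm, hp.1.symm, fun q => ?_⟩
      rcases all q with rfl | rfl | rfl | rfl | rfl | hq | hq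
      · exact Or.inr (Or.inr (dg2 _ _))
      · exact Or.inl (dg2 _ _)
      · exact Or.inr (Or.inl (dg2 _ _))
      · refine Or.inr (Or.inl ?_)
        have := hp.2.2.2.2.2.2
        exact s1 _ _ _ (s2 _ _ _ this)
      · refine Or.inl ?_
        have := hp.2.2.2.2.2.1
        exact s1 _ _ _ (s2 _ _ _ this)
      · refine Or.inr (Or.inr ?_)
        exact s1 _ _ _ (s2 _ _ _ (afg q p hq hp))
      · rw [gg q p hq hp]
        exact Or.inl (dg3 _ _)
  obtain ⟨r1, r2, r3, m1, m2, m3, hcov⟩ := cover p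
  exact pig hc m1 m2 m3 (hcov q1) (hcov q2) (hcov q3) (hcov q4) hF

end Pool.Agent.L5helper89.HB
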