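import Pool.Agent.L5helper89.HB.Main

/-!
# The classification
-/

set_option autoImplicit false
set_option linter.unusedSectionVars false
set_option linter.unusedVariables false

namespace Pool.Agent.L5helper89.HB

open Finset

variable {α : Type} [Fintype α] [DecidableEq α] {M : Matroid α}

/-- The three types of matroids in the classification. -/
def Types (M : Matroid α) : Prop :=
  (∀ a b c, M.Indep {a, b, c}) ∨
  (∃ A : Set α, (∀ a b, M.Indep {a, b}) ∧ ∀ a b c, a ≠ b → a ≠ c → b ≠ c →
    (¬ M.Indep {a, b, c} ↔ (a ∈ A ∧ b ∈ A ∧ c ∈ A) ∨ (a ∉ A ∧ b ∉ A ∧ c ∉ A))) ∨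
  (∃ P Q : Set α, Disjoint P Q ∧ Q.Subsingleton ∧
    (∀ a b, a ≠ b → (¬ M.Indep {a, b} ↔ a ∈ P ∧ b ∈ P)) ∧
    ∀ a b c, a ≠ b → a ≠ c → b ≠ c → (¬ M.Indep {a, b, c} ↔
      (a ∈ P ∧ b ∈ P) ∨ (a ∈ P ∧ c ∈ P) ∨ (b ∈ P ∧ c ∈ P) ∨
        (a ∉ P ∪ Q ∧ b ∉ P ∪ Q ∧ c ∉ P ∪ Q)))

lemma pair_of_triple {a b c : α} (h : ∀ a b c, M.Indep {a, b, c}) : M.Indep {a, b} := by
  have := h a a b
  simpa using this

lemma circ_eq {F G : Finset α} (hF : F ∈ circ M) (hG : G ∈ circ M) (h : G ⊆ F) : G = F :=
  Finset.coe_injective (Matroid.IsCircuit.eq_of_subset_isCircuit (C := (G : Set α))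
    (C' := (F : Set α)) hG hF (Finset.coe_subset.mpr h))

lemma suff_types3 (hE : M.E = Set.univ) (hr : M.eRank = 3) (hl : ∀ a, M.Indep {a}) {P Q : Set α}
    (hPQ : Disjoint P Q) (hQ : Q.Subsingleton)
    (hp : ∀ a b, a ≠ b → (¬ M.Indep {a, b} ↔ a ∈ P ∧ b ∈ P))
    (ht : ∀ a b c, a ≠ b → a ≠ c → b ≠ c → (¬ M.Indep {a, b, c} ↔
      (a ∈ P ∧ b ∈ P) ∨ (a ∈ P ∧ c ∈ P) ∨ (b ∈ P ∧ c ∈ P) ∨
        (a ∉ P ∪ Q ∧ b ∉ P ∪ Q ∧ c ∉ P ∪ Q))) : IsHilbert (circ M) := by
  classical
  set Pf : Finset α := Finset.univ.filter (fun e => e ∈ P) with hPf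
  set Qf : Finset α := Finset.univ.filter (fun e => e ∈ Q) with hQf
  set Lf : Finset α := Finset.univ.filter (fun e => e ∉ P ∪ Q) with hLf
  have mP : ∀ e, e ∈ Pf ↔ e ∈ P := by intro e; simp [hPf]
  have mQ : ∀ e, e ∈ Qf ↔ e ∈ Q := by intro e; simp [hQf]
  have mL : ∀ e, e ∈ Lf ↔ e ∉ P ∪ Q := by intro e; simp [hLf]
  have dPQ : ∀ e, e ∈ P → e ∉ Q := fun e h1 h2 => Set.disjoint_left.mp hPQ h1 h2
  have d1 : Disjoint Lf Pf := by
    rw [Finset.disjoint_left]
    intro e h1 h2
    rw [mL] at h1
    rw [mP] at h2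
    exact h1 (Or.inl h2)
  have d2 : Disjoint Lf Qf := by
    rw [Finset.disjoint_left]
    intro e h1 h2
    rw [mL] at h1
    rw [mQ] at h2
    exact h1 (Or.inr h2)
  have d3 : Disjoint Pf Qf := by
    rw [Finset.disjoint_left]
    intro e h1 h2
    rw [mP] at h1
    rw [mQ] at h2
    exact dPQ e h1 h2
  have hU : Lf ∪ Pf ∪ Qf = Finset.univ := by
    ext e
    simp only [Finset.mem_union, mL, mP, mQ, Finset.mem_univ, iff_true, Set.mem_union]
    tauto
  have hQ1 : Qf.card ≤ 1 := by
    rw [Finset.card_le_one]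
    intro a ha b hb
    exact hQ ((mQ a).mp ha) ((mQ b).mp hb)
  have hP2 : ∀ F ⊆ Pf, F.card = 2 → F ∈ circ M := by
    intro F hF hc
    obtain ⟨a, b, hab, rfl⟩ := Finset.card_eq_two.mp hc
    have ha := (mP a).mp (hF (by simp))
    have hb := (mP b).mp (hF (by simp))
    exact circ2 hE hl hab ((hp a b hab).mpr ⟨ha, hb⟩)
  have ind2 : ∀ a b, ¬ (a ∈ P ∧ b ∈ P) → a ≠ b → M.Indep {a, b} := by
    intro a b h hab
    by_contra hcon
    exact h ((hp a b hab).mp hcon)
  have hL3 : ∀ F ⊆ Lf, F.card = 3 → F ∈ circ M := by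
    intro F hF hc
    obtain ⟨a, b, c, hab, hac, hbc, rfl⟩ := Finset.card_eq_three.mp hc
    have ha := (mL a).mp (hF (by simp))
    have hb := (mL b).mp (hF (by simp))
    have hc := (mL c).mp (hF (by simp))
    have ha' : a ∉ P := fun h => ha (Or.inl h)
    have hb' : b ∉ P := fun h => hb (Or.inl h)
    show M.IsCircuit _
    have e : (({a, b, c} : Finset α) : Set α) = {a, b, c} := by simp
    rw [e]
    refine circ3 hE (ind2 a b (fun h => ha' h.1) hab) (ind2 a c (fun h => ha' h.1) hac)
      (ind2 b c (fun h => hb' h.1) hbc) ?_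
    rw [ht a b c hab hac hbc]
    exact Or.inr (Or.inr (Or.inr ⟨ha, hb, hc⟩))
  refine suff_three Lf Pf Qf d1 d2 d3 hU hQ1 hP2 hL3 ?_ ?_
  · intro F hF G hG hFc hGc hQc
    obtain ⟨a, b, hab, rfl⟩ := Finset.card_eq_two.mp hFc
    obtain ⟨c, rfl⟩ := Finset.card_eq_one.mp hGc
    obtain ⟨q, hq⟩ := Finset.card_eq_one.mp hQc
    have ha := (mL a).mp (hF (by simp))
    have hb := (mL b).mp (hF (by simp))
    have hc := (mP c).mp (hG (by simp))
    have hq' : q ∈ Q := (mQ q).mp (by rw [hq]; simp)
    have ha1 : a ∉ P := fun h => ha (Or.inl h)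
    have ha2 : a ∉ Q := fun h => ha (Or.inr h)
    have hb1 : b ∉ P := fun h => hb (Or.inl h)
    have hb2 : b ∉ Q := fun h => hb (Or.inr h)
    have hc2 : c ∉ Q := dPQ c hc
    have hq1 : q ∉ P := fun h => dPQ q h hq'
    have hac : a ≠ c := fun h => ha1 (h ▸ hc)
    have hbc : b ≠ c := fun h => hb1 (h ▸ hc)
    have haq : a ≠ q := fun h => ha2 (h ▸ hq')
    have hbq : b ≠ q := fun h => hb2 (h ▸ hq')
    have hcq : c ≠ q := fun h => hc2 (h ▸ hq')
    rw [hq]
    show M.IsCircuit _
    have e : (({a, b} ∪ {c} ∪ {q} : Finset α) : Set α) = {a, b, c, q} := by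
      ext x; simp
    rw [e]
    have hcPQ : c ∈ P ∪ Q := Or.inl hc
    have hqPQ : q ∈ P ∪ Q := Or.inr hq'
    have t1 : M.Indep {a, b, c} := by
      by_contra hcon
      rw [ht a b c hab hac hbc] at hcon
      tauto
    have t2 : M.Indep {a, b, q} := by
      by_contra hcon
      rw [ht a b q hab haq hbq] at hcon
      tauto
    have t3 : M.Indep {a, c, q} := by
      by_contra hcon
      rw [ht a c q hac haq hcq] at hcon
      tauto
    have t4 : M.Indep {b, c, q} := by
      by_contra hcon
      rw [ht b c q hbc hbq hcq] at hcon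
      tauto
    exact circ4 hE hr hab hac haq hbc hbq hcq t1 t2 t3 t4
  · intro F hF
    have hsum : (F ∩ Lf).card + (F ∩ Pf).card + (F ∩ Qf).card = F.card := by
      have e1 : F = (F ∩ Lf) ∪ (F ∩ Pf) ∪ (F ∩ Qf) := by
        rw [← Finset.inter_union_distrib_left, ← Finset.inter_union_distrib_left, hU,
          Finset.inter_univ]
      conv_rhs => rw [e1]
      rw [Finset.card_union_of_disjoint, Finset.card_union_of_disjoint]
      · exact Finset.disjoint_of_subset_left Finset.inter_subset_right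
          (Finset.disjoint_of_subset_right Finset.inter_subset_right d1)
      · rw [Finset.disjoint_union_left]
        exact ⟨Finset.disjoint_of_subset_left Finset.inter_subset_right
          (Finset.disjoint_of_subset_right Finset.inter_subset_right d2),
          Finset.disjoint_of_subset_left Finset.inter_subset_right
          (Finset.disjoint_of_subset_right Finset.inter_subset_right d3)⟩
    have hF4 : F.card ≤ 4 := circ_card hr hF
    have hq : (F ∩ Qf).card ≤ 1 := (Finset.card_le_card Finset.inter_subset_right).trans hQ1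
    have hPc : 2 ≤ (F ∩ Pf).card → F.card = 2 := by
      intro h2
      obtain ⟨G, hG, hG2⟩ := Finset.exists_subset_card_eq h2
      have := circ_eq hF (hP2 G (hG.trans Finset.inter_subset_right) hG2)
        (hG.trans Finset.inter_subset_left)
      rw [← this, hG2]
    have hLc : 3 ≤ (F ∩ Lf).card → F.card = 3 := by
      intro h3
      obtain ⟨G, hG, hG3⟩ := Finset.exists_subset_card_eq h3
      have := circ_eq hF (hL3 G (hG.trans Finset.inter_subset_right) hG3)
        (hG.trans Finset.inter_subset_left)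
      rw [← this, hG3]
    have hdep : ¬ M.Indep (F : Set α) := (Matroid.IsCircuit.dep hF).not_indep
    rcases Nat.lt_or_ge F.card 1 with h0 | h0
    · exfalso
      have : F = ∅ := Finset.card_eq_zero.mp (by omega)
      subst this
      simp at hdep
    rcases Nat.lt_or_ge F.card 2 with h1 | h1
    · exfalso
      obtain ⟨a, rfl⟩ := Finset.card_eq_one.mp (show F.card = 1 by omega)
      exact hdep (by simpa using hl a)
    rcases Nat.lt_or_ge F.card 3 with h2 | h2
    · left
      obtain ⟨a, b, hab, rfl⟩ := Finset.card_eq_two.mp (show F.card = 2 by omega)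
      have h3 : ¬ M.Indep {a, b} := by simpa using hdep
      rw [hp a b hab] at h3
      have h4 : ({a, b} ∩ Pf : Finset α) = {a, b} := by
        rw [Finset.inter_eq_left]
        intro x hx
        simp only [Finset.mem_insert, Finset.mem_singleton] at hx
        rcases hx with rfl | rfl
        · exact (mP _).mpr h3.1
        · exact (mP _).mpr h3.2
      have h5 : ({a, b} : Finset α).card = 2 := Finset.card_pair hab
      rw [h4, h5] at hsum
      rw [h4, h5]
      omega
    rcases Nat.lt_or_ge F.card 4 with h3 | h3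
    · right; left
      have hF3 : F.card = 3 := by omega
      obtain ⟨a, b, c, hab, hac, hbc, rfl⟩ := Finset.card_eq_three.mp hF3
      have h4 : ¬ M.Indep {a, b, c} := by simpa using hdep
      have two : ∀ x ∈ ({a, b, c} : Finset α), ∀ y ∈ ({a, b, c} : Finset α), x ≠ y →
          ¬ (x ∈ P ∧ y ∈ P) := by
        rintro x hx y hy hxy ⟨hxP, hyP⟩
        have h6 : ({x, y} : Finset α) ⊆ {a, b, c} ∩ Pf := by
          intro z hz
          simp only [Finset.mem_insert, Finset.mem_singleton] at hz
          rcases hz with rfl | rfl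
          · exact Finset.mem_inter.mpr ⟨hx, (mP _).mpr hxP⟩
          · exact Finset.mem_inter.mpr ⟨hy, (mP _).mpr hyP⟩
        have h7 := Finset.card_le_card h6
        rw [Finset.card_pair hxy] at h7
        have := hPc h7
        omega
      rw [ht a b c hab hac hbc] at h4
      have ma : a ∈ ({a, b, c} : Finset α) := by simp
      have mb : b ∈ ({a, b, c} : Finset α) := by simp
      have mc : c ∈ ({a, b, c} : Finset α) := by simp
      rcases h4 with h4 | h4 | h4 | h4
      · exact absurd h4 (two a ma b mb hab)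
      · exact absurd h4 (two a ma c mc hac)
      · exact absurd h4 (two b mb c mc hbc)
      · have h5 : ({a, b, c} ∩ Lf : Finset α) = {a, b, c} := by
          rw [Finset.inter_eq_left]
          intro x hx
          simp only [Finset.mem_insert, Finset.mem_singleton] at hx
          rcases hx with rfl | rfl | rfl
          · exact (mL _).mpr h4.1
          · exact (mL _).mpr h4.2.1
          · exact (mL _).mpr h4.2.2
        rw [h5, hF3] at hsum
        rw [h5, hF3]
        omega
    · right; right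
      have h5 : (F ∩ Pf).card ≤ 1 := by
        by_contra hcon
        have := hPc (by omega)
        omega
      have h6 : (F ∩ Lf).card ≤ 2 := by
        by_contra hcon
        have := hLc (by omega)
        omega
      omega

/-- Sufficiency. -/
lemma suff_types (hE : M.E = Set.univ) (hr : M.eRank = 3) (hl : ∀ a, M.Indep {a})
    (h : Types M) : IsHilbert (circ M) := by
  rcases h with h | ⟨A, hs, hA⟩ | ⟨P, Q, hPQ, hQ, hp, ht⟩
  · exact simple_suff hE hr (fun a b => pair_of_triple (c := a) h) (Or.inl h)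
  · exact simple_suff hE hr hs (Or.inr ⟨A, hA⟩)
  · exact suff_types3 hE hr hl hPQ hQ hp ht

section

variable {β : Type} [Fintype β] [DecidableEq β] {ι : β ↪ α} {κ : α → β}

lemma extra_of_eq {a b : α} (hab : a ≠ b) (hk : κ a = κ b) : Extra ι κ (κ a) := by
  by_cases h : a = ι (κ a)
  · exact ⟨b, hk.symm, fun e => hab (by rw [h, e])⟩
  · exact ⟨a, rfl, h⟩

lemma Setup.indep3 (h : Setup M ι κ) {a b c : α} (hab : a ≠ b) (hac : a ≠ c) (hbc : b ≠ c) :
    ¬ M.Indep {a, b, c} ↔ colβ M ι (κ a) (κ b) (κ c) := by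
  have h1 := h.colk a b c
  have h2 : col M a b c ↔ ¬ M.Indep {a, b, c} := by
    unfold col
    tauto
  rw [← h2, h1]
  rfl

/-- The third type. -/
lemma Setup.build3 (h : Setup M ι κ) (X P Q : β → Prop)
    (nec : ∀ x y z : β, x ≠ y → x ≠ z → y ≠ z →
      (colβ M ι x y z ↔ (X x ∧ X y ∧ X z) ∨ (¬ X x ∧ ¬ X y ∧ ¬ X z)))
    (hX : ∀ x, X x ↔ ¬ P x ∧ ¬ Q x) (hPQ : ∀ x, P x → ¬ Q x)
    (hP1 : ∀ x y, P x → P y → x = y) (hQ1 : ∀ x y, Q x → Q y → x = y)
    (hXe : ∀ r, X r → ¬ Extra ι κ r) (hQe : ∀ r, Q r → ¬ Extra ι κ r) : Types M := by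
  have s1 := h.ax.s1
  have s2 := h.ax.s2
  have dg := h.ax.dg
  have pairs : ∀ a b : α, a ≠ b → (κ a = κ b ↔ P (κ a) ∧ P (κ b)) := by
    intro a b hab
    constructor
    · intro hk
      have he := extra_of_eq (ι := ι) hab hk
      have h1 : P (κ a) := by
        by_contra hcon
        by_cases hq : Q (κ a)
        · exact hQe _ hq he
        · exact hXe _ ((hX _).mpr ⟨hcon, hq⟩) he
      exact ⟨h1, hk ▸ h1⟩
    · rintro ⟨h1, h2⟩
      exact hP1 _ _ h1 h2
  right; right
  refine ⟨{e | P (κ e)}, {e | Q (κ e)}, ?_, ?_, ?_, ?_⟩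
  · rw [Set.disjoint_left]
    intro e h1 h2
    exact hPQ _ h1 h2
  · intro a ha b hb
    by_contra hab
    have hk : κ a = κ b := hQ1 _ _ ha hb
    exact hQe _ ha (extra_of_eq hab hk)
  · intro a b hab
    rw [h.pair a b hab]
    exact pairs a b hab
  · intro a b c hab hac hbc
    rw [h.indep3 hab hac hbc]
    simp only [Set.mem_ofPred_eq, Set.mem_union, not_or]
    by_cases k1 : κ a = κ b
    · have := (pairs a b hab).mp k1
      rw [k1]
      constructor
      · intro _
        left
        exact ⟨k1 ▸ this.1, this.2⟩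
      · intro _
        exact dg _ _
    by_cases k2 : κ a = κ c
    · have := (pairs a c hac).mp k2
      rw [k2]
      constructor
      · intro _
        right; left
        exact ⟨k2 ▸ this.1, this.2⟩
      · intro _
        exact s2 _ _ _ (dg _ _)
    by_cases k3 : κ b = κ c
    · have := (pairs b c hbc).mp k3
      rw [k3]
      constructor
      · intro _
        right; right; left
        exact ⟨k3 ▸ this.1, this.2⟩
      · intro _
        exact s1 _ _ _ (s2 _ _ _ (dg _ _))
    rw [nec _ _ _ k1 k2 k3, hX, hX, hX]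
    have p1 : ¬ (P (κ a) ∧ P (κ b)) := fun e => k1 (hP1 _ _ e.1 e.2)
    have p2 : ¬ (P (κ a) ∧ P (κ c)) := fun e => k2 (hP1 _ _ e.1 e.2)
    have p3 : ¬ (P (κ b) ∧ P (κ c)) := fun e => k3 (hP1 _ _ e.1 e.2)
    have q1 : ¬ (Q (κ a) ∧ Q (κ b)) := fun e => k1 (hQ1 _ _ e.1 e.2)
    have q2 : ¬ (Q (κ a) ∧ Q (κ c)) := fun e => k2 (hQ1 _ _ e.1 e.2)
    have q3 : ¬ (Q (κ b) ∧ Q (κ c)) := fun e => k3 (hQ1 _ _ e.1 e.2)
    constructor
    · rintro (h4 | ⟨h4, h5, h6⟩)
      · exact Or.inr (Or.inr (Or.inr h4))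
      · exfalso
        have A : P (κ a) ∨ Q (κ a) := by
          by_contra hc
          exact h4 ⟨fun e => hc (Or.inl e), fun e => hc (Or.inr e)⟩
        have B : P (κ b) ∨ Q (κ b) := by
          by_contra hc
          exact h5 ⟨fun e => hc (Or.inl e), fun e => hc (Or.inr e)⟩
        have C : P (κ c) ∨ Q (κ c) := by
          by_contra hc
          exact h6 ⟨fun e => hc (Or.inl e), fun e => hc (Or.inr e)⟩
        rcases A with A | A <;> rcases B with B | B <;> rcases C with C | C <;>
          first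
            | exact p1 ⟨A, B⟩
            | exact p2 ⟨A, C⟩
            | exact p3 ⟨B, C⟩
            | exact q1 ⟨A, B⟩
            | exact q2 ⟨A, C⟩
            | exact q3 ⟨B, C⟩
    · rintro (h4 | h4 | h4 | h4)
      · exact absurd h4 p1
      · exact absurd h4 p2
      · exact absurd h4 p3
      · exact Or.inl h4

/-- Necessity. -/
lemma Setup.necessary (h : Setup M ι κ) (hH : IsHilbert (circ M))
    (cfg : (∃ a b c d : β, a ≠ b ∧ a ≠ c ∧ a ≠ d ∧ b ≠ c ∧ b ≠ d ∧ c ≠ d ∧ colβ M ι a b c ∧
      colβ M ι a b d) ∨ ∃ p a b c d, Four (colβ M ι) p a b c d) : Types M := by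
  have hH' := hilbert_sub ι hH
  have hN : NoTheta (colβ M ι) := no_theta_of_config h.ax h.fam hH' cfg
  have s1 := h.ax.s1
  have s2 := h.ax.s2
  have tr := h.ax.tr
  have dg := h.ax.dg
  by_cases hU : ∀ x y z : β, x ≠ y → x ≠ z → y ≠ z → ¬ colβ M ι x y z
  · -- uniform
    left
    rcases cfg with ⟨a, b, c, d, hab, hac, had, hbc, hbd, hcd, h1, h2⟩ | ⟨p, a, b, c, d, hF⟩
    · exact absurd h1 (hU a b c hab hac hbc)
    obtain ⟨f1, f2, f3, f4, f5, f6⟩ := hF
    have g1 := ne_of_not_col h.ax f1
    have g2 := ne_of_not_col h.ax f2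
    have g3 := ne_of_not_col h.ax f3
    have g4 := ne_of_not_col h.ax f4
    have g5 := ne_of_not_col h.ax f5
    have g6 := ne_of_not_col h.ax f6
    have hcard5 : ({p, a, b, c, d} : Finset β).card = 5 := by
      rw [Finset.card_insert_of_notMem, Finset.card_insert_of_notMem,
        Finset.card_insert_of_notMem, Finset.card_pair g6.2.2]
      · simp only [Finset.mem_insert, Finset.mem_singleton, not_or]
        exact ⟨g4.2.2, g5.2.2⟩
      · simp only [Finset.mem_insert, Finset.mem_singleton, not_or]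
        exact ⟨g1.2.2, g2.2.2, g3.2.2⟩
      · simp only [Finset.mem_insert, Finset.mem_singleton, not_or]
        exact ⟨g1.1, g1.2.1, g2.2.1, g3.2.1⟩
    have noex : ∀ r, ¬ Extra ι κ r := by
      intro r
      have h4 : 4 ≤ (({p, a, b, c, d} : Finset β).erase r).card := by
        have := Finset.pred_card_le_card_erase (s := ({p, a, b, c, d} : Finset β)) (a := r)
        omega
      obtain ⟨G, hG, hG4⟩ := Finset.exists_subset_card_eq h4
      obtain ⟨x, G', hxG, rfl, hG3⟩ := Finset.card_eq_succ.mp hG4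
      obtain ⟨y, z, w, hyz, hyw, hzw, rfl⟩ := Finset.card_eq_three.mp hG3
      simp only [Finset.mem_insert, Finset.mem_singleton, not_or] at hxG
      have nr : ∀ t ∈ insert x ({y, z, w} : Finset β), r ≠ t := by
        intro t ht
        have := Finset.mem_erase.mp (hG ht)
        exact this.1.symm
      exact h.no_extra_a hH hU (nr x (by simp)) (nr y (by simp)) (nr z (by simp))
        (nr w (by simp)) hxG.1 hxG.2.1 hxG.2.2 hyz hyw hzw
    have inj : ∀ x y : α, x ≠ y → κ x ≠ κ y := fun x y hxy hk =>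
      noex _ (extra_of_eq hxy hk)
    have ind2 : ∀ x y : α, M.Indep {x, y} := by
      intro x y
      by_cases hxy : x = y
      · subst hxy; simpa using h.hl x
      · by_contra hcon
        exact inj x y hxy ((h.pair x y hxy).mp hcon)
    intro x y z
    by_cases hxy : x = y
    · subst hxy; simpa using ind2 x z
    by_cases hxz : x = z
    · subst hxz
      refine (ind2 x y).subset ?_
      intro t ht; simp at ht ⊢; tauto
    by_cases hyz : y = z
    · subst hyz; simpa using ind2 x y
    by_contra hcon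
    exact hU _ _ _ (inj x y hxy) (inj x z hxz) (inj y z hyz) ((h.indep3 hxy hxz hyz).mp hcon)
  · -- there is a line
    push Not at hU
    obtain ⟨a, b, c, hab, hac, hbc, hcol⟩ := hU
    set X : β → Prop := fun x => colβ M ι a b x with hXdef
    have nec : ∀ x y z : β, x ≠ y → x ≠ z → y ≠ z →
        (colβ M ι x y z ↔ (X x ∧ X y ∧ X z) ∨ (¬ X x ∧ ¬ X y ∧ ¬ X z)) :=
      fun x y z hxy hxz hyz => necessity' h.ax h.fam hH' hN hab hac hbc hcol x y z hxy hxz hyz
    have Xa : X a := s2 _ _ _ (dg a b)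
    have Xb : X b := s1 _ _ _ (s2 _ _ _ (dg b a))
    have Xc : X c := hcol
    have nex : ∀ u v, u ≠ v → ¬ X u → ¬ X v → ∀ r, X r → ¬ Extra ι κ r := by
      intro u v huv hu hv r hr
      have key : ∀ r b' c', r ≠ b' → r ≠ c' → b' ≠ c' → X r → X b' → X c' →
          ¬ Extra ι κ r := by
        intro r b' c' n1 n2 n3 x1 x2 x3
        have nu1 : r ≠ u := fun e => hu (e ▸ x1)
        have nu2 : b' ≠ u := fun e => hu (e ▸ x2)
        have nv1 : r ≠ v := fun e => hv (e ▸ x1)
        have nv2 : b' ≠ v := fun e => hv (e ▸ x2)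
        refine h.no_extra_c hH hN n1 n2 n3 huv ((nec r b' c' n1 n2 n3).mpr (Or.inl ⟨x1, x2, x3⟩))
          ?_ ?_
        · rw [nec r b' u n1 nu1 nu2]; tauto
        · rw [nec r b' v n1 nv1 nv2]; tauto
      by_cases ra : r = a
      · subst ra; exact key r b c hab hac hbc Xa Xb Xc
      by_cases rb : r = b
      · subst rb; exact key r a c hab.symm hbc hac Xb Xa Xc
      · exact key r a b ra rb hab hr Xa Xb
    by_cases h3 : ∃ u v w, u ≠ v ∧ u ≠ w ∧ v ≠ w ∧ ¬ X u ∧ ¬ X v ∧ ¬ X w
    · -- two lines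
      obtain ⟨u, v, w, huv, huw, hvw, hu, hv, hw⟩ := h3
      right; left
      have ney : ∀ r, ¬ X r → ¬ Extra ι κ r := by
        intro r hr
        have key : ∀ r b' c', r ≠ b' → r ≠ c' → b' ≠ c' → ¬ X r → ¬ X b' → ¬ X c' →
            ¬ Extra ι κ r := by
          intro r b' c' n1 n2 n3 x1 x2 x3
          have nu1 : r ≠ a := fun e => x1 (e ▸ Xa)
          have nu2 : b' ≠ a := fun e => x2 (e ▸ Xa)
          have nv1 : r ≠ b := fun e => x1 (e ▸ Xb)
          have nv2 : b' ≠ b := fun e => x2 (e ▸ Xb)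
          refine h.no_extra_c hH hN n1 n2 n3 hab
            ((nec r b' c' n1 n2 n3).mpr (Or.inr ⟨x1, x2, x3⟩)) ?_ ?_
          · rw [nec r b' a n1 nu1 nu2]; tauto
          · rw [nec r b' b n1 nv1 nv2]; tauto
        by_cases ru : r = u
        · subst ru; exact key r v w huv huw hvw hu hv hw
        by_cases rv : r = v
        · subst rv; exact key r u w huv.symm hvw huw hv hu hw
        · exact key r u v ru rv huv hr hu hv
      have noex : ∀ r, ¬ Extra ι κ r := by
        intro r
        by_cases hr : X r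
        · exact nex u v huv hu hv r hr
        · exact ney r hr
      have inj : ∀ x y : α, x ≠ y → κ x ≠ κ y := fun x y hxy hk =>
        noex _ (extra_of_eq hxy hk)
      refine ⟨{e | X (κ e)}, ?_, ?_⟩
      · intro x y
        by_cases hxy : x = y
        · subst hxy; simpa using h.hl x
        · by_contra hcon
          exact inj x y hxy ((h.pair x y hxy).mp hcon)
      · intro x y z hxy hxz hyz
        rw [h.indep3 hxy hxz hyz, nec _ _ _ (inj x y hxy) (inj x z hxz) (inj y z hyz)]
        rfl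
    · by_cases h2 : ∃ u v, u ≠ v ∧ ¬ X u ∧ ¬ X v
      · obtain ⟨u, v, huv, hu, hv⟩ := h2
        have only : ∀ w, ¬ X w → w = u ∨ w = v := by
          intro w hw
          by_contra hcon
          push Not at hcon
          exact h3 ⟨u, v, w, huv, hcon.1.symm, hcon.2.symm, hu, hv, hw⟩
        have nuv := h.no_extra_d hH hN hab hac hbc huv hcol hu hv
        have main : ∀ u v, u ≠ v → ¬ X u → ¬ X v → (∀ w, ¬ X w → w = u ∨ w = v) →
            ¬ Extra ι κ v → Types M := by
          intro u v huv hu hv only hev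
          refine h.build3 X (fun x => x = u) (fun x => x = v) nec ?_ ?_ ?_ ?_ ?_ ?_
          · intro x
            constructor
            · intro hx
              exact ⟨fun e => hu (e ▸ hx), fun e => hv (e ▸ hx)⟩
            · rintro ⟨h4, h5⟩
              by_contra hx
              rcases only x hx with h6 | h6
              · exact h4 h6
              · exact h5 h6
          · rintro x rfl e
            exact huv e
          · intro x y h4 h5
            rw [h4, h5]
          · intro x y h4 h5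
            rw [h4, h5]
          · exact nex u v huv hu hv
          · intro r hr
            rw [hr]
            exact hev
        by_cases hev : Extra ι κ v
        · have heu : ¬ Extra ι κ u := fun e => nuv ⟨e, hev⟩
          exact main v u huv.symm hv hu (fun w hw => (only w hw).symm) heu
        · exact main u v huv hu hv only hev
      · have sub : ∀ x y, ¬ X x → ¬ X y → x = y := by
          intro x y hx hy
          by_contra hxy
          exact h2 ⟨x, y, hxy, hx, hy⟩
        have four : ∃ x1 x2 x3 x4, x1 ≠ x2 ∧ x1 ≠ x3 ∧ x1 ≠ x4 ∧ x2 ≠ x3 ∧ x2 ≠ x4 ∧ x3 ≠ x4 ∧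
            X x1 ∧ X x2 ∧ X x3 ∧ X x4 := by
          rcases cfg with ⟨x1, x2, x3, x4, n12, n13, n14, n23, n24, n34, k1, k2⟩ |
            ⟨p, x1, x2, x3, x4, f1, f2, f3, f4, f5, f6⟩
          · have e1 := (nec x1 x2 x3 n12 n13 n23).mp k1
            have e2 := (nec x1 x2 x4 n12 n14 n24).mp k2
            have e3 : X x1 := by
              by_contra hcon
              have : ¬ X x2 := by tauto
              exact n12 (sub _ _ hcon this)
            exact ⟨x1, x2, x3, x4, n12, n13, n14, n23, n24, n34, by tauto⟩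
          · have g1 := ne_of_not_col h.ax f1
            have g2 := ne_of_not_col h.ax f2
            have g3 := ne_of_not_col h.ax f3
            have g4 := ne_of_not_col h.ax f4
            have g5 := ne_of_not_col h.ax f5
            have g6 := ne_of_not_col h.ax f6
            rw [nec _ _ _ g1.1 g1.2.1 g1.2.2] at f1
            rw [nec _ _ _ g2.1 g2.2.1 g2.2.2] at f2
            rw [nec _ _ _ g3.1 g3.2.1 g3.2.2] at f3
            rw [nec _ _ _ g4.1 g4.2.1 g4.2.2] at f4
            rw [nec _ _ _ g5.1 g5.2.1 g5.2.2] at f5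
            rw [nec _ _ _ g6.1 g6.2.1 g6.2.2] at f6
            have m12 : ¬ (¬ X x1 ∧ ¬ X x2) := fun e => g1.2.2 (sub _ _ e.1 e.2)
            have m13 : ¬ (¬ X x1 ∧ ¬ X x3) := fun e => g2.2.2 (sub _ _ e.1 e.2)
            have m14 : ¬ (¬ X x1 ∧ ¬ X x4) := fun e => g3.2.2 (sub _ _ e.1 e.2)
            have m23 : ¬ (¬ X x2 ∧ ¬ X x3) := fun e => g4.2.2 (sub _ _ e.1 e.2)
            have m24 : ¬ (¬ X x2 ∧ ¬ X x4) := fun e => g5.2.2 (sub _ _ e.1 e.2)
            have m34 : ¬ (¬ X x3 ∧ ¬ X x4) := fun e => g6.2.2 (sub _ _ e.1 e.2)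
            have mp1 : ¬ (¬ X p ∧ ¬ X x1) := fun e => g1.1 (sub _ _ e.1 e.2)
            have mp2 : ¬ (¬ X p ∧ ¬ X x2) := fun e => g1.2.1 (sub _ _ e.1 e.2)
            have mp3 : ¬ (¬ X p ∧ ¬ X x3) := fun e => g2.2.1 (sub _ _ e.1 e.2)
            have mp4 : ¬ (¬ X p ∧ ¬ X x4) := fun e => g3.2.1 (sub _ _ e.1 e.2)
            have hpX : ¬ X p := by
              intro hp
              by_cases y1 : X x1
              · have y2 : ¬ X x2 := fun e => f1 (Or.inl ⟨hp, y1, e⟩)
                have y3 : ¬ X x3 := fun e => f2 (Or.inl ⟨hp, y1, e⟩)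
                exact m23 ⟨y2, y3⟩
              · have y2 : X x2 := by
                  by_contra e
                  exact m12 ⟨y1, e⟩
                have y3 : X x3 := by
                  by_contra e
                  exact m13 ⟨y1, e⟩
                exact f4 (Or.inl ⟨hp, y2, y3⟩)
            have z1 : X x1 := by
              by_contra e
              exact mp1 ⟨hpX, e⟩
            have z2 : X x2 := by
              by_contra e
              exact mp2 ⟨hpX, e⟩
            have z3 : X x3 := by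
              by_contra e
              exact mp3 ⟨hpX, e⟩
            have z4 : X x4 := by
              by_contra e
              exact mp4 ⟨hpX, e⟩
            exact ⟨x1, x2, x3, x4, g1.2.2, g2.2.2, g3.2.2, g4.2.2, g5.2.2, g6.2.2, z1, z2, z3, z4⟩
        obtain ⟨x1, x2, x3, x4, n12, n13, n14, n23, n24, n34, m1, m2, m3, m4⟩ := four
        have key : ∀ r b' c' d', r ≠ b' → r ≠ c' → r ≠ d' → b' ≠ c' → b' ≠ d' → c' ≠ d' →
            X r → X b' → X c' → X d' → ¬ Extra ι κ r := by
          intro r b' c' d' n1 n2 n3 n4 n5 n6 k1 k2 k3 k4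
          exact h.no_extra_b hH n1 n2 n3 n4 n5 n6
            ((nec r b' c' n1 n2 n4).mpr (Or.inl ⟨k1, k2, k3⟩))
            ((nec r b' d' n1 n3 n5).mpr (Or.inl ⟨k1, k2, k4⟩))
        refine h.build3 X (fun x => ¬ X x) (fun _ => False) nec ?_ ?_ ?_ ?_ ?_ ?_
        · intro x
          exact ⟨fun hx => ⟨fun e => e hx, fun e => e⟩, fun e => by_contra fun hx => e.1 hx⟩
        · intro x _ e; exact e
        · intro x y hx hy; exact sub x y hx hy
        · intro x y hx _; exact absurd hx (by simp)
        · intro r hr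
          by_cases r1 : r = x1
          · subst r1; exact key _ x2 x3 x4 n12 n13 n14 n23 n24 n34 m1 m2 m3 m4
          by_cases r2 : r = x2
          · subst r2; exact key _ x1 x3 x4 n12.symm n23 n24 n13 n14 n34 m2 m1 m3 m4
          by_cases r3 : r = x3
          · subst r3; exact key _ x1 x2 x4 n13.symm n23.symm n34 n12 n14 n24 m3 m1 m2 m4
          · exact key _ x1 x2 x3 r1 r2 r3 n12 n13 n23 hr m1 m2 m3
        · intro r hr; exact absurd hr (by simp)

end

/-- The classification. -/
theorem classification (hE : M.E = Set.univ) (hr : M.eRank = 3) (hl : ∀ a, M.Indep {a})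
    (hU : HasU24Minor M) : IsHilbert (circ M) ↔ Types M := by
  classical
  refine ⟨fun hH => ?_, suff_types hE hr hl⟩
  have : Fintype (Quotient (parS M)) := Fintype.ofFinite _
  set κ : α → Quotient (parS M) := Quotient.mk (parS M) with hκ
  set ι : Quotient (parS M) ↪ α := ⟨Quotient.out, Quotient.out_injective⟩ with hι
  have hcl : ∀ a, M.closure {ι (κ a)} = M.closure {a} := by
    intro a
    exact Quotient.mk_out (s := parS M) a
  have hk : ∀ a b, κ a = κ b ↔ M.closure {a} = M.closure {b} := by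
    intro a b
    exact Quotient.eq (r := parS M)
  have hset : Setup M ι κ := by
    refine ⟨hE, hr, hl, ?_, ?_, ?_⟩
    · intro b
      exact Quotient.out_eq b
    · intro a b hab
      rw [indep_pair_iff hE hl, hk]
      tauto
    · intro a b c
      exact col_congr (hcl a).symm (hcl b).symm (hcl c).symm
  refine hset.necessary hH ?_
  have kne : ∀ a b, a ≠ b → M.Indep {a, b} → κ a ≠ κ b := by
    intro a b hab hI hk2
    exact (hset.pair a b hab).mpr hk2 hI
  rcases u24_config hr hU with ⟨a, b, c, d, i1, i2, i3, i4, i5, i6, hab, hac, had, hbc, hbd, hcd,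
    k1, k2⟩ | ⟨p, a, b, c, d, hpa, hpb, hpc, hpd, hab, hac, had, hbc, hbd, hcd, i1, i2, i3, i4, i5,
    i6⟩
  · left
    exact ⟨κ a, κ b, κ c, κ d, kne a b hab i1, kne a c hac i2, kne a d had i3, kne b c hbc i4,
      kne b d hbd i5, kne c d hcd i6, (hset.indep3 hab hac hbc).mp k1,
      (hset.indep3 hab had hbd).mp k2⟩
  · right
    refine ⟨κ p, κ a, κ b, κ c, κ d, ?_, ?_, ?_, ?_, ?_, ?_⟩
    · rw [← hset.indep3 hpa hpb hab]; exact fun e => e i1
    · rw [← hset.indep3 hpa hpc hac]; exact fun e => e i2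
    · rw [← hset.indep3 hpa hpd had]; exact fun e => e i3
    · rw [← hset.indep3 hpb hpc hbc]; exact fun e => e i4
    · rw [← hset.indep3 hpb hpd hbd]; exact fun e => e i5
    · rw [← hset.indep3 hpc hpd hcd]; exact fun e => e i6

end Pool.Agent.L5helper89.HB
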