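import Pool.Agent.L5helper89.HB.Decomp

/-!
# Restriction to a subset, and obstructions
-/

set_option autoImplicit false
set_option linter.unusedSectionVars false
set_option linter.unusedVariables false

namespace Pool.Agent.L5helper89.HB

open Finset

variable {α : Type} [Fintype α] [DecidableEq α] {S : Set (Finset α)}

lemma Cone.zero : (0 : α → ℚ) ∈ Cone S := zero_mem' (K := {q | 0 ≤ q}) (by simp)

lemma Lat.zero : (0 : α → ℚ) ∈ Lat S := zero_mem' (K := Set.range ((↑) : ℤ → ℚ)) ⟨0, by simp⟩

lemma Cone.sum {ι : Type} (s : Finset ι) (f : ι → α → ℚ) (hf : ∀ i ∈ s, f i ∈ Cone S) :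
    ∑ i ∈ s, f i ∈ Cone S := by
  classical
  induction s using Finset.induction_on with
  | empty => simpa using Cone.zero
  | insert i s hi ih =>
    rw [Finset.sum_insert hi]
    exact Cone.add (hf i (by simp)) (ih fun j hj => hf j (by simp [hj]))

lemma Lat.sum {ι : Type} (s : Finset ι) (f : ι → α → ℚ) (hf : ∀ i ∈ s, f i ∈ Lat S) :
    ∑ i ∈ s, f i ∈ Lat S := by
  classical
  induction s using Finset.induction_on with
  | empty => simpa using Lat.zero
  | insert i s hi ih =>
    rw [Finset.sum_insert hi]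
    exact Lat.add (hf i (by simp)) (ih fun j hj => hf j (by simp [hj]))

lemma IntCone.smul (n : ℕ) {p : α → ℚ} (hp : p ∈ IntCone S) : (n : ℚ) • p ∈ IntCone S := by
  refine smul_mem' ?_ hp
  rintro _ ⟨a, rfl⟩
  exact ⟨n * a, by push_cast; ring⟩

lemma supp_coeff {c : Finset α → ℚ} (hc : ∀ F, 0 ≤ c F) {A : Finset α}
    (h : ∀ e, e ∉ A → (∑ F, c F • chi F) e = 0) {F : Finset α} (hF : c F ≠ 0) : F ⊆ A := by
  intro e he
  by_contra heA
  have h1 := h e heA
  simp only [Finset.sum_apply, Pi.smul_apply, smul_eq_mul, chi] at h1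
  rw [Finset.sum_eq_zero_iff_of_nonneg] at h1
  · have := h1 F (Finset.mem_univ _)
    simp [he, hF] at this
  · intro G _
    exact mul_nonneg (hc G) (by split_ifs <;> norm_num)

/-- The size count for a nonnegative integer combination supported in `A`. -/
lemma int_count {p : α → ℚ} (hp : p ∈ IntCone S) {A : Finset α} (h : ∀ e, e ∉ A → p e = 0) :
    ∃ n : Finset α → ℕ, (∀ F, n F ≠ 0 → F ∈ S ∧ F ⊆ A) ∧
      ∑ e, p e = ((∑ F : Finset α, n F * F.card : ℕ) : ℚ) := by
  obtain ⟨c, hcn, hc0, rfl⟩ := hp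
  choose n hn using hcn
  refine ⟨n, ?_, ?_⟩
  · intro F hF
    have hcF : c F ≠ 0 := by
      rw [← hn F]
      exact_mod_cast hF
    refine ⟨?_, ?_⟩
    · by_contra hS
      exact hcF (hc0 F hS)
    · refine supp_coeff (fun G => ?_) h hcF
      rw [← hn G]
      positivity
  · rw [sum_combo]
    push_cast
    refine Finset.sum_congr rfl fun F _ => ?_
    rw [← hn F, Finset.univ_inter]

/-- Weight five and sizes three and four. -/
lemma obstruct34 {A : Finset α} (hS : ∀ F ∈ S, F ⊆ A → F.card = 3 ∨ F.card = 4) {p : α → ℚ}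
    (hc : p ∈ Cone S) (hl : p ∈ Lat S) (h : ∀ e, e ∉ A → p e = 0) (h5 : ∑ e, p e = 5) :
    ¬ IsHilbert S := by
  intro hH
  have hp : p ∈ IntCone S := by
    rw [hH]
    exact ⟨hc, hl⟩
  obtain ⟨n, hn, hsum⟩ := int_count hp h
  rw [h5] at hsum
  have h6 : ∑ F : Finset α, n F * F.card = 5 := by exact_mod_cast hsum.symm
  have h7 : ∑ F : Finset α, n F * F.card =
      3 * (∑ F : Finset α, if F.card = 3 then n F else 0) +
      4 * (∑ F : Finset α, if F.card = 4 then n F else 0) := by
    rw [Finset.mul_sum, Finset.mul_sum, ← Finset.sum_add_distrib]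
    refine Finset.sum_congr rfl fun F _ => ?_
    by_cases hF : n F = 0
    · simp [hF]
    · rcases hS F (hn F hF).1 (hn F hF).2 with h | h
      · simp [h]; ring
      · simp [h]; ring
  omega

/-- All sizes equal to `t`, total weight not a multiple of `t`. -/
lemma obstruct_dvd {A : Finset α} {t N : ℕ} (hS : ∀ F ∈ S, F ⊆ A → F.card = t) {p : α → ℚ}
    (hc : p ∈ Cone S) (hl : p ∈ Lat S) (h : ∀ e, e ∉ A → p e = 0) (h5 : ∑ e, p e = N)
    (hN : ¬ t ∣ N) : ¬ IsHilbert S := by
  intro hH
  have hp : p ∈ IntCone S := by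
    rw [hH]
    exact ⟨hc, hl⟩
  obtain ⟨n, hn, hsum⟩ := int_count hp h
  rw [h5] at hsum
  have h6 : ∑ F : Finset α, n F * F.card = N := by exact_mod_cast hsum.symm
  apply hN
  rw [← h6]
  refine Finset.dvd_sum fun F _ => ?_
  by_cases hF : n F = 0
  · simp [hF]
  · rw [hS F (hn F hF).1 (hn F hF).2]
    exact Dvd.intro_left _ rfl

variable {β : Type} [Fintype β] [DecidableEq β]

/-- Extension by zero along an injection. -/
def push (ι : β ↪ α) (p : β → ℚ) : α → ℚ := fun a => ∑ b, if ι b = a then p b else 0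

lemma push_apply (ι : β ↪ α) (p : β → ℚ) (b : β) : push ι p (ι b) = p b := by
  unfold push
  simp [ι.injective.eq_iff]

lemma push_off (ι : β ↪ α) (p : β → ℚ) {a : α} (h : ∀ b, ι b ≠ a) : push ι p a = 0 := by
  unfold push
  simp [h]

lemma push_chi (ι : β ↪ α) (F : Finset β) : push ι (chi F) = chi (F.map ι) := by
  ext a
  by_cases h : ∃ b, ι b = a
  · obtain ⟨b, rfl⟩ := h
    rw [push_apply]
    simp [chi]
  · push Not at h
    rw [push_off ι _ h]
    simp only [chi, Finset.mem_map]
    rw [if_neg]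
    rintro ⟨b, _, hb⟩
    exact h b hb

lemma push_sum (ι : β ↪ α) (c : Finset β → ℚ) :
    push ι (∑ F, c F • chi F) = ∑ F, c F • chi (F.map ι) := by
  ext a
  by_cases h : ∃ b, ι b = a
  · obtain ⟨b, rfl⟩ := h
    rw [push_apply]
    simp [chi, Finset.sum_apply]
  · push Not at h
    rw [push_off ι _ h]
    simp only [chi, Finset.sum_apply, Pi.smul_apply, Finset.mem_map]
    symm
    refine Finset.sum_eq_zero fun F _ => ?_
    rw [if_neg]
    · simp
    · rintro ⟨b, _, hb⟩
      exact h b hb

lemma hilbert_sub (ι : β ↪ α) (h : IsHilbert S) :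
    IsHilbert {F : Finset β | F.map ι ∈ S} := by
  refine Set.Subset.antisymm intCone_subset ?_
  rintro p ⟨hc, hl⟩
  have hc' : push ι p ∈ Cone S := by
    obtain ⟨c, hc, hc0, rfl⟩ := hc
    rw [push_sum]
    refine Cone.sum _ _ fun F _ => ?_
    by_cases hF : F.map ι ∈ S
    · exact Cone.smul (hc F) (Cone.chi hF)
    · rw [hc0 F hF, zero_smul]
      exact Cone.zero
  have hl' : push ι p ∈ Lat S := by
    obtain ⟨c, hcn, hc0, rfl⟩ := hl
    choose n hn using hcn
    rw [push_sum]
    refine Lat.sum _ _ fun F _ => ?_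
    by_cases hF : F.map ι ∈ S
    · rw [← hn F]
      exact Lat.smul (n F) (Lat.chi hF)
    · rw [hc0 F hF, zero_smul]
      exact Lat.zero
  have hp : push ι p ∈ IntCone S := by
    rw [h]
    exact ⟨hc', hl'⟩
  obtain ⟨c, hcn, hc0, hsum⟩ := hp
  choose n hn using hcn
  have h1 : p = ∑ G : Finset α, (n G : ℚ) • chi (G.preimage ι ι.injective.injOn) := by
    ext b
    have h2 := congrFun hsum (ι b)
    rw [push_apply] at h2
    rw [h2]
    simp only [Finset.sum_apply, Pi.smul_apply, chi, Finset.mem_preimage, hn]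
  rw [h1]
  refine IntCone.sum _ _ fun G _ => ?_
  by_cases hG : n G = 0
  · rw [hG]
    simpa using IntCone.zero
  · have hcG : c G ≠ 0 := by
      rw [← hn G]
      exact_mod_cast hG
    have hGS : G ∈ S := by
      by_contra hS
      exact hcG (hc0 G hS)
    have hsub : G ⊆ (Finset.univ : Finset β).map ι := by
      refine supp_coeff (c := c) (fun G => ?_) ?_ hcG
      · rw [← hn G]; positivity
      · intro e he
        rw [← hsum]
        refine push_off ι p fun b hb => he ?_
        rw [← hb]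
        simp
    have hmap : (G.preimage ι ι.injective.injOn).map ι = G := by
      ext a
      simp only [Finset.mem_map, Finset.mem_preimage]
      constructor
      · rintro ⟨b, hb, rfl⟩
        exact hb
      · intro ha
        have := hsub ha
        simp only [Finset.mem_map, Finset.mem_univ, true_and] at this
        obtain ⟨b, rfl⟩ := this
        exact ⟨b, ha, rfl⟩
    refine IntCone.smul (n G) (IntCone.chi ?_)
    show (G.preimage ι ι.injective.injOn).map ι ∈ S
    rw [hmap]
    exact hGS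

end Pool.Agent.L5helper89.HB
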