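import Pool.Agent.L5helper89.HB.Mat
import Pool.Agent.L5helper89.HB.Sub

/-!
# Matroids that are not covered by few hyperplanes
-/

set_option autoImplicit false
set_option linter.unusedSectionVars false
set_option linter.unusedVariables false

namespace Pool.Agent.L5helper89.HB

open Finset

variable {α : Type} [Fintype α] [DecidableEq α] {M : Matroid α} {r : ℕ}

/-- Every subset of `A` with at most `r` elements is independent. -/
def Gen (M : Matroid α) (r : ℕ) (A : Finset α) : Prop :=
  ∀ S ⊆ A, S.card ≤ r → M.Indep (S : Set α)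

/-- The ground set is not covered by `r * (r + 1) / 2` sets of smaller rank. -/
def Small (M : Matroid α) (r : ℕ) : Prop :=
  ∀ H : Finset (Set α), H.card ≤ (r + 1).choose 2 → (∀ X ∈ H, M.eRk X < M.eRank) →
    ∃ w, ∀ X ∈ H, w ∉ X

lemma choose_le (k : ℕ) (hk : k ≤ r + 1) (hr2 : 2 ≤ r) :
    k.choose (min k (r - 1)) ≤ (r + 1).choose 2 := by
  have hpos : 1 ≤ (r + 1).choose 2 := Nat.choose_pos (by omega)
  rcases Nat.lt_or_ge k r with h | h
  · rw [Nat.min_eq_left (by omega), Nat.choose_self]
    exact hpos
  · rw [Nat.min_eq_right (by omega)]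
    rcases Nat.lt_or_ge k (r + 1) with h2 | h2
    · have hk' : k = r := by omega
      subst hk'
      obtain ⟨s, rfl⟩ : ∃ s, k = s + 1 := ⟨k - 1, by omega⟩
      have e1 : (s + 1).choose (s + 1 - 1) = s + 1 := by
        rw [Nat.add_sub_cancel, Nat.choose_succ_self_right]
      rw [e1]
      have e2 : (s + 1 + 1).choose 2 = (s + 1).choose 1 + (s + 1).choose 2 :=
        Nat.choose_succ_succ' (s + 1) 1
      rw [e2, Nat.choose_one_right]
      omega
    · have hk' : k = r + 1 := by omega
      subst hk'
      rw [← Nat.choose_symm (show 2 ≤ r + 1 by omega)]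
      have : r + 1 - 2 = r - 1 := by omega
      rw [this]

lemma gen_extend (hE : M.E = Set.univ) (hr2 : 2 ≤ r) (hr : M.eRank = r) (hH : Small M r)
    {A : Finset α} (hA : Gen M r A) (hc : A.card ≤ r + 1) (hne : A.Nonempty) :
    ∃ w, w ∉ A ∧ Gen M r (insert w A) := by
  classical
  set m := min A.card (r - 1) with hm
  have hm1 : 1 ≤ m := by
    have := hne.card_pos
    omega
  have hmA : m ≤ A.card := by omega
  have hmr : m ≤ r - 1 := by omega
  set F : Finset (Finset α) := A.powersetCard m with hF
  have small : ∀ S ∈ F, M.eRk (M.closure (S : Set α)) < M.eRank := by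
    intro S hS
    rw [M.eRk_closure_eq, hr]
    refine lt_of_le_of_lt (M.eRk_le_encard _) ?_
    rw [Set.encard_coe_eq_coe_finsetCard, (Finset.mem_powersetCard.mp hS).2]
    exact_mod_cast (show m < r by omega)
  have hFc : F.card ≤ (r + 1).choose 2 := by
    rw [hF, Finset.card_powersetCard]
    exact choose_le A.card hc hr2
  have ex : ∃ w, ∀ S ∈ F, w ∉ M.closure (S : Set α) := by
    obtain ⟨w, hw⟩ := hH (F.image fun S : Finset α => M.closure (S : Set α))
      (Finset.card_image_le.trans hFc) (by
      intro X hX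
      obtain ⟨S, hS, rfl⟩ := Finset.mem_image.mp hX
      exact small S hS)
    exact ⟨w, fun S hS => hw _ (Finset.mem_image_of_mem _ hS)⟩
  obtain ⟨w, hw⟩ := ex
  refine ⟨w, ?_, ?_⟩
  · intro hwA
    obtain ⟨S, hS1, hS2, hS3⟩ := Finset.exists_subsuperset_card_eq
      (Finset.singleton_subset_iff.mpr hwA) (by simpa using hm1) hmA
    refine hw S (Finset.mem_powersetCard.mpr ⟨hS2, hS3⟩) ?_
    exact M.mem_closure_of_mem' (Finset.mem_coe.mpr (Finset.singleton_subset_iff.mp hS1))
      (by rw [hE]; trivial)
  · intro S' hS' hc'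
    by_cases hwS : w ∈ S'
    · have h1 : S'.erase w ⊆ A := by
        intro x hx
        have h2 := Finset.mem_erase.mp hx
        rcases Finset.mem_insert.mp (hS' h2.2) with h3 | h3
        · exact absurd h3 h2.1
        · exact h3
      have h2 : (S'.erase w).card ≤ m := by
        have h3 := Finset.card_le_card h1
        have h4 := Finset.card_erase_add_one hwS
        omega
      obtain ⟨S, hS1, hS2, hS3⟩ := Finset.exists_subsuperset_card_eq h1 h2 hmA
      have hSI : M.Indep (S : Set α) := hA S hS2 (by omega)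
      have hwS2 := hw S (Finset.mem_powersetCard.mpr ⟨hS2, hS3⟩)
      have h5 : M.Indep (insert w (S : Set α)) := by
        by_contra hcon
        apply hwS2
        rw [hSI.mem_closure_iff']
        exact ⟨by rw [hE]; trivial, fun h6 => absurd h6 hcon⟩
      refine h5.subset ?_
      intro x hx
      by_cases hxw : x = w
      · exact Or.inl hxw
      · exact Or.inr (Finset.mem_coe.mpr (hS1 (Finset.mem_erase.mpr ⟨hxw, hx⟩)))
    · refine hA S' ?_ hc'
      intro x hx
      rcases Finset.mem_insert.mp (hS' hx) with h3 | h3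
      · exact absurd (h3 ▸ hx) hwS
      · exact h3

lemma gen_big (hE : M.E = Set.univ) (hr2 : 2 ≤ r) (hr : M.eRank = r) (hH : Small M r) (k : ℕ) :
    ∀ {A : Finset α}, Gen M r A → A.Nonempty → A.card + k = r + 2 →
    ∃ B, A ⊆ B ∧ Gen M r B ∧ B.card = r + 2 := by
  induction k with
  | zero =>
    intro A hA hne hc
    exact ⟨A, Finset.Subset.refl _, hA, by omega⟩
  | succ k ih =>
    intro A hA hne hc
    obtain ⟨w, hw, hG⟩ := gen_extend hE hr2 hr hH hA (by omega) hne
    obtain ⟨B, hB1, hB2, hB3⟩ := ih hG (Finset.insert_nonempty _ _)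
      (by rw [Finset.card_insert_of_notMem hw]; omega)
    exact ⟨B, (Finset.subset_insert _ _).trans hB1, hB2, hB3⟩

lemma circ_card_le (hr : M.eRank = r) {F : Finset α} (h : F ∈ circ M) : F.card ≤ r + 1 := by
  have h' : M.IsCircuit (F : Set α) := h
  obtain ⟨e, he⟩ := h'.nonempty
  have h1 := (h'.sdiff_singleton_indep he).encard_le_eRank
  rw [hr] at h1
  have h2 : ((F : Set α) \ {e}) = ((F.erase e : Finset α) : Set α) := by simp
  rw [h2, Set.encard_coe_eq_coe_finsetCard] at h1
  have h3 : (F.erase e).card ≤ r := by exact_mod_cast h1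
  have h4 := Finset.card_erase_add_one (Finset.mem_coe.mp he)
  omega

lemma gen_circ (hE : M.E = Set.univ) (hr : M.eRank = r) {A : Finset α} (hA : Gen M r A)
    (hc : A.card = r + 1) : A ∈ circ M := by
  show M.IsCircuit _
  rw [Matroid.isCircuit_iff_dep_forall_sdiff_singleton_indep]
  refine ⟨⟨?_, by rw [hE]; exact Set.subset_univ _⟩, ?_⟩
  · intro h
    have h5 := h.encard_le_eRank
    rw [Set.encard_coe_eq_coe_finsetCard, hc, hr] at h5
    have h6 : r + 1 ≤ r := by exact_mod_cast h5
    omega
  · intro e he
    have h2 : ((A : Set α) \ {e}) = ((A.erase e : Finset α) : Set α) := by simp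
    rw [h2]
    refine hA _ (Finset.erase_subset _ _) ?_
    rw [Finset.card_erase_of_mem (Finset.mem_coe.mp he), hc]
    omega

lemma chi_eq_sum (F : Finset α) : chi F = ∑ a ∈ F, del a := by
  ext x
  simp [chi, del, Finset.sum_apply]

lemma chi_erase {F : Finset α} {a : α} (ha : a ∈ F) : chi (F.erase a) = chi F - del a := by
  ext x
  by_cases hx : x = a
  · subst hx
    simp [chi, del, ha]
  · simp [chi, del, hx]

lemma Lat.sub {S : Set (Finset α)} {p q : α → ℚ} (hp : p ∈ Lat S) (hq : q ∈ Lat S) :
    p - q ∈ Lat S := by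
  have := Lat.add hp (Lat.smul (-1) hq)
  convert this using 1
  push_cast
  module

/-- All `(k + 1)`-element sets. -/
lemma suff_uniform' {S : Set (Finset α)} {k : ℕ} (hk : 0 < k)
    (h : ∀ F : Finset α, F ∈ S ↔ F.card = k) : IsHilbert S := by
  refine Set.Subset.antisymm intCone_subset ?_
  rintro p ⟨hc, hl⟩
  obtain ⟨x, rfl⟩ := exists_nat hc hl
  have h1 : (k : ℤ) ∣ ∑ e, (1 : ℤ) * ((x e : ℕ) : ℤ) := by
    refine lat_dvd (S := S) (fun _ => 1) k ?_ (by simpa using hl)
    intro F hF
    simp [(h F).mp hF]
  have h2 : k ∣ ∑ e, x e := by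
    have : ((k : ℕ) : ℤ) ∣ ((∑ e, x e : ℕ) : ℤ) := by
      push_cast
      simpa using h1
    exact_mod_cast this
  obtain ⟨q, hq⟩ := h2
  have h3 : ∀ a, x a ≤ q := by
    intro a
    have h4 := cone_ineq (S := S) (fun e => 1 - if e = a then (k : ℚ) else 0) (by
      intro F hF
      rw [Finset.sum_sub_distrib]
      simp only [Finset.sum_const, (h F).mp hF, Finset.sum_ite_eq']
      by_cases ha : a ∈ F <;> simp [ha]) hc
    have h5 : ∑ e, ((1 : ℚ) - if e = a then (k : ℚ) else 0) * (x e : ℚ) =
        ∑ e, (x e : ℚ) - k * x a := by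
      simp only [sub_mul, one_mul, Finset.sum_sub_distrib, ite_mul, zero_mul, Finset.sum_ite_eq',
        Finset.mem_univ, if_true]
    rw [h5] at h4
    have h6 : ((k * x a : ℕ) : ℚ) ≤ ((∑ e, x e : ℕ) : ℚ) := by
      push_cast
      linarith
    have h7 : k * x a ≤ ∑ e, x e := by exact_mod_cast h6
    rw [hq] at h7
    exact Nat.le_of_mul_le_mul_left h7 hk
  obtain ⟨Q, hQ, hQs⟩ := decomp_zero k Finset.univ q x h3 (by simp) hq
  rw [hQs]
  refine IntCone.sum _ _ fun i hi => IntCone.chi ?_
  rw [h]
  exact (hQ i (Finset.mem_range.mp hi)).2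

/-- The classification for matroids with small hyperplanes. -/
theorem small_hyperplanes (hE : M.E = Set.univ) (hr2 : 2 ≤ r) (hr : M.eRank = r)
    (hl : ∀ a, M.Indep {a}) (hH : Small M r) :
    IsHilbert (circ M) ↔ ∀ S : Finset α, S.card ≤ r → M.Indep (S : Set α) := by
  classical
  constructor
  · intro hHil
    by_contra hcon
    push Not at hcon
    obtain ⟨D, hD1, hD2⟩ := hcon
    -- a small circuit
    obtain ⟨C, hCD, hC⟩ := Matroid.Dep.exists_isCircuit_subset
      (M := M) (X := (D : Set α)) ⟨hD2, by rw [hE]; exact Set.subset_univ _⟩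
    obtain ⟨C', rfl⟩ : ∃ C' : Finset α, (C' : Set α) = C :=
      ⟨(Set.toFinite C).toFinset, Set.Finite.coe_toFinset _⟩
    have hC'c : C' ∈ circ M := hC
    have hC'r : C'.card ≤ r := (Finset.card_le_card (Finset.coe_subset.mp hCD)).trans hD1
    have hC'0 : 0 < C'.card := by
      have := hC.nonempty
      rw [Finset.coe_nonempty] at this
      exact this.card_pos
    -- differences
    have diff1 : ∀ x z, x ≠ z → M.Indep {x, z} → del x - del z ∈ Lat (circ M) := by
      intro x z hxz hI
      have hG : Gen M r ({x, z} : Finset α) := by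
        intro S hS _
        refine hI.subset ?_
        have := Finset.coe_subset.mpr hS
        simpa using this
      obtain ⟨B, hB1, hB2, hB3⟩ := gen_big hE hr2 hr hH r hG (by simp)
        (by rw [Finset.card_pair hxz]; omega)
      have hx : x ∈ B := hB1 (by simp)
      have hz : z ∈ B := hB1 (by simp)
      have c1 : ∀ a ∈ B, B.erase a ∈ circ M := by
        intro a ha
        refine gen_circ hE hr (fun S hS hS2 => hB2 S (hS.trans (Finset.erase_subset _ _)) hS2) ?_
        rw [Finset.card_erase_of_mem ha, hB3]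
        omega
      have := Lat.sub (Lat.chi (c1 z hz)) (Lat.chi (c1 x hx))
      rw [chi_erase hx, chi_erase hz] at this
      convert this using 1
      abel
    have nonpar : ∀ x z, ∃ w, w ≠ x ∧ w ≠ z ∧ M.Indep {x, w} ∧ M.Indep {z, w} := by
      intro x z
      have small : ∀ a, M.eRk (M.closure {a}) < M.eRank := by
        intro a
        rw [M.eRk_closure_eq, hr]
        refine lt_of_le_of_lt (M.eRk_le_encard _) ?_
        rw [Set.encard_singleton]
        exact_mod_cast (show 1 < r by omega)
      have hch : 3 ≤ (r + 1).choose 2 := by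
        calc 3 = (2 + 1).choose 2 := by decide
          _ ≤ (r + 1).choose 2 := Nat.choose_le_choose 2 (by omega)
      obtain ⟨w, hw'⟩ := hH {M.closure {x}, M.closure {z}}
        (Finset.card_le_two.trans (by omega)) (by
        intro X hX
        simp only [Finset.mem_insert, Finset.mem_singleton] at hX
        rcases hX with rfl | rfl
        · exact small x
        · exact small z)
      have hw : w ∉ M.closure {x} ∧ w ∉ M.closure {z} :=
        ⟨hw' _ (by simp), hw' _ (by simp)⟩
      have key : ∀ a, w ∉ M.closure {a} → w ≠ a ∧ M.Indep {a, w} := by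
        intro a ha'
        refine ⟨?_, ?_⟩
        · rintro rfl
          exact ha' (M.mem_closure_of_mem' (by simp) (by rw [hE]; trivial))
        · by_contra hcon
          apply ha'
          rw [(hl a).mem_closure_iff']
          refine ⟨by rw [hE]; trivial, fun h6 => ?_⟩
          exact absurd (by rw [Set.pair_comm]; exact h6) hcon
      exact ⟨w, (key x hw.1).1, (key z hw.2).1, (key x hw.1).2, (key z hw.2).2⟩
    have diff : ∀ x z, del x - del z ∈ Lat (circ M) := by
      intro x z
      obtain ⟨w, h1, h2, h3, h4⟩ := nonpar x z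
      have := Lat.sub (diff1 x w h1.symm h3) (diff1 z w h2.symm h4)
      convert this using 1
      abel
    -- a base point
    have hCne : C'.Nonempty := Finset.card_pos.mp hC'0
    obtain ⟨x, hx⟩ := hCne
    have mult : ∀ F ∈ circ M, ((F.card : ℤ) : ℚ) • del x ∈ Lat (circ M) := by
      intro F hF
      have h1 : ∑ a ∈ F, (del a - del x) ∈ Lat (circ M) := Lat.sum _ _ fun a _ => diff a x
      have h2 := Lat.sub (Lat.chi hF) h1
      convert h2 using 1
      rw [Finset.sum_sub_distrib, ← chi_eq_sum, Finset.sum_const, sub_sub_cancel]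
      ext e
      simp
    have hG0 : Gen M r ({x} : Finset α) := by
      intro S hS _
      refine (hl x).subset ?_
      have := Finset.coe_subset.mpr hS
      simpa using this
    obtain ⟨B, hB1, hB2, hB3⟩ := gen_big hE hr2 hr hH (r + 1) hG0 (by simp) (by simp; omega)
    have c1 : ∀ a ∈ B, B.erase a ∈ circ M := by
      intro a ha
      refine gen_circ hE hr (fun S hS hS2 => hB2 S (hS.trans (Finset.erase_subset _ _)) hS2) ?_
      rw [Finset.card_erase_of_mem ha, hB3]
      omega
    have hxB : x ∈ B := hB1 (by simp)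
    have m1 : (((r + 1 : ℕ) : ℤ) : ℚ) • del x ∈ Lat (circ M) := by
      have := mult _ (c1 x hxB)
      rw [Finset.card_erase_of_mem hxB, hB3] at this
      exact this
    have m2 := mult C' hC'c
    set g := Nat.gcd C'.card (r + 1) with hg
    have hgpos : 0 < g := Nat.gcd_pos_of_pos_left _ hC'0
    have hgle : g ≤ C'.card := Nat.gcd_le_left _ hC'0
    have m3 : ((g : ℤ) : ℚ) • del x ∈ Lat (circ M) := by
      have hb := Nat.gcd_eq_gcd_ab C'.card (r + 1)
      have := Lat.add (Lat.smul (Nat.gcdA C'.card (r + 1)) m2)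
        (Lat.smul (Nat.gcdB C'.card (r + 1)) m1)
      convert this using 1
      rw [smul_smul, smul_smul, ← add_smul]
      congr 1
      rw [hg, hb]
      push_cast
      ring
    have hchiB : (g : ℚ) • chi B ∈ Lat (circ M) := by
      have h1 : ∑ a ∈ B, (del a - del x) ∈ Lat (circ M) := Lat.sum _ _ fun a _ => diff a x
      have h2 := Lat.add (Lat.smul (g : ℤ) h1) (Lat.smul ((r + 2 : ℕ) : ℤ) m3)
      convert h2 using 1
      rw [Finset.sum_sub_distrib, ← chi_eq_sum, Finset.sum_const, hB3]
      push_cast
      module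
    have hcone : (g : ℚ) • chi B ∈ Cone (circ M) := by
      refine Cone.smul (by positivity) ?_
      have h1 : ∑ a ∈ B, chi (B.erase a) ∈ Cone (circ M) :=
        Cone.sum _ _ fun a ha => Cone.chi (c1 a ha)
      have h2 := Cone.smul (r := 1 / ((r : ℚ) + 1)) (by positivity) h1
      convert h2 using 1
      have h3 : ∑ a ∈ B, chi (B.erase a) = ((r : ℚ) + 1) • chi B := by
        rw [Finset.sum_congr rfl fun a ha => chi_erase ha, Finset.sum_sub_distrib, ← chi_eq_sum,
          Finset.sum_const, hB3]
        module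
      rw [h3, smul_smul]
      have : (1 / ((r : ℚ) + 1)) * ((r : ℚ) + 1) = 1 := by
        field_simp
      rw [this, one_smul]
    refine obstruct_dvd (A := B) (t := r + 1) (N := g * (r + 2)) ?_ hcone hchiB ?_ ?_ ?_ hHil
    · intro F hF hFB
      have h1 := circ_card_le hr hF
      have h2 : ¬ F.card ≤ r := by
        intro h3
        exact (Matroid.IsCircuit.dep hF).not_indep (hB2 F hFB h3)
      omega
    · intro e he
      simp [chi, he]
    · have : ∑ e, chi B e = ((r + 2 : ℕ) : ℚ) := by
        rw [sum_chi, Finset.univ_inter, hB3]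
      simp only [Pi.smul_apply, smul_eq_mul, ← Finset.mul_sum, this]
      push_cast
      ring
    · intro hdvd
      have hcop : Nat.Coprime (r + 1) (r + 2) := by
        have : r + 2 = (r + 1) + 1 := rfl
        rw [this]
        exact (Nat.coprime_self_add_right).mpr (Nat.coprime_one_right _)
      have h1 : r + 1 ∣ g := hcop.dvd_of_dvd_mul_right hdvd
      have h2 := Nat.le_of_dvd hgpos h1
      omega
  · intro hU
    refine suff_uniform' (k := r + 1) (by omega) ?_
    intro F
    constructor
    · intro hF
      have h1 := circ_card_le hr hF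
      have h2 : ¬ F.card ≤ r := fun h3 => (Matroid.IsCircuit.dep hF).not_indep (hU F h3)
      omega
    · intro hF
      exact gen_circ hE hr (fun S _ hS => hU S hS) hF

end Pool.Agent.L5helper89.HB
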