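import Pool.Agent.L5helper89.HB.Hyp

/-!
# Matroids that are not covered by few hyperplanes: a linear bound
-/

set_option autoImplicit false
set_option linter.unusedSectionVars false
set_option linter.unusedVariables false

namespace Pool.Agent.L5helper89.HB

open Finset

variable {α : Type} [Fintype α] [DecidableEq α] {M : Matroid α} {r : ℕ}

/-- The ground set is not covered by `N` sets of smaller rank. -/
def Cov (M : Matroid α) (N : ℕ) : Prop :=
  ∀ H : Finset (Set α), H.card ≤ N → (∀ X ∈ H, M.eRk X < M.eRank) → ∃ w, ∀ X ∈ H, w ∉ X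

lemma gen_insert (hE : M.E = Set.univ) (hr2 : 2 ≤ r) {A : Finset α} (hA : Gen M r A)
    (hne : A.Nonempty) {w : α}
    (hw : ∀ S ∈ A.powersetCard (min A.card (r - 1)), w ∉ M.closure (S : Set α)) :
    w ∉ A ∧ Gen M r (insert w A) := by
  classical
  set m := min A.card (r - 1) with hm
  have hm1 : 1 ≤ m := by
    have := hne.card_pos
    omega
  have hmA : m ≤ A.card := by omega
  have hmr : m ≤ r - 1 := by omega
  refine ⟨?_, ?_⟩
  · intro hwA
    obtain ⟨S, hS1, hS2, hS3⟩ := Finset.exists_subsuperset_card_eq
      (Finset.singleton_subset_iff.mpr hwA) (by simpa using hm1) hmA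
    refine hw S (Finset.mem_powersetCard.mpr ⟨hS2, hS3⟩) ?_
    exact M.mem_closure_of_mem' (Finset.mem_coe.mpr (Finset.singleton_subset_iff.mp hS1))
      (by rw [hE]; trivial)
  · intro S' hS' hc'
    by_cases hwS : w ∈ S'
    · have h1 : S'.erase w ⊆ A := by
        intro x hx
        have h2 := Finset.mem_erase.mp hx
        rcases Finset.mem_insert.mp (hS' h2.2) with h3 | h3
        · exact absurd h3 h2.1
        · exact h3
      have h2 : (S'.erase w).card ≤ m := by
        have h3 := Finset.card_le_card h1
        have h4 := Finset.card_erase_add_one hwS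
        omega
      obtain ⟨S, hS1, hS2, hS3⟩ := Finset.exists_subsuperset_card_eq h1 h2 hmA
      have hSI : M.Indep (S : Set α) := hA S hS2 (by omega)
      have hwS2 := hw S (Finset.mem_powersetCard.mpr ⟨hS2, hS3⟩)
      have h5 : M.Indep (insert w (S : Set α)) := by
        by_contra hcon
        apply hwS2
        rw [hSI.mem_closure_iff']
        exact ⟨by rw [hE]; trivial, fun h6 => absurd h6 hcon⟩
      refine h5.subset ?_
      intro x hx
      by_cases hxw : x = w
      · exact Or.inl hxw
      · exact Or.inr (Finset.mem_coe.mpr (hS1 (Finset.mem_erase.mpr ⟨hxw, hx⟩)))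
    · refine hA S' ?_ hc'
      intro x hx
      rcases Finset.mem_insert.mp (hS' hx) with h3 | h3
      · exact absurd (h3 ▸ hx) hwS
      · exact h3

lemma rk_closure_lt (hr : M.eRank = r) {S : Finset α} (hS : S.card < r) :
    M.eRk (M.closure (S : Set α)) < M.eRank := by
  rw [M.eRk_closure_eq, hr]
  refine lt_of_le_of_lt (M.eRk_le_encard _) ?_
  rw [Set.encard_coe_eq_coe_finsetCard]
  exact_mod_cast hS

lemma gen_pair (hE : M.E = Set.univ) (hr2 : 2 ≤ r) (hr : M.eRank = r) {N : ℕ}
    (hN : 2 * r - 1 ≤ N) (hH : Cov M N) {x z : α} (hx : Gen M r {x}) (hz : Gen M r {z}) (k : ℕ)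
    (hk : k ≤ r) : ∃ T : Finset α, x ∉ T ∧ z ∉ T ∧ T.card = k ∧ Gen M r (insert x T) ∧
      Gen M r (insert z T) := by
  classical
  induction k with
  | zero => exact ⟨∅, by simp, by simp, by simp, by simpa using hx, by simpa using hz⟩
  | succ k ih =>
    obtain ⟨T, hxT, hzT, hTc, hG1, hG2⟩ := ih (by omega)
    have c1 : (insert x T).card = k + 1 := by rw [Finset.card_insert_of_notMem hxT, hTc]
    have c2 : (insert z T).card = k + 1 := by rw [Finset.card_insert_of_notMem hzT, hTc]
    set m := min (k + 1) (r - 1) with hm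
    set F := (insert x T).powersetCard m ∪ (insert z T).powersetCard m with hF
    have hFc : F.card ≤ 2 * r - 1 := by
      have h1 : F.card + ((insert x T).powersetCard m ∩ (insert z T).powersetCard m).card =
          ((insert x T).powersetCard m).card + ((insert z T).powersetCard m).card :=
        Finset.card_union_add_card_inter _ _
      rw [Finset.card_powersetCard, Finset.card_powersetCard, c1, c2] at h1
      rcases Nat.lt_or_ge (k + 1) r with h2 | h2
      · have h3 : m = k + 1 := by omega
        rw [h3, Nat.choose_self] at h1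
        omega
      · have h3 : k + 1 = r := by omega
        have h4 : m = r - 1 := by omega
        have h5 : r.choose (r - 1) = r := by
          obtain ⟨s, rfl⟩ : ∃ s, r = s + 1 := ⟨r - 1, by omega⟩
          rw [Nat.add_sub_cancel, Nat.choose_succ_self_right]
        rw [h3, h4, h5] at h1
        have h6 : T ∈ (insert x T).powersetCard (r - 1) ∩ (insert z T).powersetCard (r - 1) := by
          rw [Finset.mem_inter, Finset.mem_powersetCard, Finset.mem_powersetCard]
          exact ⟨⟨Finset.subset_insert _ _, by omega⟩, ⟨Finset.subset_insert _ _, by omega⟩⟩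
        have h7 := Finset.card_pos.mpr ⟨T, h6⟩
        omega
    obtain ⟨w, hw⟩ := hH (F.image fun S : Finset α => M.closure (S : Set α))
      (Finset.card_image_le.trans (hFc.trans hN)) (by
      intro X hX
      obtain ⟨S, hS, rfl⟩ := Finset.mem_image.mp hX
      refine rk_closure_lt hr ?_
      rcases Finset.mem_union.mp hS with h1 | h1
      · rw [(Finset.mem_powersetCard.mp h1).2]; omega
      · rw [(Finset.mem_powersetCard.mp h1).2]; omega)
    have w1 := gen_insert hE hr2 hG1 (Finset.insert_nonempty _ _) (w := w) (by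
      intro S hS
      rw [c1] at hS
      exact hw _ (Finset.mem_image_of_mem _ (Finset.mem_union_left _ hS)))
    have w2 := gen_insert hE hr2 hG2 (Finset.insert_nonempty _ _) (w := w) (by
      intro S hS
      rw [c2] at hS
      exact hw _ (Finset.mem_image_of_mem _ (Finset.mem_union_right _ hS)))
    have hwT : w ∉ T := fun e => w1.1 (Finset.mem_insert_of_mem e)
    have hwx : w ≠ x := fun e => w1.1 (by rw [e]; simp)
    have hwz : w ≠ z := fun e => w2.1 (by rw [e]; simp)
    refine ⟨insert w T, ?_, ?_, ?_, ?_, ?_⟩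
    · simp only [Finset.mem_insert, not_or]; exact ⟨hwx.symm, hxT⟩
    · simp only [Finset.mem_insert, not_or]; exact ⟨hwz.symm, hzT⟩
    · rw [Finset.card_insert_of_notMem hwT, hTc]
    · rw [Finset.insert_comm]; exact w1.2
    · rw [Finset.insert_comm]; exact w2.2

/-- Coordinates of a nonnegative integer combination supported in `A`. -/
lemma int_coord {S : Set (Finset α)} {p : α → ℚ} (hp : p ∈ IntCone S) {A : Finset α}
    (h : ∀ e, e ∉ A → p e = 0) :
    ∃ n : Finset α → ℕ, (∀ F, n F ≠ 0 → F ∈ S ∧ F ⊆ A) ∧
      ∀ e, p e = ((∑ F : Finset α, if e ∈ F then n F else 0 : ℕ) : ℚ) := by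
  obtain ⟨c, hcn, hc0, rfl⟩ := hp
  choose n hn using hcn
  refine ⟨n, ?_, ?_⟩
  · intro F hF
    have hcF : c F ≠ 0 := by
      rw [← hn F]
      exact_mod_cast hF
    refine ⟨?_, ?_⟩
    · by_contra hS
      exact hcF (hc0 F hS)
    · refine supp_coeff (fun G => ?_) h hcF
      rw [← hn G]
      positivity
  · intro e
    simp only [Finset.sum_apply, Pi.smul_apply, smul_eq_mul, chi]
    push_cast
    refine Finset.sum_congr rfl fun F _ => ?_
    rw [← hn F]
    split_ifs <;> simp

lemma circ_eq' {F G : Finset α} (hF : F ∈ circ M) (hG : G ∈ circ M) (h : G ⊆ F) : G = F :=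
  Finset.coe_injective (Matroid.IsCircuit.eq_of_subset_isCircuit (C := (G : Set α))
    (C' := (F : Set α)) hG hF (Finset.coe_subset.mpr h))

/-- The obstruction from a spanning circuit and one more element. -/
lemma obstruct_circuit (hE : M.E = Set.univ) (hr2 : 2 ≤ r) (hr : M.eRank = r)
    (hHil : IsHilbert (circ M)) {C : Finset α} (hC : C ∈ circ M) (hCc : C.card = r + 1) {g : ℕ}
    (hg : 0 < g) {K : Finset α} (hK : K ⊆ C) (hKc : g + 1 ≤ K.card) {z : α} (hzC : z ∉ C)
    (hz : ∀ a ∈ K, ∀ b ∈ K, a ≠ b → z ∉ M.closure (((C.erase a).erase b : Finset α) : Set α))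
    (hlat : (g : ℚ) • chi (insert z C) ∈ Lat (circ M)) : False := by
  classical
  have hzE : z ∈ M.E := by rw [hE]; trivial
  have hCcirc : M.IsCircuit (C : Set α) := hC
  have ind : ∀ e ∈ C, M.Indep ((C.erase e : Finset α) : Set α) := by
    intro e he
    have := hCcirc.sdiff_singleton_indep (Finset.mem_coe.mpr he)
    have h2 : ((C : Set α) \ {e}) = ((C.erase e : Finset α) : Set α) := by simp
    rwa [h2] at this
  -- circuits avoiding `z`
  have u1 : ∀ F ∈ circ M, F ⊆ insert z C → z ∉ F → F = C := by
    intro F hF hFA hzF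
    refine circ_eq' hC hF ?_
    intro x hx
    rcases Finset.mem_insert.mp (hFA hx) with h | h
    · exact absurd (h ▸ hx) hzF
    · exact h
  -- uniqueness
  have u2 : ∀ e ∈ C, ∀ F ∈ circ M, ∀ F' ∈ circ M, F ⊆ insert z C → F' ⊆ insert z C → e ∉ F →
      e ∉ F' → F = F' := by
    intro e he F hF F' hF' hFA hFA' heF heF'
    have sub : ∀ G : Finset α, G ⊆ insert z C → e ∉ G →
        (G : Set α) ⊆ insert z ((C.erase e : Finset α) : Set α) := by
      intro G hG heG x hx
      rcases Finset.mem_insert.mp (hG hx) with h | h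
      · exact Or.inl h
      · exact Or.inr (Finset.mem_coe.mpr (Finset.mem_erase.mpr ⟨fun h2 => heG (h2 ▸ hx), h⟩))
    have e1 := Matroid.IsCircuit.eq_fundCircuit_of_subset (C := (F : Set α)) hF (ind e he)
      (sub F hFA heF)
    have e2 := Matroid.IsCircuit.eq_fundCircuit_of_subset (C := (F' : Set α)) hF' (ind e he)
      (sub F' hFA' heF')
    exact Finset.coe_injective (e1.trans e2.symm)
  -- existence
  have ex : ∀ e ∈ C, ∃ D ∈ circ M, D ⊆ insert z C ∧ e ∉ D ∧ z ∈ D := by
    intro e he
    have hze : z ∉ C.erase e := fun h => hzC (Finset.mem_of_mem_erase h)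
    have hdep : ¬ M.Indep ((insert z (C.erase e) : Finset α) : Set α) := by
      intro h
      have h5 := h.encard_le_eRank
      rw [Set.encard_coe_eq_coe_finsetCard, hr, Finset.card_insert_of_notMem hze,
        Finset.card_erase_of_mem he, hCc] at h5
      have h6 : r + 1 - 1 + 1 ≤ r := by exact_mod_cast h5
      omega
    obtain ⟨D, hD1, hD2⟩ := Matroid.Dep.exists_isCircuit_subset (M := M)
      (X := ((insert z (C.erase e) : Finset α) : Set α))
      ⟨hdep, by rw [hE]; exact Set.subset_univ _⟩
    obtain ⟨D', rfl⟩ : ∃ D' : Finset α, (D' : Set α) = D :=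
      ⟨(Set.toFinite D).toFinset, Set.Finite.coe_toFinset _⟩
    have hD3 : D' ⊆ insert z (C.erase e) := Finset.coe_subset.mp hD1
    refine ⟨D', hD2, hD3.trans (Finset.insert_subset_insert _ (Finset.erase_subset _ _)), ?_, ?_⟩
    · intro h
      rcases Finset.mem_insert.mp (hD3 h) with h2 | h2
      · exact hzC (h2 ▸ he)
      · exact (Finset.mem_erase.mp h2).1 rfl
    · by_contra hzD
      refine hD2.dep.not_indep ((ind e he).subset ?_)
      intro x hx
      rcases Finset.mem_insert.mp (hD3 hx) with h2 | h2
      · exact absurd (h2 ▸ hx) hzD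
      · exact Finset.mem_coe.mpr h2
  choose! D hD1 hD2 hD3 hD4 using ex
  -- separation
  have sep : ∀ a ∈ K, ∀ b ∈ K, a ≠ b → b ∈ D a := by
    intro a ha b hb hab
    by_contra hbD
    apply hz a ha b hb hab
    have h1 : z ∈ M.closure ((D a : Set α) \ {z}) :=
      Matroid.IsCircuit.mem_closure_sdiff_singleton_of_mem (C := (D a : Set α)) (hD1 a (hK ha))
        (Finset.mem_coe.mpr (hD4 a (hK ha)))
    refine M.closure_subset_closure ?_ h1
    intro x hx
    have hxD : x ∈ D a := hx.1
    have hxz : x ≠ z := fun h => hx.2 h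
    rcases Finset.mem_insert.mp (hD2 a (hK ha) hxD) with h2 | h2
    · exact absurd h2 hxz
    · refine Finset.mem_coe.mpr (Finset.mem_erase.mpr ⟨fun h => hbD (h ▸ hxD),
        Finset.mem_erase.mpr ⟨fun h => hD3 a (hK ha) (h ▸ hxD), h2⟩⟩)
  -- the cone
  set 𝓓 : Finset (Finset α) := Finset.univ.filter fun F =>
    F ∈ circ M ∧ F ⊆ insert z C ∧ F ≠ C with h𝓓
  have hCne : C.Nonempty := Finset.card_pos.mp (by omega)
  obtain ⟨e0, he0⟩ := hCne
  have memD : ∀ e ∈ C, D e ∈ 𝓓 := by
    intro e he
    rw [h𝓓, Finset.mem_filter]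
    exact ⟨Finset.mem_univ _, hD1 e he, hD2 e he, fun h => hzC (h ▸ hD4 e he)⟩
  have hDpos : 0 < 𝓓.card := Finset.card_pos.mpr ⟨_, memD e0 he0⟩
  have hsumD : ∑ F ∈ 𝓓, chi F + chi C = (𝓓.card : ℚ) • chi (insert z C) := by
    ext e
    simp only [Pi.add_apply, Finset.sum_apply, Pi.smul_apply, smul_eq_mul, chi]
    by_cases hez : e = z
    · subst hez
      have h1 : ∀ F ∈ 𝓓, (if e ∈ F then (1 : ℚ) else 0) = 1 := by
        intro F hF
        rw [h𝓓, Finset.mem_filter] at hF
        rw [if_pos]
        by_contra h2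
        exact hF.2.2.2 (u1 F hF.2.1 hF.2.2.1 h2)
      rw [Finset.sum_congr rfl h1]
      simp [hzC]
    · by_cases heC : e ∈ C
      · have h1 : ∑ F ∈ 𝓓, (if e ∈ F then (1 : ℚ) else 0) =
            ∑ F ∈ 𝓓, (1 - if F = D e then (1 : ℚ) else 0) := by
          refine Finset.sum_congr rfl fun F hF => ?_
          rw [h𝓓, Finset.mem_filter] at hF
          by_cases hFe : F = D e
          · rw [hFe, if_neg (hD3 e heC), if_pos rfl]; norm_num
          · have h2 : e ∈ F := by
              by_contra h3
              exact hFe (u2 e heC F hF.2.1 (D e) (hD1 e heC) hF.2.2.1 (hD2 e heC) h3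
                (hD3 e heC))
            rw [if_pos h2, if_neg hFe]; norm_num
        rw [h1, Finset.sum_sub_distrib, Finset.sum_ite_eq', if_pos (memD e heC)]
        simp [heC]
      · have h1 : ∀ F ∈ 𝓓, (if e ∈ F then (1 : ℚ) else 0) = 0 := by
          intro F hF
          rw [h𝓓, Finset.mem_filter] at hF
          rw [if_neg]
          intro h2
          rcases Finset.mem_insert.mp (hF.2.2.1 h2) with h3 | h3
          · exact hez h3
          · exact heC h3
        rw [Finset.sum_congr rfl h1]
        simp [heC, hez]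
  have hcone : (g : ℚ) • chi (insert z C) ∈ Cone (circ M) := by
    refine Cone.smul (by positivity) ?_
    have h1 : ∑ F ∈ 𝓓, chi F + chi C ∈ Cone (circ M) := by
      refine Cone.add (Cone.sum _ _ fun F hF => Cone.chi ?_) (Cone.chi hC)
      rw [h𝓓, Finset.mem_filter] at hF
      exact hF.2.1
    rw [hsumD] at h1
    have h2 := Cone.smul (r := 1 / (𝓓.card : ℚ)) (by positivity) h1
    rw [smul_smul] at h2
    have h3 : (1 / (𝓓.card : ℚ)) * (𝓓.card : ℚ) = 1 := by
      have : (𝓓.card : ℚ) ≠ 0 := by
        have : 𝓓.card ≠ 0 := by omega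
        exact_mod_cast this
      field_simp
    rw [h3, one_smul] at h2
    exact h2
  -- not a nonnegative integer combination
  have hint : (g : ℚ) • chi (insert z C) ∈ IntCone (circ M) := by
    rw [hHil]
    exact ⟨hcone, hlat⟩
  obtain ⟨n, hn1, hn2⟩ := int_coord hint (A := insert z C) (by
    intro e he
    simp only [Pi.smul_apply, chi, he, if_false, smul_zero])
  have hcoord : ∀ e ∈ insert z C, ∑ F : Finset α, (if e ∈ F then n F else 0) = g := by
    intro e he
    have h1 := hn2 e
    simp only [Pi.smul_apply, chi, he, if_true, smul_eq_mul, mul_one] at h1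
    exact_mod_cast h1.symm
  set T := ∑ F : Finset α, n F with hT
  have hsplit : ∀ e, ∑ F : Finset α, (if e ∈ F then n F else 0) +
      ∑ F : Finset α, (if e ∈ F then 0 else n F) = T := by
    intro e
    rw [hT, ← Finset.sum_add_distrib]
    refine Finset.sum_congr rfl fun F _ => ?_
    split_ifs <;> simp
  have single : ∀ e, ∀ D0 : Finset α, e ∉ D0 → (∀ F, n F ≠ 0 → e ∉ F → F = D0) →
      ∑ F : Finset α, (if e ∈ F then 0 else n F) = n D0 := by
    intro e D0 he h
    rw [Finset.sum_eq_single D0]
    · simp [he]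
    · intro F _ hF
      by_cases heF : e ∈ F
      · simp [heF]
      · simp only [heF, if_false]
        by_contra h0
        exact hF (h F h0 heF)
    · intro h0
      exact absurd (Finset.mem_univ _) h0
  have tz : g + n C = T := by
    rw [← hsplit z, hcoord z (Finset.mem_insert_self _ _), single z C hzC]
    intro F hF hzF
    exact u1 F (hn1 F hF).1 (hn1 F hF).2 hzF
  have ta : ∀ a ∈ C, g + n (D a) = T := by
    intro a ha
    rw [← hsplit a, hcoord a (Finset.mem_insert_of_mem ha), single a (D a) (hD3 a ha)]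
    intro F hF haF
    exact u2 a ha F (hn1 F hF).1 (D a) (hD1 a ha) (hn1 F hF).2 (hD2 a ha) haF (hD3 a ha)
  rcases Nat.eq_zero_or_pos (n C) with h0 | h0
  · -- all coefficients vanish
    have hall : ∀ F, n F = 0 := by
      intro F
      by_contra hF
      have h1 := hn1 F hF
      have h2 : insert z C ⊆ F := by
        intro e he
        rcases Finset.mem_insert.mp he with h3 | h3
        · subst h3
          by_contra h4
          have := u1 F h1.1 h1.2 h4
          rw [this] at hF
          exact hF h0
        · by_contra h4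
          have h5 := u2 e h3 F h1.1 (D e) (hD1 e h3) h1.2 (hD2 e h3) h4 (hD3 e h3)
          have h6 := ta e h3
          rw [← h5] at h6
          omega
      have h3 : C ⊆ F := (Finset.subset_insert _ _).trans h2
      have h4 := circ_eq' h1.1 hC h3
      exact hzC (h4 ▸ h2 (Finset.mem_insert_self _ _))
    have : T = 0 := by
      rw [hT]
      exact Finset.sum_eq_zero fun F _ => hall F
    omega
  · -- too many circuits
    have hinj : Set.InjOn D (K : Set α) := by
      intro a ha b hb hab
      by_contra hne
      have h1 := sep a ha b hb hne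
      rw [hab] at h1
      exact hD3 b (hK hb) h1
    have hCn : C ∉ K.image D := by
      intro h
      obtain ⟨a, ha, hDa⟩ := Finset.mem_image.mp h
      exact hzC (hDa ▸ hD4 a (hK ha))
    have h1 : ∑ F ∈ insert C (K.image D), n F ≤ T := by
      rw [hT]
      exact Finset.sum_le_sum_of_subset (Finset.subset_univ _)
    rw [Finset.sum_insert hCn, Finset.sum_image hinj] at h1
    have h2 : ∑ a ∈ K, n (D a) = K.card * n C := by
      rw [Finset.sum_congr rfl (g := fun _ => n C) fun a ha => by
        have := ta a (hK ha)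
        omega]
      simp
    rw [h2] at h1
    have h3 : (g + 1) * n C ≤ K.card * n C := Nat.mul_le_mul_right _ hKc
    have h4 : g * 1 ≤ g * n C := Nat.mul_le_mul_left _ h0
    have h5 : (g + 1) * n C = g * n C + n C := by ring
    omega

/-- The classification for matroids that are not covered by few hyperplanes. -/
theorem few_hyperplanes (hE : M.E = Set.univ) (hr2 : 2 ≤ r) (hr : M.eRank = r)
    (hl : ∀ a, M.Indep {a}) {N : ℕ} (hN1 : 2 * r - 1 ≤ N)
    (hN2 : ∀ d, d ∣ r + 1 → d < r + 1 → (d + 1).choose 2 ≤ N) (hH : Cov M N) :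
    IsHilbert (circ M) ↔ ∀ S : Finset α, S.card ≤ r → M.Indep (S : Set α) := by
  classical
  constructor
  · intro hHil
    by_contra hcon
    push Not at hcon
    obtain ⟨D, hD1, hD2⟩ := hcon
    obtain ⟨C, hCD, hC⟩ := Matroid.Dep.exists_isCircuit_subset
      (M := M) (X := (D : Set α)) ⟨hD2, by rw [hE]; exact Set.subset_univ _⟩
    obtain ⟨C', rfl⟩ : ∃ C' : Finset α, (C' : Set α) = C :=
      ⟨(Set.toFinite C).toFinset, Set.Finite.coe_toFinset _⟩
    have hC'c : C' ∈ circ M := hC
    have hC'r : C'.card ≤ r := (Finset.card_le_card (Finset.coe_subset.mp hCD)).trans hD1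
    have hC'0 : 0 < C'.card := by
      have := hC.nonempty
      rw [Finset.coe_nonempty] at this
      exact this.card_pos
    have gen1 : ∀ x, Gen M r ({x} : Finset α) := by
      intro x S hS _
      refine (hl x).subset ?_
      have := Finset.coe_subset.mpr hS
      simpa using this
    have diff : ∀ x z, del x - del z ∈ Lat (circ M) := by
      intro x z
      obtain ⟨T, hxT, hzT, hTc, hG1, hG2⟩ := gen_pair hE hr2 hr hN1 hH (gen1 x) (gen1 z) r
        (le_refl _)
      have c1 := gen_circ hE hr hG1 (by rw [Finset.card_insert_of_notMem hxT, hTc])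
      have c2 := gen_circ hE hr hG2 (by rw [Finset.card_insert_of_notMem hzT, hTc])
      have := Lat.sub (Lat.chi c1) (Lat.chi c2)
      rw [chi_insert hxT, chi_insert hzT] at this
      convert this using 1
      abel
    obtain ⟨x, hx⟩ : C'.Nonempty := Finset.card_pos.mp hC'0
    have mult : ∀ F ∈ circ M, ((F.card : ℤ) : ℚ) • del x ∈ Lat (circ M) := by
      intro F hF
      have h1 : ∑ a ∈ F, (del a - del x) ∈ Lat (circ M) := Lat.sum _ _ fun a _ => diff a x
      have h2 := Lat.sub (Lat.chi hF) h1
      convert h2 using 1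
      rw [Finset.sum_sub_distrib, ← chi_eq_sum, Finset.sum_const, sub_sub_cancel]
      ext e
      simp
    obtain ⟨T, hxT, _, hTc, hG1, _⟩ := gen_pair hE hr2 hr hN1 hH (gen1 x) (gen1 x) r
      (le_refl _)
    set C0 := insert x T with hC0
    have hC0c : C0.card = r + 1 := by rw [hC0, Finset.card_insert_of_notMem hxT, hTc]
    have hC0m : C0 ∈ circ M := gen_circ hE hr hG1 hC0c
    have m1 := mult _ hC0m
    rw [hC0c] at m1
    have m2 := mult C' hC'c
    set g := Nat.gcd C'.card (r + 1) with hg
    have hgpos : 0 < g := Nat.gcd_pos_of_pos_left _ hC'0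
    have hgle : g ≤ C'.card := Nat.gcd_le_left _ hC'0
    have hgN : (g + 1).choose 2 ≤ N := hN2 g (Nat.gcd_dvd_right _ _) (by omega)
    have m3 : ((g : ℤ) : ℚ) • del x ∈ Lat (circ M) := by
      have hb := Nat.gcd_eq_gcd_ab C'.card (r + 1)
      have := Lat.add (Lat.smul (Nat.gcdA C'.card (r + 1)) m2)
        (Lat.smul (Nat.gcdB C'.card (r + 1)) m1)
      convert this using 1
      rw [smul_smul, smul_smul, ← add_smul]
      congr 1
      rw [hg, hb]
      push_cast
      ring
    -- the set `K` and the element `z`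
    obtain ⟨K, hK, hKc⟩ := Finset.exists_subset_card_eq
      (show max (g + 1) 3 ≤ C0.card by rw [hC0c]; omega)
    have hKN : (K.powersetCard 2).card ≤ N := by
      rw [Finset.card_powersetCard, hKc]
      rcases le_total (g + 1) 3 with h | h
      · rw [max_eq_right h]
        have : Nat.choose 3 2 = 3 := by decide
        omega
      · rw [max_eq_left h]
        exact hgN
    obtain ⟨z, hz⟩ := hH ((K.powersetCard 2).image fun P : Finset α =>
        M.closure ((C0 \ P : Finset α) : Set α)) (Finset.card_image_le.trans hKN) (by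
      intro X hX
      obtain ⟨P, hP, rfl⟩ := Finset.mem_image.mp hX
      rw [Finset.mem_powersetCard] at hP
      refine rk_closure_lt hr ?_
      rw [Finset.card_sdiff_of_subset (hP.1.trans hK), hP.2, hC0c]
      omega)
    have hz' : ∀ P ⊆ K, P.card = 2 → z ∉ M.closure ((C0 \ P : Finset α) : Set α) := by
      intro P hP hPc
      exact hz _ (Finset.mem_image_of_mem _ (Finset.mem_powersetCard.mpr ⟨hP, hPc⟩))
    have hzC0 : z ∉ C0 := by
      intro hzC
      have h1 : 2 ≤ (K.erase z).card := by
        have := Finset.pred_card_le_card_erase (s := K) (a := z)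
        omega
      obtain ⟨P, hP, hPc⟩ := Finset.exists_subset_card_eq h1
      refine hz' P (hP.trans (Finset.erase_subset _ _)) hPc ?_
      refine M.mem_closure_of_mem' (Finset.mem_coe.mpr (Finset.mem_sdiff.mpr ⟨hzC, ?_⟩))
        (by rw [hE]; trivial)
      intro h2
      exact (Finset.mem_erase.mp (hP h2)).1 rfl
    refine obstruct_circuit hE hr2 hr hHil hC0m hC0c hgpos hK (by omega) hzC0 ?_ ?_
    · intro a ha b hb hab
      have h1 := hz' {a, b} (by
        intro t ht
        simp only [Finset.mem_insert, Finset.mem_singleton] at ht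
        rcases ht with rfl | rfl <;> assumption) (Finset.card_pair hab)
      have h2 : C0 \ {a, b} = (C0.erase a).erase b := by
        ext t
        simp only [Finset.mem_sdiff, Finset.mem_insert, Finset.mem_singleton, not_or,
          Finset.mem_erase]
        tauto
      rwa [h2] at h1
    · have h1 : ∑ a ∈ insert z C0, (del a - del x) ∈ Lat (circ M) :=
        Lat.sum _ _ fun a _ => diff a x
      have h2 := Lat.add (Lat.smul (g : ℤ) h1) (Lat.smul ((r + 2 : ℕ) : ℤ) m3)
      convert h2 using 1
      rw [Finset.sum_sub_distrib, ← chi_eq_sum, Finset.sum_const,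
        Finset.card_insert_of_notMem hzC0, hC0c]
      push_cast
      module
  · intro hU
    refine suff_uniform' (k := r + 1) (by omega) ?_
    intro F
    constructor
    · intro hF
      have h1 := circ_card_le hr hF
      have h2 : ¬ F.card ≤ r := fun h3 => (Matroid.IsCircuit.dep hF).not_indep (hU F h3)
      omega
    · intro hF
      exact gen_circ hE hr (fun S _ hS => hU S hS) hF

end Pool.Agent.L5helper89.HB
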