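import Pool.Agent.L5helper89.HB.Basic

/-!
# Necessity: intersecting lines and triples off a line are obstructions
-/

set_option autoImplicit false
set_option linter.unusedSectionVars false
set_option linter.unusedVariables false

namespace Pool.Agent.L5helper89.HB

open Finset

/-- A symmetric collinearity relation: two points lie on exactly one line. -/
structure ColAx {α : Type} (col : α → α → α → Prop) : Prop where
  s1 : ∀ a b c, col a b c → col b a c
  s2 : ∀ a b c, col a b c → col a c b
  dg : ∀ a b, col a a b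
  tr : ∀ a b c d, a ≠ b → col a b c → col a b d → col a c d

variable {α : Type} [Fintype α] [DecidableEq α] {col : α → α → α → Prop}

/-- `S` consists of the collinear triples and of the quadruples without collinear triples. -/
structure Fam (col : α → α → α → Prop) (S : Set (Finset α)) : Prop where
  card : ∀ F ∈ S, F.card = 3 ∨ F.card = 4
  mem3 : ∀ a b c, a ≠ b → a ≠ c → b ≠ c → col a b c → {a, b, c} ∈ S
  mem4 : ∀ a b c d, ¬ col a b c → ¬ col a b d → ¬ col a c d → ¬ col b c d → {a, b, c, d} ∈ S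

lemma theta_facts (h : ColAx col) {a b c d e : α} (hab : a ≠ b) (hac : a ≠ c) (hbc : b ≠ c)
    (had : a ≠ d) (hae : a ≠ e) (hde : d ≠ e) (h1 : col a b c) (h2 : col a d e)
    (h3 : ¬ col a b d) : ¬ col b c d ∧ ¬ col b c e ∧ ¬ col b d e ∧ ¬ col c d e ∧ ¬ col a b e ∧
      ¬ col a c d ∧ ¬ col a c e := by
  have s1 := h.s1
  have s2 := h.s2
  have tr := h.tr
  have dg := h.dg
  refine ⟨?_, ?_, ?_, ?_, ?_, ?_, ?_⟩ <;> grind

lemma ne_of_not_col (h : ColAx col) {a b c : α} (h1 : ¬ col a b c) : a ≠ b ∧ a ≠ c ∧ b ≠ c := by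
  have s1 := h.s1
  have s2 := h.s2
  have dg := h.dg
  refine ⟨?_, ?_, ?_⟩ <;> grind

variable {S : Set (Finset α)}

lemma lat3 (hS : Fam col S) {a b c : α} (hab : a ≠ b) (hac : a ≠ c) (hbc : b ≠ c)
    (h : col a b c) : del a + del b + del c ∈ Lat S := by
  rw [← chi3 hab hac hbc]
  exact Lat.chi (hS.mem3 a b c hab hac hbc h)

lemma lat4 (hc : ColAx col) (hS : Fam col S) {a b c d : α} (h1 : ¬ col a b c) (h2 : ¬ col a b d)
    (h3 : ¬ col a c d) (h4 : ¬ col b c d) : del a + del b + del c + del d ∈ Lat S := by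
  have n1 := ne_of_not_col hc h1
  have n2 := ne_of_not_col hc h2
  have n3 := ne_of_not_col hc h3
  rw [← chi4 n1.1 n1.2.1 n2.2.1 n1.2.2 n2.2.2 n3.2.2]
  exact Lat.chi (hS.mem4 a b c d h1 h2 h3 h4)

lemma cone3 (hS : Fam col S) {a b c : α} (hab : a ≠ b) (hac : a ≠ c) (hbc : b ≠ c)
    (h : col a b c) : del a + del b + del c ∈ Cone S := by
  rw [← chi3 hab hac hbc]
  exact Cone.chi (hS.mem3 a b c hab hac hbc h)

lemma cone4 (hc : ColAx col) (hS : Fam col S) {a b c d : α} (h1 : ¬ col a b c) (h2 : ¬ col a b d)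
    (h3 : ¬ col a c d) (h4 : ¬ col b c d) : del a + del b + del c + del d ∈ Cone S := by
  have n1 := ne_of_not_col hc h1
  have n2 := ne_of_not_col hc h2
  have n3 := ne_of_not_col hc h3
  rw [← chi4 n1.1 n1.2.1 n2.2.1 n1.2.2 n2.2.2 n3.2.2]
  exact Cone.chi (hS.mem4 a b c d h1 h2 h3 h4)

lemma sum_five (a b c d e : α) : ∑ x, (del a + del b + del c + del d + del e) x = 5 := by
  simp only [Pi.add_apply, Finset.sum_add_distrib, sum_del]
  norm_num

lemma theta_cone (hc : ColAx col) (hS : Fam col S) {a b c d e : α} (hab : a ≠ b) (hac : a ≠ c)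
    (hbc : b ≠ c) (had : a ≠ d) (hae : a ≠ e) (hde : d ≠ e) (h1 : col a b c) (h2 : col a d e)
    (h3 : ¬ col a b d) : del a + del b + del c + del d + del e ∈ Cone S := by
  obtain ⟨f1, f2, f3, f4, f5, f6, f7⟩ := theta_facts hc hab hac hbc had hae hde h1 h2 h3
  have c1 := cone3 hS hab hac hbc h1
  have c2 := cone3 hS had hae hde h2
  have c3 := cone4 hc hS f1 f2 f3 f4
  have := Cone.smul (r := 1 / 2) (by norm_num) (Cone.add (Cone.add c1 c2) c3)
  convert this using 1
  module

/-- A sixth point on one of the two lines. -/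
lemma theta_i (hc : ColAx col) (hS : Fam col S) (hH : IsHilbert S) {a b c d e f : α} (hab : a ≠ b)
    (hac : a ≠ c) (hbc : b ≠ c) (had : a ≠ d) (hae : a ≠ e) (hde : d ≠ e) (h1 : col a b c)
    (h2 : col a d e) (h3 : ¬ col a b d) (haf : a ≠ f) (hbf : b ≠ f) (hcf : c ≠ f)
    (h4 : col a b f) : False := by
  obtain ⟨f1, f2, f3, f4, f5, f6, f7⟩ := theta_facts hc hab hac hbc had hae hde h1 h2 h3
  have s1 := hc.s1
  have s2 := hc.s2
  have tr := hc.tr
  have dg := hc.dg
  have g1 : col a c f := by grind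
  have g2 : col b c f := by grind
  refine not_hilbert hS.card (theta_cone hc hS hab hac hbc had hae hde h1 h2 h3) ?_
    (sum_five a b c d e) hH
  have l1 := lat3 hS hab hac hbc h1
  have l2 := lat3 hS had hae hde h2
  have l3 := lat4 hc hS f1 f2 f3 f4
  have l4 := lat3 hS hac haf hcf g1
  have l5 := lat3 hS hbc hbf hcf g2
  have l6 := lat3 hS hab haf hbf h4
  have := Lat.add (Lat.add (Lat.add (Lat.add (Lat.add l1 (Lat.smul 2 l2)) (Lat.smul (-1) l4))
    (Lat.smul (-1) l6)) (Lat.smul 2 l5)) (Lat.smul (-1) l3)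
  convert this using 1
  push_cast
  module

/-- A sixth point off the lines `bd` and `be`. -/
lemma theta_ii (hc : ColAx col) (hS : Fam col S) (hH : IsHilbert S) {a b c d e f : α}
    (hab : a ≠ b) (hac : a ≠ c) (hbc : b ≠ c) (had : a ≠ d) (hae : a ≠ e) (hde : d ≠ e)
    (h1 : col a b c) (h2 : col a d e) (h3 : ¬ col a b d) (h4 : ¬ col a b f) (h5 : ¬ col a d f)
    (h6 : ¬ col b d f) (h7 : ¬ col b e f) : False := by
  obtain ⟨f1, f2, f3, f4, f5, f6, f7⟩ := theta_facts hc hab hac hbc had hae hde h1 h2 h3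
  have s1 := hc.s1
  have s2 := hc.s2
  have tr := hc.tr
  have dg := hc.dg
  have g1 : ¬ col a e f := by grind
  have g2 : ¬ col d e f := by grind
  refine not_hilbert hS.card (theta_cone hc hS hab hac hbc had hae hde h1 h2 h3) ?_
    (sum_five a b c d e) hH
  have l1 := lat3 hS hab hac hbc h1
  have l3 := lat4 hc hS f1 f2 f3 f4
  have l4 := lat4 hc hS f5 h4 g1 h7
  have l5 := lat4 hc hS h3 h4 h5 h6
  have l6 := lat4 hc hS f3 h6 h7 g2
  have := Lat.add (Lat.add (Lat.add (Lat.add (Lat.smul 2 l3) (Lat.smul (-1) l1)) l4) l5)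
    (Lat.smul (-2) l6)
  convert this using 1
  push_cast
  module

/-- Every sixth point is one of two given points. -/
lemma theta_point (hc : ColAx col) (hS : Fam col S) (hH : IsHilbert S) {a b c d e f : α}
    (hab : a ≠ b) (hac : a ≠ c) (hbc : b ≠ c) (had : a ≠ d) (hae : a ≠ e) (hde : d ≠ e)
    (h1 : col a b c) (h2 : col a d e) (h3 : ¬ col a b d) (haf : a ≠ f) (hbf : b ≠ f)
    (hcf : c ≠ f) (hdf : d ≠ f) (hef : e ≠ f) :
    (col b d f ∧ col c e f) ∨ (col b e f ∧ col c d f) := by
  obtain ⟨f1, f2, f3, f4, f5, f6, f7⟩ := theta_facts hc hab hac hbc had hae hde h1 h2 h3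
  have s1 := hc.s1
  have s2 := hc.s2
  have tr := hc.tr
  have dg := hc.dg
  have k1 : ¬ col a b f := fun h4 =>
    theta_i hc hS hH hab hac hbc had hae hde h1 h2 h3 haf hbf hcf h4
  have k2 : ¬ col a d f := fun h4 =>
    theta_i hc hS hH had hae hde hab hac hbc h2 h1 (by grind) haf hdf hef h4
  have k3 : col b d f ∨ col b e f := by
    by_contra hcon
    push Not at hcon
    exact theta_ii hc hS hH hab hac hbc had hae hde h1 h2 h3 k1 k2 hcon.1 hcon.2
  have k4 : col c d f ∨ col c e f := by
    by_contra hcon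
    push Not at hcon
    exact theta_ii hc hS hH hac hab hbc.symm had hae hde (by grind) h2 (by grind) (by grind) k2
      hcon.1 hcon.2
  have k5 : ¬ (col b d f ∧ col b e f) := by grind
  have k6 : ¬ (col c d f ∧ col c e f) := by grind
  have k7 : ¬ (col b d f ∧ col c d f) := by grind
  have k8 : ¬ (col b e f ∧ col c e f) := by grind
  tauto

/-- Two points cannot both be on `bd` and `ce`. -/
lemma two_points (hc : ColAx col) {b c d e f g : α} (hbd : ¬ col b c d) (hcde : ¬ col c d e)
    (hfg : f ≠ g) (h1 : col b d f) (h2 : col c e f) (h3 : col b d g) (h4 : col c e g) :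
    False := by
  have s1 := hc.s1
  have s2 := hc.s2
  have tr := hc.tr
  have dg := hc.dg
  have n1 := ne_of_not_col hc hbd
  have n2 := ne_of_not_col hc hcde
  have e1 : col b f g := tr b d f g n1.2.1 h1 h3
  have e2 : col d f g := by grind
  have e3 : col c f g := tr c e f g n2.2.1 h2 h4
  grind

/-- With at least eight points no two lines of size three meet. -/
lemma no_theta (hc : ColAx col) (hS : Fam col S) (hH : IsHilbert S) (hn : 8 ≤ Fintype.card α)
    {a b c d e : α} (hab : a ≠ b) (hac : a ≠ c) (hbc : b ≠ c) (had : a ≠ d) (hae : a ≠ e)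
    (hde : d ≠ e) (h1 : col a b c) (h2 : col a d e) : col a b d := by
  by_contra h3
  obtain ⟨f1, f2, f3, f4, f5, f6, f7⟩ := theta_facts hc hab hac hbc had hae hde h1 h2 h3
  have hcard : 3 ≤ (Finset.univ \ {a, b, c, d, e} : Finset α).card := by
    have h5 : ({a, b, c, d, e} : Finset α).card ≤ 5 := Finset.card_le_five
    have := Finset.le_card_sdiff ({a, b, c, d, e} : Finset α) Finset.univ
    rw [Finset.card_univ] at this
    omega
  obtain ⟨U, hU, hU3⟩ := Finset.exists_subset_card_eq hcard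
  obtain ⟨f, g, k, hfg, hfk, hgk, rfl⟩ := Finset.card_eq_three.mp hU3
  have key : ∀ x ∈ ({f, g, k} : Finset α), (col b d x ∧ col c e x) ∨ (col b e x ∧ col c d x) := by
    intro x hx
    have hx2 := hU hx
    simp only [Finset.mem_sdiff, Finset.mem_univ, true_and, Finset.mem_insert,
      Finset.mem_singleton, not_or] at hx2
    obtain ⟨x1, x2, x3, x4, x5⟩ := hx2
    exact theta_point hc hS hH hab hac hbc had hae hde h1 h2 h3 (Ne.symm x1) (Ne.symm x2)
      (Ne.symm x3) (Ne.symm x4) (Ne.symm x5)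
  have kf := key f (by simp)
  have kg := key g (by simp)
  have kk := key k (by simp)
  have s1 := hc.s1
  have s2 := hc.s2
  have f1' : ¬ col b c e := f2
  have f4' : ¬ col c e d := fun h => f4 (s2 _ _ _ h)
  have A : ∀ x y, x ≠ y → (col b d x ∧ col c e x) → (col b d y ∧ col c e y) → False :=
    fun x y hxy hx hy => two_points hc f1 f4 hxy hx.1 hx.2 hy.1 hy.2
  have B : ∀ x y, x ≠ y → (col b e x ∧ col c d x) → (col b e y ∧ col c d y) → False :=
    fun x y hxy hx hy => two_points hc f2 f4' hxy hx.1 hx.2 hy.1 hy.2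
  rcases kf with kf | kf <;> rcases kg with kg | kg <;> rcases kk with kk | kk
  · exact A f g hfg kf kg
  · exact A f g hfg kf kg
  · exact A f k hfk kf kk
  · exact B g k hgk kg kk
  · exact A g k hgk kg kk
  · exact B f k hfk kf kk
  · exact B f g hfg kf kg
  · exact B f g hfg kf kg

/-- A collinear triple and a noncollinear triple off its line. -/
lemma off_line (hc : ColAx col) (hS : Fam col S) (hH : IsHilbert S) (hn : 8 ≤ Fintype.card α)
    {a b c u v w : α} (hab : a ≠ b) (hac : a ≠ c) (hbc : b ≠ c) (h1 : col a b c)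
    (hu : ¬ col a b u) (hv : ¬ col a b v) (hw : ¬ col a b w) : col u v w := by
  by_contra huvw
  have s1 := hc.s1
  have s2 := hc.s2
  have tr := hc.tr
  have dg := hc.dg
  have nuvw := ne_of_not_col hc huvw
  have line : ∀ p ∈ ({a, b, c} : Finset α), ∀ x y, x ≠ y → ¬ col a b x → ¬ col a b y →
      ¬ col p x y := by
    intro p hp x y hxy hx hy hcol
    have hxp : p ≠ x := by
      rintro rfl
      simp only [Finset.mem_insert, Finset.mem_singleton] at hp
      rcases hp with rfl | rfl | rfl <;> grind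
    have hyp : p ≠ y := by
      rintro rfl
      simp only [Finset.mem_insert, Finset.mem_singleton] at hp
      rcases hp with rfl | rfl | rfl <;> grind
    simp only [Finset.mem_insert, Finset.mem_singleton] at hp
    rcases hp with rfl | rfl | rfl
    · exact hx (no_theta hc hS hH hn hab hac hbc hxp hyp hxy h1 hcol)
    · have := no_theta hc hS hH hn hab.symm hbc hac hxp hyp hxy (s1 _ _ _ h1) hcol
      exact hx (s1 _ _ _ this)
    · have h5 := no_theta hc hS hH hn hac.symm hbc.symm hab hxp hyp hxy (by grind) hcol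
      exact hx (by grind)
  have pairs : ∀ x, ¬ col a b x → ¬ col a c x ∧ ¬ col b c x := by
    intro x hx
    refine ⟨?_, ?_⟩ <;> grind
  obtain ⟨hu1, hu2⟩ := pairs u hu
  obtain ⟨hv1, hv2⟩ := pairs v hv
  obtain ⟨hw1, hw2⟩ := pairs w hw
  have ma : a ∈ ({a, b, c} : Finset α) := by simp
  have mb : b ∈ ({a, b, c} : Finset α) := by simp
  have mc : c ∈ ({a, b, c} : Finset α) := by simp
  have auv := line a ma u v nuvw.1 hu hv
  have auw := line a ma u w nuvw.2.1 hu hw
  have avw := line a ma v w nuvw.2.2 hv hw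
  have buv := line b mb u v nuvw.1 hu hv
  have cuv := line c mc u v nuvw.1 hu hv
  have cuw := line c mc u w nuvw.2.1 hu hw
  have cvw := line c mc v w nuvw.2.2 hv hw
  have hcone : del a + del b + del c + del u + del v ∈ Cone S := by
    have c1 := cone3 hS hab hac hbc h1
    have c2 := cone4 hc hS hu hv auv buv
    have c3 := cone4 hc hS hu1 hv1 auv cuv
    have c4 := cone4 hc hS hu2 hv2 buv cuv
    have := Cone.smul (r := 1 / 3) (by norm_num) (Cone.add (Cone.add (Cone.add c1 c2) c3) c4)
    convert this using 1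
    module
  refine not_hilbert hS.card hcone ?_ (sum_five a b c u v) hH
  have l1 := lat4 hc hS hu hv auv buv
  have l2 := lat3 hS hab hac hbc h1
  have l3 := lat4 hc hS hv1 hw1 avw cvw
  have l4 := lat4 hc hS hu1 hw1 auw cuw
  have l5 := lat4 hc hS auv auw avw huvw
  have := Lat.add (Lat.add (Lat.add (Lat.add (Lat.smul 2 l1) (Lat.smul (-1) l2)) l3) l4)
    (Lat.smul (-2) l5)
  convert this using 1
  push_cast
  module

/-- The lines of size at least three are at most two in number and cover all points. -/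
lemma necessity (hc : ColAx col) (hS : Fam col S) (hH : IsHilbert S) (hn : 8 ≤ Fintype.card α)
    {a b c : α} (hab : a ≠ b) (hac : a ≠ c) (hbc : b ≠ c) (h1 : col a b c) (x y z : α)
    (hxy : x ≠ y) (hxz : x ≠ z) (hyz : y ≠ z) :
    col x y z ↔ (col a b x ∧ col a b y ∧ col a b z) ∨ (¬ col a b x ∧ ¬ col a b y ∧ ¬ col a b z) := by
  have s1 := hc.s1
  have s2 := hc.s2
  have tr := hc.tr
  have dg := hc.dg
  have meet : ∀ x y z, x ≠ y → x ≠ z → y ≠ z → col x y z → col a b x → col a b y := by
    intro x y z hxy hxz hyz hcol hx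
    by_cases hxa : x = a
    · subst hxa
      exact no_theta hc hS hH hn hab hac hbc hxy hxz hyz h1 hcol
    by_cases hxb : x = b
    · subst hxb
      have := no_theta hc hS hH hn hab.symm hbc hac hxy hxz hyz (s1 _ _ _ h1) hcol
      exact s1 _ _ _ this
    · have h5 := no_theta hc hS hH hn hxa hxb hab hxy hxz hyz (by grind) hcol
      grind
  constructor
  · intro hcol
    by_cases hx : col a b x
    · left
      exact ⟨hx, meet x y z hxy hxz hyz hcol hx, meet x z y hxz hxy hyz.symm (s2 _ _ _ hcol) hx⟩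
    · right
      refine ⟨hx, fun hy => hx ?_, fun hz => hx ?_⟩
      · exact meet y x z hxy.symm hyz hxz (s1 _ _ _ hcol) hy
      · exact meet z x y hxz.symm hyz.symm hxy (by grind) hz
  · rintro (⟨hx, hy, hz⟩ | ⟨hx, hy, hz⟩)
    · grind
    · exact off_line hc hS hH hn hab hac hbc h1 hx hy hz

end Pool.Agent.L5helper89.HB
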