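import Pool.Agent.L5helper89.HB.Lines
import Pool.Agent.L5helper89.HB.Decomp

/-!
# Necessity for spaces without two intersecting lines of size three
-/

set_option autoImplicit false
set_option linter.unusedSectionVars false
set_option linter.unusedVariables false

namespace Pool.Agent.L5helper89.HB

open Finset

/-- No two lines of size at least three meet. -/
def NoTheta {α : Type} (col : α → α → α → Prop) : Prop :=
  ∀ a b c d e : α, a ≠ b → a ≠ c → b ≠ c → a ≠ d → a ≠ e → d ≠ e → col a b c → col a d e →
    col a b d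

variable {α : Type} [Fintype α] [DecidableEq α] {col : α → α → α → Prop} {S : Set (Finset α)}

/-- A collinear triple and a noncollinear triple off its line. -/
lemma off_line' (hc : ColAx col) (hS : Fam col S) (hH : IsHilbert S) (hn : NoTheta col)
    {a b c u v w : α} (hab : a ≠ b) (hac : a ≠ c) (hbc : b ≠ c) (h1 : col a b c)
    (hu : ¬ col a b u) (hv : ¬ col a b v) (hw : ¬ col a b w) : col u v w := by
  by_contra huvw
  have s1 := hc.s1
  have s2 := hc.s2
  have tr := hc.tr
  have dg := hc.dg
  have nuvw := ne_of_not_col hc huvw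
  have line : ∀ p ∈ ({a, b, c} : Finset α), ∀ x y, x ≠ y → ¬ col a b x → ¬ col a b y →
      ¬ col p x y := by
    intro p hp x y hxy hx hy hcol
    have hxp : p ≠ x := by
      rintro rfl
      simp only [Finset.mem_insert, Finset.mem_singleton] at hp
      rcases hp with rfl | rfl | rfl <;> grind
    have hyp : p ≠ y := by
      rintro rfl
      simp only [Finset.mem_insert, Finset.mem_singleton] at hp
      rcases hp with rfl | rfl | rfl <;> grind
    simp only [Finset.mem_insert, Finset.mem_singleton] at hp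
    rcases hp with rfl | rfl | rfl
    · exact hx (hn _ _ _ _ _ hab hac hbc hxp hyp hxy h1 hcol)
    · have := hn _ _ _ _ _ hab.symm hbc hac hxp hyp hxy (s1 _ _ _ h1) hcol
      exact hx (s1 _ _ _ this)
    · have h5 := hn _ _ _ _ _ hac.symm hbc.symm hab hxp hyp hxy (by grind) hcol
      exact hx (by grind)
  have pairs : ∀ x, ¬ col a b x → ¬ col a c x ∧ ¬ col b c x := by
    intro x hx
    refine ⟨?_, ?_⟩ <;> grind
  obtain ⟨hu1, hu2⟩ := pairs u hu
  obtain ⟨hv1, hv2⟩ := pairs v hv
  obtain ⟨hw1, hw2⟩ := pairs w hw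
  have ma : a ∈ ({a, b, c} : Finset α) := by simp
  have mb : b ∈ ({a, b, c} : Finset α) := by simp
  have mc : c ∈ ({a, b, c} : Finset α) := by simp
  have auv := line a ma u v nuvw.1 hu hv
  have auw := line a ma u w nuvw.2.1 hu hw
  have avw := line a ma v w nuvw.2.2 hv hw
  have buv := line b mb u v nuvw.1 hu hv
  have cuv := line c mc u v nuvw.1 hu hv
  have cuw := line c mc u w nuvw.2.1 hu hw
  have cvw := line c mc v w nuvw.2.2 hv hw
  have hcone : del a + del b + del c + del u + del v ∈ Cone S := by
    have c1 := cone3 hS hab hac hbc h1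
    have c2 := cone4 hc hS hu hv auv buv
    have c3 := cone4 hc hS hu1 hv1 auv cuv
    have c4 := cone4 hc hS hu2 hv2 buv cuv
    have := Cone.smul (r := 1 / 3) (by norm_num) (Cone.add (Cone.add (Cone.add c1 c2) c3) c4)
    convert this using 1
    module
  refine not_hilbert hS.card hcone ?_ (sum_five a b c u v) hH
  have l1 := lat4 hc hS hu hv auv buv
  have l2 := lat3 hS hab hac hbc h1
  have l3 := lat4 hc hS hv1 hw1 avw cvw
  have l4 := lat4 hc hS hu1 hw1 auw cuw
  have l5 := lat4 hc hS auv auw avw huvw
  have := Lat.add (Lat.add (Lat.add (Lat.add (Lat.smul 2 l1) (Lat.smul (-1) l2)) l3) l4)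
    (Lat.smul (-2) l5)
  convert this using 1
  push_cast
  module

/-- The lines of size at least three are at most two in number and cover all points. -/
lemma necessity' (hc : ColAx col) (hS : Fam col S) (hH : IsHilbert S) (hn : NoTheta col)
    {a b c : α} (hab : a ≠ b) (hac : a ≠ c) (hbc : b ≠ c) (h1 : col a b c) (x y z : α)
    (hxy : x ≠ y) (hxz : x ≠ z) (hyz : y ≠ z) :
    col x y z ↔ (col a b x ∧ col a b y ∧ col a b z) ∨ (¬ col a b x ∧ ¬ col a b y ∧ ¬ col a b z) := by
  have s1 := hc.s1
  have s2 := hc.s2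
  have tr := hc.tr
  have dg := hc.dg
  have meet : ∀ x y z, x ≠ y → x ≠ z → y ≠ z → col x y z → col a b x → col a b y := by
    intro x y z hxy hxz hyz hcol hx
    by_cases hxa : x = a
    · subst hxa
      exact hn _ _ _ _ _ hab hac hbc hxy hxz hyz h1 hcol
    by_cases hxb : x = b
    · subst hxb
      have := hn _ _ _ _ _ hab.symm hbc hac hxy hxz hyz (s1 _ _ _ h1) hcol
      exact s1 _ _ _ this
    · have h5 := hn _ _ _ _ _ hxa hxb hab hxy hxz hyz (by grind) hcol
      grind
  constructor
  · intro hcol
    by_cases hx : col a b x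
    · left
      exact ⟨hx, meet x y z hxy hxz hyz hcol hx, meet x z y hxz hxy hyz.symm (s2 _ _ _ hcol) hx⟩
    · right
      refine ⟨hx, fun hy => hx ?_, fun hz => hx ?_⟩
      · exact meet y x z hxy.symm hyz hxz (s1 _ _ _ hcol) hy
      · exact meet z x y hxz.symm hyz.symm hxy (by grind) hz
  · rintro (⟨hx, hy, hz⟩ | ⟨hx, hy, hz⟩)
    · grind
    · exact off_line' hc hS hH hn hab hac hbc h1 hx hy hz

end Pool.Agent.L5helper89.HB
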