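import Pool.Agent.L5helper89.HB.Sub
import Pool.Agent.L5helper89.HB.Lines2

/-!
# Obstructions with parallel elements
-/

set_option autoImplicit false
set_option linter.unusedSectionVars false
set_option linter.unusedVariables false

namespace Pool.Agent.L5helper89.HB

open Finset

variable {α : Type} [Fintype α] [DecidableEq α] {S : Set (Finset α)}

lemma del_off {a e : α} (h : e ≠ a) : del a e = 0 := by
  simp [del, chi, h]

/-- Five points in general position, one of them with a parallel element. -/
lemma obs_a (hH : IsHilbert S) {a r b c d e : α}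
    (hS : ∀ F ∈ S, F ⊆ {r, b, c, d, e} → F.card = 4)
    (p0 : del a + del r ∈ Lat S)
    (q1 : del b + del c + del d + del e ∈ Lat S)
    (q2 : del r + del b + del c + del d ∈ Lat S)
    (q3 : del a + del b + del c + del d ∈ Lat S)
    (c1 : del b + del c + del d + del e ∈ Cone S)
    (c2 : del r + del c + del d + del e ∈ Cone S)
    (c3 : del r + del b + del d + del e ∈ Cone S)
    (c4 : del r + del b + del c + del e ∈ Cone S)
    (c5 : del r + del b + del c + del d ∈ Cone S) : False := by
  refine obstruct_dvd (A := {r, b, c, d, e}) (t := 4) (N := 10)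
    (p := (2 : ℚ) • (del r + del b + del c + del d + del e)) hS ?_ ?_ ?_ ?_ (by norm_num) hH
  · have := Cone.smul (r := 1 / 2) (by norm_num)
      (Cone.add (Cone.add (Cone.add (Cone.add c1 c2) c3) c4) c5)
    convert this using 1
    module
  · have := Lat.add (Lat.add (Lat.add (Lat.smul 2 q1) p0) q2) (Lat.smul (-1) q3)
    convert this using 1
    push_cast
    module
  · intro x hx
    simp only [Finset.mem_insert, Finset.mem_singleton, not_or] at hx
    simp [del_off hx.1, del_off hx.2.1, del_off hx.2.2.1, del_off hx.2.2.2.1,
      del_off hx.2.2.2.2]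
  · have := sum_five r b c d e
    simp only [Pi.smul_apply, smul_eq_mul, ← Finset.mul_sum, this]
    norm_num

/-- Four points on a line, one of them with a parallel element. -/
lemma obs_b (hH : IsHilbert S) {a r b c d : α}
    (hS : ∀ F ∈ S, F ⊆ {r, b, c, d} → F.card = 3)
    (p0 : del a + del r ∈ Lat S)
    (q1 : del r + del c + del d ∈ Lat S)
    (q2 : del r + del b + del d ∈ Lat S)
    (q3 : del b + del c + del d ∈ Lat S)
    (q4 : del a + del b + del c ∈ Lat S)
    (c1 : del r + del b + del c ∈ Cone S)
    (c2 : del r + del b + del d ∈ Cone S)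
    (c3 : del r + del c + del d ∈ Cone S)
    (c4 : del b + del c + del d ∈ Cone S) : False := by
  refine obstruct_dvd (A := {r, b, c, d}) (t := 3) (N := 4)
    (p := del r + del b + del c + del d) hS ?_ ?_ ?_ ?_ (by norm_num) hH
  · have := Cone.smul (r := 1 / 3) (by norm_num) (Cone.add (Cone.add (Cone.add c1 c2) c3) c4)
    convert this using 1
    module
  · have := Lat.add (Lat.add (Lat.add (Lat.add q1 q2) (Lat.smul (-1) q3)) (Lat.smul (-1) p0)) q4
    convert this using 1
    push_cast
    module
  · intro x hx
    simp only [Finset.mem_insert, Finset.mem_singleton, not_or] at hx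
    simp [del_off hx.1, del_off hx.2.1, del_off hx.2.2.1, del_off hx.2.2.2]
  · simp only [Pi.add_apply, Finset.sum_add_distrib, sum_del]
    norm_num

/-- Three points on a line, one with a parallel element, and two points off the line. -/
lemma obs_c (hH : IsHilbert S) {a r b c u v : α}
    (hS : ∀ F ∈ S, F ⊆ {r, b, c, u, v} → F.card = 3 ∨ F.card = 4)
    (p0 : del a + del r ∈ Lat S)
    (q1 : del r + del c + del u + del v ∈ Lat S)
    (q2 : del r + del b + del u + del v ∈ Lat S)
    (q3 : del b + del c + del u + del v ∈ Lat S)
    (q4 : del a + del b + del c ∈ Lat S)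
    (c1 : del r + del b + del c ∈ Cone S)
    (c2 : del r + del b + del u + del v ∈ Cone S)
    (c3 : del r + del c + del u + del v ∈ Cone S)
    (c4 : del b + del c + del u + del v ∈ Cone S) : False := by
  refine obstruct34 (A := {r, b, c, u, v})
    (p := del r + del b + del c + del u + del v) hS ?_ ?_ ?_ (sum_five r b c u v) hH
  · have := Cone.smul (r := 1 / 3) (by norm_num) (Cone.add (Cone.add (Cone.add c1 c2) c3) c4)
    convert this using 1
    module
  · have := Lat.add (Lat.add (Lat.add (Lat.add q1 q2) (Lat.smul (-1) q3)) (Lat.smul (-1) p0)) q4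
    convert this using 1
    push_cast
    module
  · intro x hx
    simp only [Finset.mem_insert, Finset.mem_singleton, not_or] at hx
    simp [del_off hx.1, del_off hx.2.1, del_off hx.2.2.1, del_off hx.2.2.2.1,
      del_off hx.2.2.2.2]

/-- Three points on a line and two points off the line, both with a parallel element. -/
lemma obs_d (hH : IsHilbert S) {a a' r b c u v : α}
    (hS : ∀ F ∈ S, F ⊆ {r, b, c, u, v} → F.card = 3 ∨ F.card = 4)
    (p0 : del a + del u ∈ Lat S) (p1 : del a' + del v ∈ Lat S)
    (q1 : del r + del b + del u + del v ∈ Lat S)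
    (q2 : del r + del c + del u + del v ∈ Lat S)
    (q3 : del b + del c + del u + del v ∈ Lat S)
    (q4 : del r + del b + del c ∈ Lat S)
    (q5 : del r + del b + del a + del v ∈ Lat S)
    (q6 : del r + del b + del u + del a' ∈ Lat S)
    (c1 : del r + del b + del c ∈ Cone S)
    (c2 : del r + del b + del u + del v ∈ Cone S)
    (c3 : del r + del c + del u + del v ∈ Cone S)
    (c4 : del b + del c + del u + del v ∈ Cone S) : False := by
  refine obstruct34 (A := {r, b, c, u, v})
    (p := del r + del b + del c + del u + del v) hS ?_ ?_ ?_ (sum_five r b c u v) hH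
  · have := Cone.smul (r := 1 / 3) (by norm_num) (Cone.add (Cone.add (Cone.add c1 c2) c3) c4)
    convert this using 1
    module
  · have := Lat.add (Lat.add (Lat.add (Lat.add (Lat.add (Lat.add (Lat.add q2 q3) q5) q6)
      (Lat.smul (-1) p0)) (Lat.smul (-1) p1)) (Lat.smul (-1) q4)) (Lat.smul (-1) q1)
    convert this using 1
    push_cast
    module
  · intro x hx
    simp only [Finset.mem_insert, Finset.mem_singleton, not_or] at hx
    simp [del_off hx.1, del_off hx.2.1, del_off hx.2.2.1, del_off hx.2.2.2.1,
      del_off hx.2.2.2.2]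

end Pool.Agent.L5helper89.HB
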