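import Pool.Agent.L5helper89.HB.Suff

/-!
# Sufficiency for a line, a parallel class and one more point
-/

set_option autoImplicit false
set_option linter.unusedSectionVars false
set_option linter.unusedVariables false

namespace Pool.Agent.L5helper89.HB

open Finset

variable {α : Type} [Fintype α] [DecidableEq α] {S : Set (Finset α)}

/-- A weight that is constant on three parts. -/
def wt (L P Q : Finset α) (s t u : ℚ) (e : α) : ℚ :=
  (if e ∈ L then s else 0) + (if e ∈ P then t else 0) + (if e ∈ Q then u else 0)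

lemma sum_wt (L P Q F : Finset α) (s t u : ℚ) :
    ∑ e ∈ F, wt L P Q s t u e = s * (F ∩ L).card + t * (F ∩ P).card + u * (F ∩ Q).card := by
  have key : ∀ (A : Finset α) (s : ℚ), ∑ e ∈ F, (if e ∈ A then s else 0) = s * (F ∩ A).card := by
    intro A s
    rw [← Finset.sum_filter, Finset.filter_mem_eq_inter]
    simp only [Finset.sum_const, nsmul_eq_mul]
    ring
  unfold wt
  rw [Finset.sum_add_distrib, Finset.sum_add_distrib, key, key, key]

lemma sum_wt_mul (L P Q : Finset α) (s t u : ℚ) (x : α → ℚ) :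
    ∑ e, wt L P Q s t u e * x e = s * ∑ e ∈ L, x e + t * ∑ e ∈ P, x e + u * ∑ e ∈ Q, x e := by
  have key : ∀ (A : Finset α) (s : ℚ), ∑ e, (if e ∈ A then s else 0) * x e = s * ∑ e ∈ A, x e := by
    intro A s
    rw [Finset.mul_sum, ← Finset.sum_subset (Finset.subset_univ A)]
    · exact Finset.sum_congr rfl fun e he => by simp [he]
    · intro e _ he
      simp [he]
  unfold wt
  simp only [add_mul, Finset.sum_add_distrib, key]

lemma suff_three (L P Q : Finset α) (hLP : Disjoint L P) (hLQ : Disjoint L Q)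
    (hPQ : Disjoint P Q) (hU : L ∪ P ∪ Q = Finset.univ) (hQ1 : Q.card ≤ 1)
    (hP2 : ∀ F ⊆ P, F.card = 2 → F ∈ S) (hL3 : ∀ F ⊆ L, F.card = 3 → F ∈ S)
    (h4 : ∀ F ⊆ L, ∀ G ⊆ P, F.card = 2 → G.card = 1 → Q.card = 1 → F ∪ G ∪ Q ∈ S)
    (hS : ∀ F ∈ S, ((F ∩ L).card = 0 ∧ (F ∩ P).card = 2 ∧ (F ∩ Q).card = 0) ∨
      ((F ∩ L).card = 3 ∧ (F ∩ P).card = 0 ∧ (F ∩ Q).card = 0) ∨
      ((F ∩ L).card = 2 ∧ (F ∩ P).card = 1 ∧ (F ∩ Q).card = 1)) : IsHilbert S := by
  refine Set.Subset.antisymm intCone_subset ?_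
  rintro p ⟨hc, hl⟩
  obtain ⟨x, rfl⟩ := exists_nat hc hl
  set l := ∑ e ∈ L, x e with hldef
  set a := ∑ e ∈ P, x e with hadef
  set q := ∑ e ∈ Q, x e with hqdef
  -- linear inequalities
  have gen : ∀ (s t u r : ℚ) (b : α), (∀ F ∈ S, (if b ∈ F then r else 0) ≤
      s * (F ∩ L).card + t * (F ∩ P).card + u * (F ∩ Q).card) →
      r * x b ≤ s * l + t * a + u * q := by
    intro s t u r b hr
    have h5 := cone_ineq (S := S) (fun e => wt L P Q s t u e - if e = b then r else 0) (by
      intro F hF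
      rw [Finset.sum_sub_distrib, sum_wt, Finset.sum_ite_eq']
      have := hr F hF
      linarith) hc
    have h6 : ∑ e, (wt L P Q s t u e - if e = b then r else 0) * (x e : ℚ) =
        (s * ∑ e ∈ L, (x e : ℚ) + t * ∑ e ∈ P, (x e : ℚ) + u * ∑ e ∈ Q, (x e : ℚ)) -
          r * x b := by
      rw [← sum_wt_mul]
      simp only [sub_mul, Finset.sum_sub_distrib, ite_mul, zero_mul, Finset.sum_ite_eq',
        Finset.mem_univ, if_true]
    rw [h6] at h5
    rw [hldef, hadef, hqdef]
    push_cast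
    linarith
  have gen0 : ∀ (s t u : ℚ), (∀ F ∈ S, 0 ≤
      s * (F ∩ L).card + t * (F ∩ P).card + u * (F ∩ Q).card) → 0 ≤ s * l + t * a + u * q := by
    intro s t u hr
    have h5 := cone_ineq (S := S) (fun e => wt L P Q s t u e) (by
      intro F hF
      rw [sum_wt]
      exact hr F hF) hc
    rw [sum_wt_mul] at h5
    rw [hldef, hadef, hqdef]
    push_cast
    linarith
  have hone : ∀ (A : Finset α), ∀ b ∈ A, ∀ F : Finset α, b ∈ F → (F ∩ A).card ≠ 0 := by
    intro A b hb F hbF h0
    rw [Finset.card_eq_zero] at h0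
    have : b ∈ F ∩ A := Finset.mem_inter.mpr ⟨hbF, hb⟩
    rw [h0] at this
    simp at this
  have i1 : q ≤ a := by
    have := gen0 0 1 (-1) (by
      intro F hF
      rcases hS F hF with h | h | h
      · rw [h.1, h.2.1, h.2.2]; norm_num
      · rw [h.1, h.2.1, h.2.2]; norm_num
      · rw [h.1, h.2.1, h.2.2]; norm_num)
    have h2 : (q : ℚ) ≤ a := by linarith
    exact_mod_cast h2
  have i2 : 2 * q ≤ l := by
    have := gen0 1 0 (-2) (by
      intro F hF
      rcases hS F hF with h | h | h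
      · rw [h.1, h.2.1, h.2.2]; norm_num
      · rw [h.1, h.2.1, h.2.2]; norm_num
      · rw [h.1, h.2.1, h.2.2]; norm_num)
    have h2 : ((2 * q : ℕ) : ℚ) ≤ l := by push_cast; linarith
    exact_mod_cast h2
  have i3 : ∀ b ∈ P, 2 * x b ≤ a + q := by
    intro b hb
    have := gen 0 1 1 2 b (by
      intro F hF
      have h8 := hone P b hb F
      rcases hS F hF with h | h | h
      · rw [h.1, h.2.1, h.2.2]; split_ifs <;> norm_num
      · have : b ∉ F := fun h9 => h8 h9 h.2.1
        simp only [this, if_false]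
        positivity
      · rw [h.1, h.2.1, h.2.2]; split_ifs <;> norm_num)
    have h2 : ((2 * x b : ℕ) : ℚ) ≤ ((a + q : ℕ) : ℚ) := by push_cast; linarith
    exact_mod_cast h2
  have i4 : ∀ b ∈ L, 3 * x b ≤ l + q := by
    intro b hb
    have := gen 1 0 1 3 b (by
      intro F hF
      have h8 := hone L b hb F
      rcases hS F hF with h | h | h
      · have : b ∉ F := fun h9 => h8 h9 h.1
        simp only [this, if_false]
        positivity
      · rw [h.1, h.2.1, h.2.2]; split_ifs <;> norm_num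
      · rw [h.1, h.2.1, h.2.2]; split_ifs <;> norm_num)
    have h2 : ((3 * x b : ℕ) : ℚ) ≤ ((l + q : ℕ) : ℚ) := by push_cast; linarith
    exact_mod_cast h2
  -- congruences
  have cong : ∀ (s t u : ℤ) (m : ℤ), (∀ F ∈ S, m ∣
      s * (F ∩ L).card + t * (F ∩ P).card + u * (F ∩ Q).card) →
      m ∣ s * (l : ℤ) + t * (a : ℤ) + u * (q : ℤ) := by
    intro s t u m hm
    set w : α → ℤ := fun e => (if e ∈ L then s else 0) + (if e ∈ P then t else 0) +
      (if e ∈ Q then u else 0) with hw
    have hwt : ∀ e, (w e : ℚ) = wt L P Q s t u e := by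
      intro e
      simp only [hw, wt]
      push_cast
      rfl
    have h5 := lat_dvd (S := S) (x := fun e => ((x e : ℕ) : ℤ)) w m (by
      intro F hF
      have h6 : ∑ e ∈ F, w e = s * (F ∩ L).card + t * (F ∩ P).card + u * (F ∩ Q).card := by
        have h7 : ((∑ e ∈ F, w e : ℤ) : ℚ) =
            ((s * (F ∩ L).card + t * (F ∩ P).card + u * (F ∩ Q).card : ℤ) : ℚ) := by
          push_cast
          rw [← sum_wt]
          exact Finset.sum_congr rfl fun e _ => hwt e
        exact_mod_cast h7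
      rw [h6]
      exact hm F hF) (by simpa using hl)
    have h8 : ∑ e, w e * ((x e : ℕ) : ℤ) = s * (l : ℤ) + t * (a : ℤ) + u * (q : ℤ) := by
      have h9 : ((∑ e, w e * ((x e : ℕ) : ℤ) : ℤ) : ℚ) =
          ((s * (l : ℤ) + t * (a : ℤ) + u * (q : ℤ) : ℤ) : ℚ) := by
        push_cast
        rw [hldef, hadef, hqdef]
        push_cast
        rw [← sum_wt_mul]
        exact Finset.sum_congr rfl fun e _ => by rw [hwt e]
      exact_mod_cast h9
    rw [← h8]
    exact h5
  have j1 : (2 : ℤ) ∣ 0 * (l : ℤ) + 1 * (a : ℤ) + (-1) * (q : ℤ) := by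
    refine cong 0 1 (-1) 2 ?_
    intro F hF
    rcases hS F hF with h | h | h
    · rw [h.1, h.2.1, h.2.2]; norm_num
    · rw [h.1, h.2.1, h.2.2]; norm_num
    · rw [h.1, h.2.1, h.2.2]; norm_num
  have j2 : (3 : ℤ) ∣ 1 * (l : ℤ) + 0 * (a : ℤ) + (-2) * (q : ℤ) := by
    refine cong 1 0 (-2) 3 ?_
    intro F hF
    rcases hS F hF with h | h | h
    · rw [h.1, h.2.1, h.2.2]; norm_num
    · rw [h.1, h.2.1, h.2.2]; norm_num
    · rw [h.1, h.2.1, h.2.2]; norm_num
  obtain ⟨m, hm⟩ : ∃ m : ℕ, a = 2 * m + q := ⟨(a - q) / 2, by omega⟩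
  obtain ⟨k, hk⟩ : ∃ k : ℕ, l = 3 * k + 2 * q := ⟨(l - 2 * q) / 3, by omega⟩
  obtain ⟨A, B, hA, hB, hAB⟩ := decomp 1 P m q (fun e => if e ∈ P then x e else 0) (by
      intro e
      by_cases h : e ∈ P
      · have := i3 e h
        simp only [h, if_true]; omega
      · simp [h]) (by
      intro e he
      simp [he]) (by
      have : ∑ e ∈ P, (if e ∈ P then x e else 0) = ∑ e ∈ P, x e :=
        Finset.sum_congr rfl fun e he => by simp [he]
      rw [this, ← hadef, hm]; ring)
  obtain ⟨C, D, hC, hD, hCD⟩ := decomp 2 L k q (fun e => if e ∈ L then x e else 0) (by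
      intro e
      by_cases h : e ∈ L
      · have := i4 e h
        simp only [h, if_true]; omega
      · simp [h]) (by
      intro e he
      simp [he]) (by
      have : ∑ e ∈ L, (if e ∈ L then x e else 0) = ∑ e ∈ L, x e :=
        Finset.sum_congr rfl fun e he => by simp [he]
      rw [this, ← hldef, hk])
  have hQx : (fun e => ((if e ∈ Q then x e else 0 : ℕ) : ℚ)) =
      ∑ i ∈ Finset.range q, chi Q := by
    ext e
    simp only [Finset.sum_const, Finset.card_range, Pi.smul_apply, nsmul_eq_mul, chi]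
    by_cases h : e ∈ Q
    · have hQe : Q = {e} := by
        have := Finset.card_le_one.mp hQ1
        ext y
        simp only [Finset.mem_singleton]
        exact ⟨fun hy => this y hy e h, fun hy => hy ▸ h⟩
      have : q = x e := by rw [hqdef, hQe]; simp
      simp [h, this]
    · simp [h]
  have hsplit : (fun e => (x e : ℚ)) = (fun e => ((if e ∈ P then x e else 0 : ℕ) : ℚ)) +
      (fun e => ((if e ∈ L then x e else 0 : ℕ) : ℚ)) +
      fun e => ((if e ∈ Q then x e else 0 : ℕ) : ℚ) := by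
    ext e
    have hu : e ∈ L ∪ P ∪ Q := by rw [hU]; simp
    rw [Finset.mem_union, Finset.mem_union] at hu
    have d1 : e ∈ L → e ∉ P := fun h => Finset.disjoint_left.mp hLP h
    have d2 : e ∈ L → e ∉ Q := fun h => Finset.disjoint_left.mp hLQ h
    have d3 : e ∈ P → e ∉ Q := fun h => Finset.disjoint_left.mp hPQ h
    rcases hu with (h | h) | h
    · simp [h, d1 h, d2 h]
    · have : e ∉ L := fun h2 => d1 h2 h
      simp [h, this, d3 h]
    · have h5 : e ∉ L := fun h2 => d2 h2 h
      have h6 : e ∉ P := fun h2 => d3 h2 h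
      simp [h, h5, h6]
  have hsum : ∑ i ∈ Finset.range q, chi (D i ∪ B i ∪ Q) =
      ∑ i ∈ Finset.range q, chi (D i) + ∑ i ∈ Finset.range q, chi (B i) +
        ∑ i ∈ Finset.range q, chi Q := by
    rw [← Finset.sum_add_distrib, ← Finset.sum_add_distrib]
    refine Finset.sum_congr rfl fun i hi => ?_
    have hi' := Finset.mem_range.mp hi
    rw [chi_union, chi_union]
    · exact Finset.disjoint_of_subset_left (hD i hi').1
        (Finset.disjoint_of_subset_right (hB i hi').1 hLP)
    · rw [Finset.disjoint_union_left]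
      exact ⟨Finset.disjoint_of_subset_left (hD i hi').1 hLQ,
        Finset.disjoint_of_subset_left (hB i hi').1 hPQ⟩
  have hfin : (fun e => (x e : ℚ)) = (∑ i ∈ Finset.range m, chi (A i) +
      ∑ i ∈ Finset.range k, chi (C i)) + ∑ i ∈ Finset.range q, chi (D i ∪ B i ∪ Q) := by
    rw [hsplit, hAB, hCD, hQx, hsum]
    abel
  rw [hfin]
  refine IntCone.add (IntCone.add ?_ ?_) ?_
  · refine IntCone.sum _ _ fun i hi => IntCone.chi ?_
    have := hA i (Finset.mem_range.mp hi)
    exact hP2 _ this.1 this.2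
  · refine IntCone.sum _ _ fun i hi => IntCone.chi ?_
    have := hC i (Finset.mem_range.mp hi)
    exact hL3 _ this.1 this.2
  · refine IntCone.sum _ _ fun i hi => IntCone.chi ?_
    have hi' := Finset.mem_range.mp hi
    have h5 := hD i hi'
    have h6 := hB i hi'
    refine h4 _ h5.1 _ h6.1 h5.2 h6.2 ?_
    have hq0 : Q.card ≠ 0 := by
      intro h0
      rw [Finset.card_eq_zero] at h0
      have : q = 0 := by rw [hqdef, h0]; simp
      omega
    omega

end Pool.Agent.L5helper89.HB
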