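import Pool.Agent.L5helper89.HB.U24
import Pool.Agent.L5helper89.HB.Par
import Pool.Agent.L5helper89.HB.Suff3

/-!
# Loopless nonbinary matroids of rank three
-/

set_option autoImplicit false
set_option linter.unusedSectionVars false
set_option linter.unusedVariables false

namespace Pool.Agent.L5helper89.HB

open Finset

variable {α : Type} [Fintype α] [DecidableEq α] {M : Matroid α}

section

variable {β : Type} [Fintype β] [DecidableEq β] (ι : β ↪ α) (κ : α → β)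

/-- The family of circuits, the class map `κ` and the representatives `ι`. -/
structure Setup (M : Matroid α) (ι : β ↪ α) (κ : α → β) : Prop where
  hE : M.E = Set.univ
  hr : M.eRank = 3
  hl : ∀ a, M.Indep {a}
  kι : ∀ b, κ (ι b) = b
  pair : ∀ a b, a ≠ b → (¬ M.Indep {a, b} ↔ κ a = κ b)
  colk : ∀ a b c, col M a b c ↔ col M (ι (κ a)) (ι (κ b)) (ι (κ c))

variable {ι κ}

lemma Setup.indep (h : Setup M ι κ) (x y : β) : M.Indep {ι x, ι y} := by
  by_cases hxy : x = y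
  · subst hxy
    simpa using h.hl (ι x)
  · by_contra hcon
    have := (h.pair (ι x) (ι y) (fun e => hxy (ι.injective e))).mp hcon
    rw [h.kι, h.kι] at this
    exact hxy this

lemma Setup.col_repr (h : Setup M ι κ) (a b c : α) :
    col M a b c ↔ col M (ι (κ a)) (ι (κ b)) (ι (κ c)) := h.colk a b c

/-- The relation on classes. -/
def colβ (M : Matroid α) (ι : β ↪ α) (x y z : β) : Prop := col M (ι x) (ι y) (ι z)

lemma Setup.ax (h : Setup M ι κ) : ColAx (colβ M ι) := colAx h.hE ι h.indep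

lemma Setup.fam (h : Setup M ι κ) : Fam (colβ M ι) {F | F.map ι ∈ circ M} :=
  HB.fam h.hE h.hr ι h.indep

lemma Setup.mem2 (h : Setup M ι κ) {a b : α} (hab : a ≠ b) (hk : κ a = κ b) :
    ({a, b} : Finset α) ∈ circ M :=
  circ2 h.hE h.hl hab ((h.pair a b hab).mpr hk)

lemma Setup.mem3 (h : Setup M ι κ) {a b c : α} (hab : κ a ≠ κ b) (hac : κ a ≠ κ c)
    (hbc : κ b ≠ κ c) (hc : colβ M ι (κ a) (κ b) (κ c)) : ({a, b, c} : Finset α) ∈ circ M := by
  have n1 : a ≠ b := fun e => hab (by rw [e])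
  have n2 : a ≠ c := fun e => hac (by rw [e])
  have n3 : b ≠ c := fun e => hbc (by rw [e])
  have i1 : M.Indep {a, b} := by
    by_contra hcon
    exact hab ((h.pair a b n1).mp hcon)
  have i2 : M.Indep {a, c} := by
    by_contra hcon
    exact hac ((h.pair a c n2).mp hcon)
  have i3 : M.Indep {b, c} := by
    by_contra hcon
    exact hbc ((h.pair b c n3).mp hcon)
  have h5 : col M a b c := (h.colk a b c).mpr hc
  show M.IsCircuit _
  have e : (({a, b, c} : Finset α) : Set α) = {a, b, c} := by simp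
  rw [e]
  refine circ3 h.hE i1 i2 i3 ?_
  rcases h5 with h5 | h5 | h5 | h5
  · exact absurd h5 n1
  · exact absurd h5 n2
  · exact absurd h5 n3
  · exact h5

lemma Setup.mem4 (h : Setup M ι κ) {a b c d : α} (h1 : ¬ colβ M ι (κ a) (κ b) (κ c))
    (h2 : ¬ colβ M ι (κ a) (κ b) (κ d)) (h3 : ¬ colβ M ι (κ a) (κ c) (κ d))
    (h4 : ¬ colβ M ι (κ b) (κ c) (κ d)) : ({a, b, c, d} : Finset α) ∈ circ M := by
  have g1 : ¬ col M a b c := fun e => h1 ((h.colk a b c).mp e)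
  have g2 : ¬ col M a b d := fun e => h2 ((h.colk a b d).mp e)
  have g3 : ¬ col M a c d := fun e => h3 ((h.colk a c d).mp e)
  have g4 : ¬ col M b c d := fun e => h4 ((h.colk b c d).mp e)
  unfold col at g1 g2 g3 g4
  push Not at g1 g2 g3 g4
  show M.IsCircuit _
  have e : (({a, b, c, d} : Finset α) : Set α) = {a, b, c, d} := by simp
  rw [e]
  exact circ4 h.hE h.hr g1.1 g1.2.1 g2.2.1 g1.2.2.1 g2.2.2.1 g3.2.2.1 g1.2.2.2 g2.2.2.2 g3.2.2.2
    g4.2.2.2

lemma Setup.s2 (h : Setup M ι κ) {a b : α} (hab : a ≠ b) (hk : κ a = κ b) :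
    del a + del b ∈ Lat (circ M) := by
  have := Lat.chi (h.mem2 hab hk)
  rwa [chi_insert (by simpa using hab)] at this

lemma Setup.s3 (h : Setup M ι κ) {a b c : α} (hab : κ a ≠ κ b) (hac : κ a ≠ κ c)
    (hbc : κ b ≠ κ c) (hc : colβ M ι (κ a) (κ b) (κ c)) :
    del a + del b + del c ∈ Lat (circ M) ∧ del a + del b + del c ∈ Cone (circ M) := by
  have := h.mem3 hab hac hbc hc
  rw [← chi3 (fun e => hab (by rw [e])) (fun e => hac (by rw [e])) (fun e => hbc (by rw [e]))]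
  exact ⟨Lat.chi this, Cone.chi this⟩

lemma Setup.s4 (h : Setup M ι κ) {a b c d : α} (h1 : ¬ colβ M ι (κ a) (κ b) (κ c))
    (h2 : ¬ colβ M ι (κ a) (κ b) (κ d)) (h3 : ¬ colβ M ι (κ a) (κ c) (κ d))
    (h4 : ¬ colβ M ι (κ b) (κ c) (κ d)) :
    del a + del b + del c + del d ∈ Lat (circ M) ∧
      del a + del b + del c + del d ∈ Cone (circ M) := by
  have := h.mem4 h1 h2 h3 h4
  have g1 := ne_of_not_col h.ax h1
  have g2 := ne_of_not_col h.ax h2
  have g3 := ne_of_not_col h.ax h3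
  rw [← chi4 (fun e => g1.1 (by rw [e])) (fun e => g1.2.1 (by rw [e]))
    (fun e => g2.2.1 (by rw [e])) (fun e => g1.2.2 (by rw [e])) (fun e => g2.2.2 (by rw [e]))
    (fun e => g3.2.2 (by rw [e]))]
  exact ⟨Lat.chi this, Cone.chi this⟩

/-- Circuits inside a set of representatives. -/
lemma Setup.sizes (h : Setup M ι κ) {A : Finset α} (hA : ∀ e ∈ A, ι (κ e) = e)
    {F : Finset α} (hF : F ∈ circ M) (hFA : F ⊆ A) :
    ∃ G : Finset β, G.map ι = F ∧ (G.card = 3 ∨ G.card = 4) := by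
  have hG : (F.image κ).map ι = F := by
    ext e
    simp only [Finset.mem_map, Finset.mem_image]
    constructor
    · rintro ⟨x, ⟨y, hy, rfl⟩, rfl⟩
      rw [hA y (hFA hy)]
      exact hy
    · intro he
      exact ⟨κ e, ⟨e, he, rfl⟩, hA e (hFA he)⟩
  refine ⟨F.image κ, hG, h.fam.card _ ?_⟩
  show (F.image κ).map ι ∈ circ M
  rw [hG]
  exact hF

lemma Setup.size34 (h : Setup M ι κ) {A : Finset α} (hA : ∀ e ∈ A, ι (κ e) = e) :
    ∀ F ∈ circ M, F ⊆ A → F.card = 3 ∨ F.card = 4 := by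
  intro F hF hFA
  obtain ⟨G, rfl, hG⟩ := h.sizes hA hF hFA
  rwa [Finset.card_map]

/-- A representative that has another element in its class. -/
def Extra (ι : β ↪ α) (κ : α → β) (r : β) : Prop := ∃ a : α, κ a = r ∧ a ≠ ι r

/-- (a) uniform case -/
lemma Setup.no_extra_a (h : Setup M ι κ) (hH : IsHilbert (circ M))
    (hU : ∀ x y z : β, x ≠ y → x ≠ z → y ≠ z → ¬ colβ M ι x y z) {r b c d e : β}
    (hrb : r ≠ b) (hrc : r ≠ c) (hrd : r ≠ d) (hre : r ≠ e) (hbc : b ≠ c) (hbd : b ≠ d)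
    (hbe : b ≠ e) (hcd : c ≠ d) (hce : c ≠ e) (hde : d ≠ e) : ¬ Extra ι κ r := by
  rintro ⟨a, hk, ha⟩
  have K := h.kι
  have quad : ∀ x y z w : α, κ x ≠ κ y → κ x ≠ κ z → κ x ≠ κ w → κ y ≠ κ z → κ y ≠ κ w →
      κ z ≠ κ w → del x + del y + del z + del w ∈ Lat (circ M) ∧
      del x + del y + del z + del w ∈ Cone (circ M) := by
    intro x y z w a1 a2 a3 a4 a5 a6
    exact h.s4 (hU _ _ _ a1 a2 a4) (hU _ _ _ a1 a3 a5) (hU _ _ _ a2 a3 a6) (hU _ _ _ a4 a5 a6)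
  refine obs_a (a := a) (r := ι r) (b := ι b) (c := ι c) (d := ι d) (e := ι e) hH ?_ ?_
    (quad _ _ _ _ ?_ ?_ ?_ ?_ ?_ ?_).1 (quad _ _ _ _ ?_ ?_ ?_ ?_ ?_ ?_).1
    (quad _ _ _ _ ?_ ?_ ?_ ?_ ?_ ?_).1 (quad _ _ _ _ ?_ ?_ ?_ ?_ ?_ ?_).2
    (quad _ _ _ _ ?_ ?_ ?_ ?_ ?_ ?_).2 (quad _ _ _ _ ?_ ?_ ?_ ?_ ?_ ?_).2
    (quad _ _ _ _ ?_ ?_ ?_ ?_ ?_ ?_).2 (quad _ _ _ _ ?_ ?_ ?_ ?_ ?_ ?_).2
  · intro F hF hFA
    have hA : ∀ x ∈ ({ι r, ι b, ι c, ι d, ι e} : Finset α), ι (κ x) = x := by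
      intro x hx
      simp only [Finset.mem_insert, Finset.mem_singleton] at hx
      rcases hx with rfl | rfl | rfl | rfl | rfl <;> rw [K]
    obtain ⟨G, hG, hG2⟩ := h.sizes hA hF hFA
    rcases hG2 with h3 | h3
    · exfalso
      obtain ⟨x, y, z, hxy, hxz, hyz, rfl⟩ := Finset.card_eq_three.mp h3
      have h4 : ¬ M.Indep {ι x, ι y, ι z} := by
        have h5 : M.IsCircuit (F : Set α) := hF
        rw [← hG] at h5
        have := h5.dep.not_indep
        simpa using this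
      exact hU x y z hxy hxz hyz (Or.inr (Or.inr (Or.inr h4)))
    · rw [← hG, Finset.card_map]
      exact h3
  · exact h.s2 ha (by rw [hk, K])
  all_goals (simp only [K, hk]; assumption)

/-- (b) four points on a line -/
lemma Setup.no_extra_b (h : Setup M ι κ) (hH : IsHilbert (circ M)) {r b c d : β}
    (hrb : r ≠ b) (hrc : r ≠ c) (hrd : r ≠ d) (hbc : b ≠ c) (hbd : b ≠ d) (hcd : c ≠ d)
    (h1 : colβ M ι r b c) (h2 : colβ M ι r b d) : ¬ Extra ι κ r := by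
  rintro ⟨a, hk, ha⟩
  have K := h.kι
  have s1 := h.ax.s1
  have s2 := h.ax.s2
  have tr := h.ax.tr
  have dg := h.ax.dg
  have h3 : colβ M ι r c d := by grind
  have h4 : colβ M ι b c d := by grind
  refine obs_b (a := a) (r := ι r) (b := ι b) (c := ι c) (d := ι d) hH ?_ ?_
    (h.s3 ?_ ?_ ?_ ?_).1 (h.s3 ?_ ?_ ?_ ?_).1 (h.s3 ?_ ?_ ?_ ?_).1 (h.s3 ?_ ?_ ?_ ?_).1
    (h.s3 ?_ ?_ ?_ ?_).2 (h.s3 ?_ ?_ ?_ ?_).2 (h.s3 ?_ ?_ ?_ ?_).2 (h.s3 ?_ ?_ ?_ ?_).2
  · intro F hF hFA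
    have hA : ∀ x ∈ ({ι r, ι b, ι c, ι d} : Finset α), ι (κ x) = x := by
      intro x hx
      simp only [Finset.mem_insert, Finset.mem_singleton] at hx
      rcases hx with rfl | rfl | rfl | rfl <;> rw [K]
    obtain ⟨G, hG, hG2⟩ := h.sizes hA hF hFA
    rcases hG2 with h5 | h5
    · rw [← hG, Finset.card_map]
      exact h5
    · exfalso
      have hF4 : F.card = 4 := by rw [← hG, Finset.card_map]; exact h5
      have hFe : F = {ι r, ι b, ι c, ι d} :=
        Finset.eq_of_subset_of_card_le hFA (by rw [hF4]; exact Finset.card_le_four)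
      have hm : ({ι r, ι b, ι c} : Finset α) ∈ circ M :=
        h.mem3 (by simpa [K] using hrb) (by simpa [K] using hrc) (by simpa [K] using hbc)
          (by simpa [K] using h1)
      have h6 : ({ι r, ι b, ι c} : Finset α) ⊆ F := by
        rw [hFe]
        intro x hx
        simp only [Finset.mem_insert, Finset.mem_singleton] at hx ⊢
        tauto
      have h7 : (({ι r, ι b, ι c} : Finset α) : Set α) = F :=
        Matroid.IsCircuit.eq_of_subset_isCircuit hm hF (Finset.coe_subset.mpr h6)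
      have h8 : ({ι r, ι b, ι c} : Finset α) = F := Finset.coe_injective h7
      have h9 : ({ι r, ι b, ι c} : Finset α).card ≤ 3 := Finset.card_le_three
      rw [h8] at h9
      omega
  · exact h.s2 ha (by rw [hk, K])
  all_goals (simp only [K, hk]; assumption)

/-- (c) three points on a line and two points off the line -/
lemma Setup.no_extra_c (h : Setup M ι κ) (hH : IsHilbert (circ M)) (hN : NoTheta (colβ M ι))
    {r b c u v : β} (hrb : r ≠ b) (hrc : r ≠ c) (hbc : b ≠ c) (huv : u ≠ v)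
    (h1 : colβ M ι r b c) (hu : ¬ colβ M ι r b u) (hv : ¬ colβ M ι r b v) : ¬ Extra ι κ r := by
  rintro ⟨a, hk, ha⟩
  have K := h.kι
  have s1 := h.ax.s1
  have s2 := h.ax.s2
  have tr := h.ax.tr
  have dg := h.ax.dg
  have nu := ne_of_not_col h.ax hu
  have nv := ne_of_not_col h.ax hv
  have k1 : ¬ colβ M ι r u v := fun e => hu (hN r b c u v hrb hrc hbc nu.2.1 nv.2.1 huv h1 e)
  have k2 : ¬ colβ M ι b u v := by
    intro e
    have := hN b r c u v hrb.symm hbc hrc nu.2.2 nv.2.2 huv (s1 _ _ _ h1) e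
    exact hu (s1 _ _ _ this)
  have hcu : c ≠ u := by
    rintro rfl
    exact hu h1
  have hcv : c ≠ v := by
    rintro rfl
    exact hv h1
  have k3 : ¬ colβ M ι c u v := by
    intro e
    have := hN c r b u v hrc.symm hbc.symm hrb hcu hcv huv (by grind) e
    exact hu (by grind)
  have k4 : ¬ colβ M ι r c u := by grind
  have k5 : ¬ colβ M ι r c v := by grind
  have k6 : ¬ colβ M ι b c u := by grind
  have k7 : ¬ colβ M ι b c v := by grind
  refine obs_c (a := a) (r := ι r) (b := ι b) (c := ι c) (u := ι u) (v := ι v) hH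
    (h.size34 ?_) ?_
    (h.s4 ?_ ?_ ?_ ?_).1 (h.s4 ?_ ?_ ?_ ?_).1 (h.s4 ?_ ?_ ?_ ?_).1 (h.s3 ?_ ?_ ?_ ?_).1
    (h.s3 ?_ ?_ ?_ ?_).2 (h.s4 ?_ ?_ ?_ ?_).2 (h.s4 ?_ ?_ ?_ ?_).2 (h.s4 ?_ ?_ ?_ ?_).2
  · intro x hx
    simp only [Finset.mem_insert, Finset.mem_singleton] at hx
    rcases hx with rfl | rfl | rfl | rfl | rfl <;> rw [K]
  · exact h.s2 ha (by rw [hk, K])
  all_goals (simp only [K, hk]; assumption)

/-- (d) two points off the line -/
lemma Setup.no_extra_d (h : Setup M ι κ) (hH : IsHilbert (circ M)) (hN : NoTheta (colβ M ι))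
    {r b c u v : β} (hrb : r ≠ b) (hrc : r ≠ c) (hbc : b ≠ c) (huv : u ≠ v)
    (h1 : colβ M ι r b c) (hu : ¬ colβ M ι r b u) (hv : ¬ colβ M ι r b v) :
    ¬ (Extra ι κ u ∧ Extra ι κ v) := by
  rintro ⟨⟨a, hk, ha⟩, ⟨a', hk', ha'⟩⟩
  have K := h.kι
  have s1 := h.ax.s1
  have s2 := h.ax.s2
  have tr := h.ax.tr
  have dg := h.ax.dg
  have nu := ne_of_not_col h.ax hu
  have nv := ne_of_not_col h.ax hv
  have k1 : ¬ colβ M ι r u v := fun e => hu (hN r b c u v hrb hrc hbc nu.2.1 nv.2.1 huv h1 e)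
  have k2 : ¬ colβ M ι b u v := by
    intro e
    have := hN b r c u v hrb.symm hbc hrc nu.2.2 nv.2.2 huv (s1 _ _ _ h1) e
    exact hu (s1 _ _ _ this)
  have hcu : c ≠ u := by
    rintro rfl
    exact hu h1
  have hcv : c ≠ v := by
    rintro rfl
    exact hv h1
  have k3 : ¬ colβ M ι c u v := by
    intro e
    have := hN c r b u v hrc.symm hbc.symm hrb hcu hcv huv (by grind) e
    exact hu (by grind)
  have k4 : ¬ colβ M ι r c u := by grind
  have k5 : ¬ colβ M ι r c v := by grind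
  have k6 : ¬ colβ M ι b c u := by grind
  have k7 : ¬ colβ M ι b c v := by grind
  refine obs_d (a := a) (a' := a') (r := ι r) (b := ι b) (c := ι c) (u := ι u) (v := ι v) hH
    (h.size34 ?_) ?_ ?_
    (h.s4 ?_ ?_ ?_ ?_).1 (h.s4 ?_ ?_ ?_ ?_).1 (h.s4 ?_ ?_ ?_ ?_).1 (h.s3 ?_ ?_ ?_ ?_).1
    (h.s4 ?_ ?_ ?_ ?_).1 (h.s4 ?_ ?_ ?_ ?_).1
    (h.s3 ?_ ?_ ?_ ?_).2 (h.s4 ?_ ?_ ?_ ?_).2 (h.s4 ?_ ?_ ?_ ?_).2 (h.s4 ?_ ?_ ?_ ?_).2
  · intro x hx
    simp only [Finset.mem_insert, Finset.mem_singleton] at hx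
    rcases hx with rfl | rfl | rfl | rfl | rfl <;> rw [K]
  · exact h.s2 ha (by rw [hk, K])
  · exact h.s2 ha' (by rw [hk', K])
  all_goals (simp only [K, hk, hk']; assumption)

end

end Pool.Agent.L5helper89.HB
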