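import Pool.Agent.L5helper89.HB.Decomp

/-!
# Sufficiency
-/

set_option autoImplicit false
set_option linter.unusedSectionVars false
set_option linter.unusedVariables false

namespace Pool.Agent.L5helper89.HB

open Finset

variable {α : Type} [Fintype α] [DecidableEq α] {S : Set (Finset α)}

lemma chi_union {F G : Finset α} (h : Disjoint F G) : chi (F ∪ G) = chi F + chi G := by
  ext a
  simp only [chi, Pi.add_apply, Finset.mem_union]
  by_cases h1 : a ∈ F
  · have h2 : a ∉ G := Finset.disjoint_left.mp h h1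
    simp [h1, h2]
  · simp [h1]

/-- All quadruples. -/
lemma suff_uniform (h : ∀ F : Finset α, F ∈ S ↔ F.card = 4) : IsHilbert S := by
  refine Set.Subset.antisymm intCone_subset ?_
  rintro p ⟨hc, hl⟩
  obtain ⟨x, rfl⟩ := exists_nat hc hl
  have h1 : (4 : ℤ) ∣ ∑ e, (1 : ℤ) * ((x e : ℕ) : ℤ) := by
    refine lat_dvd (S := S) (fun _ => 1) 4 ?_ (by simpa using hl)
    intro F hF
    simp [(h F).mp hF]
  have h2 : 4 ∣ ∑ e, x e := by
    have : ((4 : ℕ) : ℤ) ∣ ((∑ e, x e : ℕ) : ℤ) := by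
      push_cast
      simpa using h1
    exact_mod_cast this
  obtain ⟨k, hk⟩ := h2
  have h3 : ∀ a, x a ≤ k := by
    intro a
    have h4 := cone_ineq (S := S) (fun e => 1 - if e = a then 4 else 0) (by
      intro F hF
      rw [Finset.sum_sub_distrib]
      simp only [Finset.sum_const, (h F).mp hF, Finset.sum_ite_eq']
      by_cases ha : a ∈ F <;> simp [ha]) hc
    have h5 : ∑ e, ((1 : ℚ) - if e = a then 4 else 0) * (x e : ℚ) = ∑ e, (x e : ℚ) - 4 * x a := by
      simp only [sub_mul, one_mul, Finset.sum_sub_distrib, ite_mul, zero_mul, Finset.sum_ite_eq',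
        Finset.mem_univ, if_true]
    rw [h5] at h4
    have h6 : ((4 * x a : ℕ) : ℚ) ≤ ((∑ e, x e : ℕ) : ℚ) := by
      push_cast
      linarith
    have h7 : 4 * x a ≤ ∑ e, x e := by exact_mod_cast h6
    omega
  obtain ⟨Q, hQ, hQs⟩ := decomp_zero 4 Finset.univ k x h3 (by simp) hk
  rw [hQs]
  refine IntCone.sum _ _ fun i hi => IntCone.chi ?_
  rw [h]
  exact (hQ i (Finset.mem_range.mp hi)).2

lemma two_aux (A B : Finset α) (hAB : Disjoint A B) (hU : A ∪ B = Finset.univ)
    (hA3 : ∀ F ⊆ A, F.card = 3 → F ∈ S) (hB3 : ∀ F ⊆ B, F.card = 3 → F ∈ S)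
    (h4 : ∀ F ⊆ A, ∀ G ⊆ B, F.card = 2 → G.card = 2 → F ∪ G ∈ S) (x : α → ℕ) (j : ℕ)
    (hA : ∀ a ∈ A, 2 * x a ≤ ∑ b ∈ B, x b + 2 * j) (hB : ∀ a ∈ B, 2 * x a ≤ ∑ b ∈ B, x b)
    (hj : ∑ a ∈ A, x a = ∑ b ∈ B, x b + 3 * j) : (fun e => (x e : ℚ)) ∈ IntCone S := by
  set b := ∑ b ∈ B, x b with hb
  have hb1 : b ≠ 1 := by
    intro h1
    have h2 : ∀ a ∈ B, x a = 0 := by
      intro a ha
      have := hB a ha
      omega
    have h3 : b = 0 := by
      rw [hb]
      exact Finset.sum_eq_zero h2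
    omega
  obtain ⟨m, n, hm, hmn⟩ : ∃ m n : ℕ, m ≤ 1 ∧ b = 3 * m + 2 * n := by
    rcases Nat.even_or_odd' b with ⟨t, ht | ht⟩
    · exact ⟨0, t, by omega, by omega⟩
    · exact ⟨1, t - 1, by omega, by omega⟩
  obtain ⟨P, Q, hP, hQ, hPQ⟩ := decomp 2 A (m + j) n (fun a => if a ∈ A then x a else 0) (by
      intro a
      by_cases h : a ∈ A
      · have := hA a h
        simp only [h, if_true]; omega
      · simp [h]) (by
      intro a ha
      simp [ha]) (by
      have : ∑ a ∈ A, (if a ∈ A then x a else 0) = ∑ a ∈ A, x a :=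
        Finset.sum_congr rfl fun a ha => by simp [ha]
      rw [this, hj, hmn]; ring)
  obtain ⟨R, T, hR, hT, hRT⟩ := decomp 2 B m n (fun a => if a ∈ B then x a else 0) (by
      intro a
      by_cases h : a ∈ B
      · have := hB a h
        simp only [h, if_true]; omega
      · simp [h]) (by
      intro a ha
      simp [ha]) (by
      have : ∑ a ∈ B, (if a ∈ B then x a else 0) = ∑ a ∈ B, x a :=
        Finset.sum_congr rfl fun a ha => by simp [ha]
      rw [this, ← hb, hmn])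
  have hsplit : (fun e => (x e : ℚ)) = (fun a => ((if a ∈ A then x a else 0 : ℕ) : ℚ)) +
      fun a => ((if a ∈ B then x a else 0 : ℕ) : ℚ) := by
    ext a
    have hu : a ∈ A ∪ B := by rw [hU]; simp
    rw [Finset.mem_union] at hu
    by_cases h : a ∈ A
    · have h2 : a ∉ B := Finset.disjoint_left.mp hAB h
      simp [h, h2]
    · have h2 : a ∈ B := by tauto
      simp [h, h2]
  have hsum : ∑ i ∈ Finset.range n, chi (Q i ∪ T i) =
      ∑ i ∈ Finset.range n, chi (Q i) + ∑ i ∈ Finset.range n, chi (T i) := by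
    rw [← Finset.sum_add_distrib]
    refine Finset.sum_congr rfl fun i hi => chi_union ?_
    have hi' := Finset.mem_range.mp hi
    exact Finset.disjoint_of_subset_left (hQ i hi').1
      (Finset.disjoint_of_subset_right (hT i hi').1 hAB)
  have hfin : (fun e => (x e : ℚ)) = (∑ i ∈ Finset.range (m + j), chi (P i) +
      ∑ i ∈ Finset.range m, chi (R i)) + ∑ i ∈ Finset.range n, chi (Q i ∪ T i) := by
    rw [hsplit, hPQ, hRT, hsum]
    abel
  rw [hfin]
  refine IntCone.add (IntCone.add ?_ ?_) ?_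
  · refine IntCone.sum _ _ fun i hi => IntCone.chi ?_
    have := hP i (Finset.mem_range.mp hi)
    exact hA3 _ this.1 this.2
  · refine IntCone.sum _ _ fun i hi => IntCone.chi ?_
    have := hR i (Finset.mem_range.mp hi)
    exact hB3 _ this.1 this.2
  · refine IntCone.sum _ _ fun i hi => IntCone.chi ?_
    have h5 := hQ i (Finset.mem_range.mp hi)
    have h6 := hT i (Finset.mem_range.mp hi)
    exact h4 _ h5.1 _ h6.1 h5.2 h6.2

/-- Weighted sums over a member of the family. -/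
lemma sum_weights (A B F : Finset α) (s t : ℚ) (hAB : Disjoint A B) (hU : A ∪ B = Finset.univ) :
    ∑ e ∈ F, (if e ∈ A then s else t) = s * (F ∩ A).card + t * (F ∩ B).card := by
  rw [Finset.sum_ite]
  have h1 : F.filter (fun e => e ∈ A) = F ∩ A := by
    ext e; simp
  have h2 : F.filter (fun e => ¬ e ∈ A) = F ∩ B := by
    ext e
    simp only [Finset.mem_filter, Finset.mem_inter]
    have hu : e ∈ A ∪ B := by rw [hU]; simp
    rw [Finset.mem_union] at hu
    have hd : e ∈ A → e ∉ B := fun h => Finset.disjoint_left.mp hAB h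
    tauto
  rw [h1, h2]
  simp only [Finset.sum_const, nsmul_eq_mul]
  ring

lemma sum_weights_int (A B F : Finset α) (s t : ℤ) (hAB : Disjoint A B)
    (hU : A ∪ B = Finset.univ) :
    ∑ e ∈ F, (if e ∈ A then s else t) = s * (F ∩ A).card + t * (F ∩ B).card := by
  have := sum_weights A B F (s : ℚ) (t : ℚ) hAB hU
  have h2 : ((∑ e ∈ F, (if e ∈ A then s else t) : ℤ) : ℚ) =
      ((s * (F ∩ A).card + t * (F ∩ B).card : ℤ) : ℚ) := by
    push_cast
    rw [← this]
  exact_mod_cast h2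

lemma sum_split (A B : Finset α) (x : α → ℚ) (s t : ℚ) (hAB : Disjoint A B)
    (hU : A ∪ B = Finset.univ) :
    ∑ e, (if e ∈ A then s else t) * x e = s * ∑ e ∈ A, x e + t * ∑ e ∈ B, x e := by
  rw [← hU, Finset.sum_union hAB, Finset.mul_sum, Finset.mul_sum]
  congr 1
  · exact Finset.sum_congr rfl fun e he => by simp [he]
  · refine Finset.sum_congr rfl fun e he => ?_
    have : e ∉ A := fun h => Finset.disjoint_left.mp hAB h he
    simp [this]

/-- Triples inside two skew lines and the quadruples with two points on each. -/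
lemma suff_two (A B : Finset α) (hAB : Disjoint A B) (hU : A ∪ B = Finset.univ)
    (hA3 : ∀ F ⊆ A, F.card = 3 → F ∈ S) (hB3 : ∀ F ⊆ B, F.card = 3 → F ∈ S)
    (h4 : ∀ F ⊆ A, ∀ G ⊆ B, F.card = 2 → G.card = 2 → F ∪ G ∈ S)
    (hS : ∀ F ∈ S, ((F ∩ A).card = 3 ∧ (F ∩ B).card = 0) ∨ ((F ∩ A).card = 0 ∧ (F ∩ B).card = 3) ∨
      ((F ∩ A).card = 2 ∧ (F ∩ B).card = 2)) : IsHilbert S := by
  refine Set.Subset.antisymm intCone_subset ?_
  rintro p ⟨hc, hl⟩
  obtain ⟨x, rfl⟩ := exists_nat hc hl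
  have h1 : (3 : ℤ) ∣ ∑ e, (if e ∈ A then (1 : ℤ) else -1) * ((x e : ℕ) : ℤ) := by
    refine lat_dvd (S := S) (fun e => if e ∈ A then 1 else -1) 3 ?_ (by simpa using hl)
    intro F hF
    simp only [sum_weights_int A B F 1 (-1) hAB hU]
    rcases hS F hF with h | h | h
    · simp [h.1, h.2]
    · simp [h.1, h.2]
    · simp [h.1, h.2]
  have h2 : ∑ e, (if e ∈ A then (1 : ℤ) else -1) * ((x e : ℕ) : ℤ) =
      ((∑ e ∈ A, x e : ℕ) : ℤ) - ((∑ e ∈ B, x e : ℕ) : ℤ) := by
    have h3 := sum_split A B (fun e => (x e : ℚ)) 1 (-1) hAB hU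
    have h4 : ((∑ e, (if e ∈ A then (1 : ℤ) else -1) * ((x e : ℕ) : ℤ) : ℤ) : ℚ) =
        ((((∑ e ∈ A, x e : ℕ) : ℤ) - ((∑ e ∈ B, x e : ℕ) : ℤ) : ℤ) : ℚ) := by
      push_cast
      rw [h3]; ring
    exact_mod_cast h4
  rw [h2] at h1
  have key : ∀ (A B : Finset α), Disjoint A B → A ∪ B = Finset.univ →
      (∀ F ∈ S, ((F ∩ A).card = 3 ∧ (F ∩ B).card = 0) ∨ ((F ∩ A).card = 0 ∧ (F ∩ B).card = 3) ∨
      ((F ∩ A).card = 2 ∧ (F ∩ B).card = 2)) → (∀ a ∈ A, 2 * x a ≤ ∑ b ∈ A, x b) ∧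
      ∀ a ∈ A, 6 * x a ≤ 2 * ∑ b ∈ A, x b + ∑ b ∈ B, x b := by
    intro A B hAB hU hS
    have gen : ∀ (s t r : ℚ), (∀ a ∈ A, ∀ F ∈ S, (if a ∈ F then r else 0) ≤
        s * (F ∩ A).card + t * (F ∩ B).card) → ∀ a ∈ A, r * x a ≤
        s * ∑ e ∈ A, (x e : ℚ) + t * ∑ e ∈ B, (x e : ℚ) := by
      intro s t r hr a ha
      have h4 := cone_ineq (S := S) (fun e => (if e ∈ A then s else t) - if e = a then r else 0)
        (by
        intro F hF
        rw [Finset.sum_sub_distrib, sum_weights A B F s t hAB hU, Finset.sum_ite_eq']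
        have := hr a ha F hF
        linarith) hc
      have h5 : ∑ e, ((if e ∈ A then s else t) - if e = a then r else 0) * (x e : ℚ) =
          (s * ∑ e ∈ A, (x e : ℚ) + t * ∑ e ∈ B, (x e : ℚ)) - r * x a := by
        rw [← sum_split A B (fun e => (x e : ℚ)) s t hAB hU]
        simp only [sub_mul, Finset.sum_sub_distrib, ite_mul, zero_mul, Finset.sum_ite_eq',
          Finset.mem_univ, if_true]
      rw [h5] at h4
      linarith
    have hone : ∀ a ∈ A, ∀ F : Finset α, a ∈ F → (F ∩ A).card ≠ 0 := by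
      intro a ha F haF h0
      rw [Finset.card_eq_zero] at h0
      have : a ∈ F ∩ A := Finset.mem_inter.mpr ⟨haF, ha⟩
      rw [h0] at this
      simp at this
    constructor
    · intro a ha
      have h6 := gen 1 0 2 (by
        intro a ha F hF
        have h8 := hone a ha F
        rcases hS F hF with h | h | h
        · rw [h.1, h.2]; split_ifs <;> norm_num
        · have : a ∉ F := fun h9 => h8 h9 h.1
          simp [this]
        · rw [h.1, h.2]; split_ifs <;> norm_num) a ha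
      have h7 : ((2 * x a : ℕ) : ℚ) ≤ ((∑ b ∈ A, x b : ℕ) : ℚ) := by
        push_cast
        linarith
      exact_mod_cast h7
    · intro a ha
      have h6 := gen 2 1 6 (by
        intro a ha F hF
        have h8 := hone a ha F
        rcases hS F hF with h | h | h
        · rw [h.1, h.2]; split_ifs <;> norm_num
        · have : a ∉ F := fun h9 => h8 h9 h.1
          simp only [this, if_false]
          positivity
        · rw [h.1, h.2]; split_ifs <;> norm_num) a ha
      have h7 : ((6 * x a : ℕ) : ℚ) ≤ ((2 * ∑ b ∈ A, x b + ∑ b ∈ B, x b : ℕ) : ℚ) := by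
        push_cast
        linarith
      exact_mod_cast h7
  obtain ⟨kA1, kA2⟩ := key A B hAB hU hS
  obtain ⟨kB1, kB2⟩ := key B A hAB.symm (by rw [Finset.union_comm]; exact hU) (by
    intro F hF
    rcases hS F hF with h | h | h <;> tauto)
  rcases le_total (∑ e ∈ B, x e) (∑ e ∈ A, x e) with hle | hle
  · obtain ⟨j, hj⟩ : ∃ j : ℕ, ∑ a ∈ A, x a = ∑ b ∈ B, x b + 3 * j := by
      obtain ⟨c, hc⟩ := h1
      exact ⟨c.toNat, by omega⟩
    refine two_aux A B hAB hU hA3 hB3 h4 x j ?_ kB1 hj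
    intro a ha
    have := kA2 a ha
    omega
  · obtain ⟨j, hj⟩ : ∃ j : ℕ, ∑ a ∈ B, x a = ∑ b ∈ A, x b + 3 * j := by
      obtain ⟨c, hc⟩ := h1
      exact ⟨(-c).toNat, by omega⟩
    refine two_aux B A hAB.symm (by rw [Finset.union_comm]; exact hU) hB3 hA3 ?_ x j ?_ kA1 hj
    · intro F hF G hG hFc hGc
      rw [Finset.union_comm]
      exact h4 G hG F hF hGc hFc
    · intro a ha
      have := kB2 a ha
      omega

end Pool.Agent.L5helper89.HB
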