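import Pool.Agent.L5helper89.HB.Lines
import Pool.Agent.L5helper89.HB.Suff

/-!
# Circuits of matroids of rank three
-/

set_option autoImplicit false
set_option linter.unusedSectionVars false
set_option linter.unusedVariables false

namespace Pool.Agent.L5helper89.HB

open Finset

variable {α : Type} [Fintype α] [DecidableEq α]

/-- Three elements that are dependent, or not all different. -/
def col (M : Matroid α) (a b c : α) : Prop :=
  a = b ∨ a = c ∨ b = c ∨ ¬ M.Indep {a, b, c}

variable {M : Matroid α}

lemma mem_cl {a b c : α} (hE : M.E = Set.univ) (hab : M.Indep {a, b})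
    (h : ¬ M.Indep {a, b, c}) : c ∈ M.closure {a, b} := by
  rw [hab.mem_closure_iff']
  refine ⟨by rw [hE]; trivial, fun h2 => ?_⟩
  exfalso
  apply h
  have : ({a, b, c} : Set α) = insert c {a, b} := by
    ext x; simp; tauto
  rwa [this]

lemma not_indep_of_cl {a b x y z : α} (hxy : x ≠ y) (hxz : x ≠ z) (hyz : y ≠ z)
    (hx : x ∈ M.closure {a, b}) (hy : y ∈ M.closure {a, b}) (hz : z ∈ M.closure {a, b}) :
    ¬ M.Indep {x, y, z} := by
  intro h
  have h1 : ({x, y, z} : Set α) ⊆ M.closure {a, b} := by
    intro w hw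
    simp only [Set.mem_insert_iff, Set.mem_singleton_iff] at hw
    rcases hw with rfl | rfl | rfl <;> assumption
  have h2 := h.encard_le_eRk_of_subset h1
  rw [M.eRk_closure_eq] at h2
  have h3 : M.eRk {a, b} ≤ 2 := by
    refine (M.eRk_le_encard _).trans ((Set.encard_insert_le _ _).trans ?_)
    rw [Set.encard_singleton]
    norm_num
  have h4 : ({x, y, z} : Set α).encard = 3 := Set.encard_eq_three.mpr ⟨x, y, z, hxy, hxz, hyz, rfl⟩
  rw [h4] at h2
  have := h2.trans h3
  norm_num at this

lemma self_cl {a b : α} (hE : M.E = Set.univ) : a ∈ M.closure {a, b} ∧ b ∈ M.closure {a, b} :=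
  ⟨M.mem_closure_of_mem' (by simp) (by rw [hE]; trivial),
    M.mem_closure_of_mem' (by simp) (by rw [hE]; trivial)⟩

variable {β : Type} [Fintype β] [DecidableEq β]

lemma colAx (hE : M.E = Set.univ) (ι : β ↪ α) (hR : ∀ a b, M.Indep {ι a, ι b}) :
    ColAx (fun a b c : β => col M (ι a) (ι b) (ι c)) := by
  have inj : ∀ a b, ι a = ι b → a = b := fun a b h => ι.injective h
  refine ⟨?_, ?_, ?_, ?_⟩
  · intro a b c h
    have e : ({ι b, ι a, ι c} : Set α) = {ι a, ι b, ι c} := Set.insert_comm _ _ _
    unfold col at *
    rw [e]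
    rcases h with h | h | h | h
    · exact Or.inl h.symm
    · exact Or.inr (Or.inr (Or.inl h))
    · exact Or.inr (Or.inl h)
    · exact Or.inr (Or.inr (Or.inr h))
  · intro a b c h
    have e : ({ι a, ι c, ι b} : Set α) = {ι a, ι b, ι c} := by rw [Set.pair_comm]
    unfold col at *
    rw [e]
    rcases h with h | h | h | h
    · exact Or.inr (Or.inl h)
    · exact Or.inl h
    · exact Or.inr (Or.inr (Or.inl h.symm))
    · exact Or.inr (Or.inr (Or.inr h))
  · intro a b
    exact Or.inl rfl
  · intro a b c d hab h1 h2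
    have hab' : ι a ≠ ι b := fun h => hab (inj _ _ h)
    unfold col at *
    by_cases e1 : ι a = ι c
    · exact Or.inl e1
    by_cases e2 : ι a = ι d
    · exact Or.inr (Or.inl e2)
    by_cases e3 : ι c = ι d
    · exact Or.inr (Or.inr (Or.inl e3))
    refine Or.inr (Or.inr (Or.inr ?_))
    have hc : ι c ∈ M.closure {ι a, ι b} := by
      rcases h1 with h | h | h | h
      · exact absurd h hab'
      · exact absurd h e1
      · rw [← h]; exact (self_cl hE).2
      · exact mem_cl hE (hR a b) h
    have hd : ι d ∈ M.closure {ι a, ι b} := by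
      rcases h2 with h | h | h | h
      · exact absurd h hab'
      · exact absurd h e2
      · rw [← h]; exact (self_cl hE).2
      · exact mem_cl hE (hR a b) h
    exact not_indep_of_cl e1 e2 e3 (self_cl hE).1 hc hd

lemma circ3 {a b c : α} (hE : M.E = Set.univ) (hab : M.Indep {a, b}) (hac : M.Indep {a, c})
    (hbc : M.Indep {b, c}) (h : ¬ M.Indep {a, b, c}) : M.IsCircuit {a, b, c} := by
  rw [Matroid.isCircuit_iff_dep_forall_sdiff_singleton_indep]
  refine ⟨⟨h, by rw [hE]; exact Set.subset_univ _⟩, ?_⟩
  intro e he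
  simp only [Set.mem_insert_iff, Set.mem_singleton_iff] at he
  rcases he with rfl | rfl | rfl
  · refine hbc.subset ?_
    intro x hx; simp at hx ⊢; tauto
  · refine hac.subset ?_
    intro x hx; simp at hx ⊢; tauto
  · refine hab.subset ?_
    intro x hx; simp at hx ⊢; tauto

lemma circ4 {a b c d : α} (hE : M.E = Set.univ) (hr : M.eRank = 3) (hab : a ≠ b) (hac : a ≠ c)
    (had : a ≠ d) (hbc : b ≠ c) (hbd : b ≠ d) (hcd : c ≠ d) (h1 : M.Indep {a, b, c})
    (h2 : M.Indep {a, b, d}) (h3 : M.Indep {a, c, d}) (h4 : M.Indep {b, c, d}) :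
    M.IsCircuit {a, b, c, d} := by
  rw [Matroid.isCircuit_iff_dep_forall_sdiff_singleton_indep]
  refine ⟨⟨?_, by rw [hE]; exact Set.subset_univ _⟩, ?_⟩
  · intro h
    have h5 := h.encard_le_eRank
    have h6 : ({a, b, c, d} : Set α).encard = 4 := by
      have : ({b, c, d} : Set α).encard = 3 :=
        Set.encard_eq_three.mpr ⟨b, c, d, hbc, hbd, hcd, rfl⟩
      rw [Set.encard_insert_of_notMem (by simp [hab, hac, had]), this]
      norm_num
    rw [h6, hr] at h5
    norm_num at h5
  · intro e he
    simp only [Set.mem_insert_iff, Set.mem_singleton_iff] at he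
    rcases he with rfl | rfl | rfl | rfl
    · refine h4.subset ?_
      intro x hx; simp at hx ⊢; tauto
    · refine h3.subset ?_
      intro x hx; simp at hx ⊢; tauto
    · refine h2.subset ?_
      intro x hx; simp at hx ⊢; tauto
    · refine h1.subset ?_
      intro x hx; simp at hx ⊢; tauto

lemma circ_card (hr : M.eRank = 3) {F : Finset α} (h : M.IsCircuit (F : Set α)) :
    F.card ≤ 4 := by
  obtain ⟨e, he⟩ := h.nonempty
  have h1 := (h.sdiff_singleton_indep he).encard_le_eRank
  rw [hr] at h1
  have h2 : ((F : Set α) \ {e}) = ((F.erase e : Finset α) : Set α) := by simp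
  rw [h2, Set.encard_coe_eq_coe_finsetCard] at h1
  have h3 : (F.erase e).card ≤ 3 := by exact_mod_cast h1
  have h4 := Finset.card_erase_add_one (Finset.mem_coe.mp he)
  omega

lemma fam (hE : M.E = Set.univ) (hr : M.eRank = 3) (ι : β ↪ α)
    (hR : ∀ a b, M.Indep {ι a, ι b}) :
    Fam (fun a b c : β => col M (ι a) (ι b) (ι c)) {F | F.map ι ∈ circ M} := by
  refine ⟨?_, ?_, ?_⟩
  · intro F hF
    have h1 := circ_card hr hF
    rw [Finset.card_map] at h1
    have h2 : 2 < F.card := by
      by_contra hcon
      push Not at hcon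
      have hdep : ¬ M.Indep (F.map ι : Set α) := (Matroid.IsCircuit.dep hF).not_indep
      apply hdep
      rcases Nat.lt_or_ge F.card 1 with h0 | h0
      · have h3 : F = ∅ := Finset.card_eq_zero.mp (by omega)
        subst h3
        simp
      rcases Nat.lt_or_ge F.card 2 with h1 | h1
      · obtain ⟨a, rfl⟩ := Finset.card_eq_one.mp (show F.card = 1 by omega)
        have := hR a a
        simpa using this
      · obtain ⟨a, b, -, rfl⟩ := Finset.card_eq_two.mp (show F.card = 2 by omega)
        have := hR a b
        simpa using this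
    omega
  · intro a b c hab hac hbc h
    have hab' : ι a ≠ ι b := fun h => hab (ι.injective h)
    have hac' : ι a ≠ ι c := fun h => hac (ι.injective h)
    have hbc' : ι b ≠ ι c := fun h => hbc (ι.injective h)
    show M.IsCircuit _
    have e : (({a, b, c} : Finset β).map ι : Set α) = {ι a, ι b, ι c} := by
      simp
    rw [e]
    refine circ3 hE (hR a b) (hR a c) (hR b c) ?_
    rcases h with h | h | h | h
    · exact absurd h hab'
    · exact absurd h hac'
    · exact absurd h hbc'
    · exact h
  · intro a b c d h1 h2 h3 h4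
    unfold col at h1 h2 h3 h4
    push Not at h1 h2 h3 h4
    show M.IsCircuit _
    have e : (({a, b, c, d} : Finset β).map ι : Set α) = {ι a, ι b, ι c, ι d} := by
      simp
    rw [e]
    exact circ4 hE hr h1.1 h1.2.1 h2.2.1 h1.2.2.1 h2.2.2.1 h3.2.2.1 h1.2.2.2 h2.2.2.2 h3.2.2.2
      h4.2.2.2

lemma circ_iff (hE : M.E = Set.univ) (hr : M.eRank = 3) (hs : ∀ a b, M.Indep {a, b}) :
    Fam (col M) (circ M) := by
  have := fam (β := α) hE hr (Function.Embedding.refl α) (fun a b => hs a b)
  simpa using this

/-- Sufficiency for simple matroids of rank three. -/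
lemma simple_suff (hE : M.E = Set.univ) (hr : M.eRank = 3) (hs : ∀ a b, M.Indep {a, b}) :
    ((∀ a b c, M.Indep {a, b, c}) ∨ ∃ A : Set α, ∀ a b c, a ≠ b → a ≠ c →
      b ≠ c → (¬ M.Indep {a, b, c} ↔ (a ∈ A ∧ b ∈ A ∧ c ∈ A) ∨ (a ∉ A ∧ b ∉ A ∧ c ∉ A))) →
    IsHilbert (circ M) := by
  have hax : ColAx (col M) := colAx (β := α) hE (Function.Embedding.refl α) hs
  have hfam := circ_iff hE hr hs
  have hcol : ∀ a b c, a ≠ b → a ≠ c → b ≠ c → (col M a b c ↔ ¬ M.Indep {a, b, c}) := by
    intro a b c hab hac hbc
    unfold col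
    tauto
  rintro (h0 | ⟨A, hA⟩)
  · refine suff_uniform ?_
    intro F
    constructor
    · intro hF
      rcases hfam.card F hF with h | h
      · exfalso
        obtain ⟨a, b, c, hab, hac, hbc, rfl⟩ := Finset.card_eq_three.mp h
        refine (Matroid.IsCircuit.dep hF).not_indep ?_
        have := h0 a b c
        simpa using this
      · exact h
    · intro hF
      obtain ⟨a, G, haG, rfl, hG⟩ := Finset.card_eq_succ.mp hF
      obtain ⟨b, c, d, hbc, hbd, hcd, rfl⟩ := Finset.card_eq_three.mp hG
      simp only [Finset.mem_insert, Finset.mem_singleton, not_or] at haG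
      refine hfam.mem4 a b c d ?_ ?_ ?_ ?_
      · rw [hcol _ _ _ haG.1 haG.2.1 hbc]; simpa using h0 a b c
      · rw [hcol _ _ _ haG.1 haG.2.2 hbd]; simpa using h0 a b d
      · rw [hcol _ _ _ haG.2.1 haG.2.2 hcd]; simpa using h0 a c d
      · rw [hcol _ _ _ hbc hbd hcd]; simpa using h0 b c d
  · classical
    have tri : ∀ a b c, a ≠ b → a ≠ c → b ≠ c →
        ((a ∈ A ∧ b ∈ A ∧ c ∈ A) ∨ (a ∉ A ∧ b ∉ A ∧ c ∉ A)) → {a, b, c} ∈ circ M := by
      intro a b c hab hac hbc h
      exact hfam.mem3 a b c hab hac hbc ((hcol a b c hab hac hbc).mpr ((hA a b c hab hac hbc).mpr h))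
    have dep3 : ∀ F ∈ circ M, ∀ G ⊆ F, G.card = 3 → ((G ⊆ A.toFinset) ∨ (Disjoint G A.toFinset)) →
        F.card = 3 := by
      intro F hF G hGF hG hGA
      obtain ⟨a, b, c, hab, hac, hbc, rfl⟩ := Finset.card_eq_three.mp hG
      have h1 : ({a, b, c} : Finset α) ∈ circ M := by
        refine tri a b c hab hac hbc ?_
        rcases hGA with h | h
        · left
          refine ⟨?_, ?_, ?_⟩
          · simpa using h (show a ∈ ({a, b, c} : Finset α) by simp)
          · simpa using h (show b ∈ ({a, b, c} : Finset α) by simp)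
          · simpa using h (show c ∈ ({a, b, c} : Finset α) by simp)
        · right
          rw [Finset.disjoint_left] at h
          refine ⟨?_, ?_, ?_⟩
          · simpa using h (show a ∈ ({a, b, c} : Finset α) by simp)
          · simpa using h (show b ∈ ({a, b, c} : Finset α) by simp)
          · simpa using h (show c ∈ ({a, b, c} : Finset α) by simp)
      have h2 : (({a, b, c} : Finset α) : Set α) = F :=
        Matroid.IsCircuit.eq_of_subset_isCircuit h1 hF (Finset.coe_subset.mpr hGF)
      have h3 : ({a, b, c} : Finset α) = F := Finset.coe_injective h2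
      rw [← h3, hG]
    refine suff_two (S := circ M) A.toFinset A.toFinsetᶜ disjoint_compl_right
      (by simp) ?_ ?_ ?_ ?_
    · intro F hF hF3
      obtain ⟨a, b, c, hab, hac, hbc, rfl⟩ := Finset.card_eq_three.mp hF3
      refine tri a b c hab hac hbc (Or.inl ⟨?_, ?_, ?_⟩)
      · simpa using hF (show a ∈ ({a, b, c} : Finset α) by simp)
      · simpa using hF (show b ∈ ({a, b, c} : Finset α) by simp)
      · simpa using hF (show c ∈ ({a, b, c} : Finset α) by simp)
    · intro F hF hF3
      obtain ⟨a, b, c, hab, hac, hbc, rfl⟩ := Finset.card_eq_three.mp hF3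
      refine tri a b c hab hac hbc (Or.inr ⟨?_, ?_, ?_⟩)
      · simpa using hF (show a ∈ ({a, b, c} : Finset α) by simp)
      · simpa using hF (show b ∈ ({a, b, c} : Finset α) by simp)
      · simpa using hF (show c ∈ ({a, b, c} : Finset α) by simp)
    · intro F hF G hG hF2 hG2
      obtain ⟨a, b, hab, rfl⟩ := Finset.card_eq_two.mp hF2
      obtain ⟨c, d, hcd, rfl⟩ := Finset.card_eq_two.mp hG2
      have ha : a ∈ A := by simpa using hF (show a ∈ ({a, b} : Finset α) by simp)
      have hb : b ∈ A := by simpa using hF (show b ∈ ({a, b} : Finset α) by simp)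
      have hc : c ∉ A := by simpa using hG (show c ∈ ({c, d} : Finset α) by simp)
      have hd : d ∉ A := by simpa using hG (show d ∈ ({c, d} : Finset α) by simp)
      have hac : a ≠ c := fun h => hc (h ▸ ha)
      have had : a ≠ d := fun h => hd (h ▸ ha)
      have hbc : b ≠ c := fun h => hc (h ▸ hb)
      have hbd : b ≠ d := fun h => hd (h ▸ hb)
      have e : ({a, b} ∪ {c, d} : Finset α) = {a, b, c, d} := by
        ext x; simp; tauto
      rw [e]
      refine hfam.mem4 a b c d ?_ ?_ ?_ ?_
      · rw [hcol _ _ _ hab hac hbc, hA _ _ _ hab hac hbc]; tauto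
      · rw [hcol _ _ _ hab had hbd, hA _ _ _ hab had hbd]; tauto
      · rw [hcol _ _ _ hac had hcd, hA _ _ _ hac had hcd]; tauto
      · rw [hcol _ _ _ hbc hbd hcd, hA _ _ _ hbc hbd hcd]; tauto
    · intro F hF
      have hsum : (F ∩ A.toFinset).card + (F ∩ A.toFinsetᶜ).card = F.card := by
        rw [← Finset.card_union_of_disjoint]
        · congr 1
          ext x; simp; tauto
        · rw [Finset.disjoint_left]
          intro x hx hx2
          simp at hx hx2
          exact hx2.2 hx.2
      have k1 : 3 ≤ (F ∩ A.toFinset).card → F.card = 3 := by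
        intro h3
        obtain ⟨G, hG, hG3⟩ := Finset.exists_subset_card_eq h3
        refine dep3 F hF G (hG.trans Finset.inter_subset_left) hG3 (Or.inl ?_)
        exact hG.trans Finset.inter_subset_right
      have k2 : 3 ≤ (F ∩ A.toFinsetᶜ).card → F.card = 3 := by
        intro h3
        obtain ⟨G, hG, hG3⟩ := Finset.exists_subset_card_eq h3
        refine dep3 F hF G (hG.trans Finset.inter_subset_left) hG3 (Or.inr ?_)
        rw [Finset.disjoint_left]
        intro x hx
        have := hG hx
        simp at this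
        simpa using this.2
      rcases hfam.card F hF with h | h
      · obtain ⟨a, b, c, hab, hac, hbc, rfl⟩ := Finset.card_eq_three.mp h
        have hdep : ¬ M.Indep {a, b, c} := by
          have := (Matroid.IsCircuit.dep hF).not_indep
          simpa using this
        rw [hA a b c hab hac hbc] at hdep
        rcases hdep with hd | hd
        · left
          have : ({a, b, c} ∩ A.toFinset : Finset α) = {a, b, c} := by
            rw [Finset.inter_eq_left]
            intro x hx
            simp at hx
            rcases hx with rfl | rfl | rfl <;> simp [hd]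
          rw [this] at hsum ⊢
          omega
        · right; left
          have : ({a, b, c} ∩ A.toFinsetᶜ : Finset α) = {a, b, c} := by
            rw [Finset.inter_eq_left]
            intro x hx
            simp at hx
            rcases hx with rfl | rfl | rfl <;> simp [hd]
          rw [this] at hsum ⊢
          omega
      · right; right
        omega

/-- The classification for simple matroids of rank three. -/
lemma simple_rank_three (hE : M.E = Set.univ) (hr : M.eRank = 3) (hs : ∀ a b, M.Indep {a, b})
    (hn : 8 ≤ Fintype.card α) :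
    IsHilbert (circ M) ↔ (∀ a b c, M.Indep {a, b, c}) ∨ ∃ A : Set α, ∀ a b c, a ≠ b → a ≠ c →
      b ≠ c → (¬ M.Indep {a, b, c} ↔ (a ∈ A ∧ b ∈ A ∧ c ∈ A) ∨ (a ∉ A ∧ b ∉ A ∧ c ∉ A)) := by
  have hax : ColAx (col M) := colAx (β := α) hE (Function.Embedding.refl α) hs
  have hfam := circ_iff hE hr hs
  have hcol : ∀ a b c, a ≠ b → a ≠ c → b ≠ c → (col M a b c ↔ ¬ M.Indep {a, b, c}) := by
    intro a b c hab hac hbc
    unfold col
    tauto
  constructor
  · intro hH
    by_cases h0 : ∀ a b c, M.Indep {a, b, c}
    · exact Or.inl h0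
    · right
      push Not at h0
      obtain ⟨a, b, c, h1⟩ := h0
      have hab : a ≠ b := by
        rintro rfl
        exact h1 (by simpa using hs a c)
      have hac : a ≠ c := by
        rintro rfl
        refine h1 ((hs a b).subset ?_)
        intro x hx; simp at hx ⊢; tauto
      have hbc : b ≠ c := by
        rintro rfl
        exact h1 (by simpa using hs a b)
      have hc1 : col M a b c := (hcol a b c hab hac hbc).mpr h1
      refine ⟨{x | col M a b x}, ?_⟩
      intro x y z hxy hxz hyz
      rw [← hcol x y z hxy hxz hyz]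
      exact necessity hax hfam hH hn hab hac hbc hc1 x y z hxy hxz hyz
  · exact simple_suff hE hr hs

end Pool.Agent.L5helper89.HB
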