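import Pool.Agent.L5helper89.HB.Suff3

/-!
# Sufficiency for a uniform hyperplane and at most two more elements
-/

set_option autoImplicit false
set_option linter.unusedSectionVars false
set_option linter.unusedVariables false

namespace Pool.Agent.L5helper89.HB

open Finset

variable {α : Type} [Fintype α] [DecidableEq α] {S : Set (Finset α)}

lemma suff_line (L W : Finset α) (s : ℕ) (hLW : Disjoint L W) (hU : L ∪ W = Finset.univ)
    (hL : ∀ F ⊆ L, F.card = s + 1 → F ∈ S)
    (hW2 : W.card = 2 → ∀ F ⊆ L, F.card = s → F ∪ W ∈ S)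
    (hS : ∀ F ∈ S, ((F ∩ L).card = s + 1 ∧ F ∩ W = ∅) ∨
      ((F ∩ L).card = s ∧ W ⊆ F ∧ W.card = 2)) : IsHilbert S := by
  refine Set.Subset.antisymm intCone_subset ?_
  rintro p ⟨hc, hl⟩
  obtain ⟨x, rfl⟩ := exists_nat hc hl
  obtain ⟨Q, hQW, hQ2, hQ0⟩ : ∃ Q : Finset α, Q ⊆ W ∧ (W.card = 2 → Q.card = 1) ∧
      (W.card ≠ 2 → Q = ∅) := by
    by_cases h2 : W.card = 2
    · obtain ⟨u, v, huv, rfl⟩ := Finset.card_eq_two.mp h2
      exact ⟨{u}, by simp, by simp, fun h => absurd h2 h⟩
    · exact ⟨∅, by simp, fun h => absurd h h2, fun _ => rfl⟩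
  have tys : ∀ F ∈ S, ((F ∩ L).card = s + 1 ∧ (F ∩ Q).card = 0 ∧ F ∩ W = ∅) ∨
      ((F ∩ L).card = s ∧ (F ∩ Q).card = 1 ∧ W ⊆ F ∧ W.card = 2) := by
    intro F hF
    rcases hS F hF with ⟨h1, h2⟩ | ⟨h1, h2, h3⟩
    · left
      refine ⟨h1, ?_, h2⟩
      rw [Finset.card_eq_zero]
      refine Finset.subset_empty.mp ?_
      rw [← h2]
      exact Finset.inter_subset_inter_left hQW
    · right
      refine ⟨h1, ?_, h2, h3⟩
      rw [Finset.inter_eq_right.mpr (hQW.trans h2)]
      exact hQ2 h3
  set l := ∑ e ∈ L, x e with hldef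
  set q := ∑ e ∈ Q, x e with hqdef
  have gen : ∀ (c t r : ℚ) (b : α), (∀ F ∈ S, (if b ∈ F then r else 0) ≤
      c * (F ∩ L).card + t * (F ∩ Q).card) → r * x b ≤ c * l + t * q := by
    intro c t r b hr
    have h5 := cone_ineq (S := S) (fun e => wt L ∅ Q c 0 t e - if e = b then r else 0) (by
      intro F hF
      rw [Finset.sum_sub_distrib, sum_wt, Finset.sum_ite_eq']
      have := hr F hF
      simp only [zero_mul, add_zero]
      linarith) hc
    have h6 : ∑ e, (wt L ∅ Q c 0 t e - if e = b then r else 0) * (x e : ℚ) =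
        (c * ∑ e ∈ L, (x e : ℚ) + t * ∑ e ∈ Q, (x e : ℚ)) - r * x b := by
      have h7 := sum_wt_mul L ∅ Q c 0 t (fun e => (x e : ℚ))
      simp only [zero_mul, add_zero] at h7
      rw [← h7]
      simp only [sub_mul, Finset.sum_sub_distrib, ite_mul, zero_mul, Finset.sum_ite_eq',
        Finset.mem_univ, if_true]
    rw [h6] at h5
    rw [hldef, hqdef]
    push_cast
    linarith
  -- the vector is constant on W
  have le : ∀ e ∈ W, ∀ f ∈ W, x e ≤ x f := by
    intro e he f hf
    have h5 := cone_ineq (S := S)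
      (fun g => (if g = f then (1 : ℚ) else 0) - if g = e then 1 else 0) (by
      intro F hF
      rw [Finset.sum_sub_distrib, Finset.sum_ite_eq', Finset.sum_ite_eq']
      rcases tys F hF with h | h
      · have h1 : e ∉ F := fun h2 => by
          have : e ∈ F ∩ W := Finset.mem_inter.mpr ⟨h2, he⟩
          rw [h.2.2] at this
          simp at this
        simp only [h1, if_false]
        split_ifs <;> norm_num
      · have h1 : f ∈ F := h.2.2.1 hf
        simp only [h1, if_true]
        split_ifs <;> norm_num) hc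
    have h6 : ∑ g, ((if g = f then (1 : ℚ) else 0) - if g = e then 1 else 0) * (x g : ℚ) =
        x f - x e := by
      simp [sub_mul, Finset.sum_sub_distrib, ite_mul]
    rw [h6] at h5
    have : (x e : ℚ) ≤ x f := by linarith
    exact_mod_cast this
  have zero : W.card ≠ 2 → ∀ e ∈ W, x e = 0 := by
    intro h2 e he
    have h5 := cone_ineq (S := S) (fun g => - if g = e then (1 : ℚ) else 0) (by
      intro F hF
      rw [Finset.sum_neg_distrib, Finset.sum_ite_eq']
      rcases tys F hF with h | h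
      · have h1 : e ∉ F := fun h2 => by
          have : e ∈ F ∩ W := Finset.mem_inter.mpr ⟨h2, he⟩
          rw [h.2.2] at this
          simp at this
        simp [h1]
      · exact absurd h.2.2.2 h2) hc
    have h6 : ∑ g, (-(if g = e then (1 : ℚ) else 0)) * (x g : ℚ) = - x e := by
      simp [ite_mul]
    rw [h6] at h5
    have : (x e : ℚ) ≤ 0 := by linarith
    have h7 : x e ≤ 0 := by exact_mod_cast this
    omega
  have xW : ∀ e ∈ W, x e = q := by
    intro e he
    by_cases h2 : W.card = 2
    · obtain ⟨u, hu⟩ := Finset.card_eq_one.mp (hQ2 h2)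
      have hu2 : u ∈ W := hQW (by rw [hu]; simp)
      have : q = x u := by rw [hqdef, hu]; simp
      rw [this]
      exact le_antisymm (le e he u hu2) (le u hu2 e he)
    · rw [zero h2 e he, hqdef, hQ0 h2]
      simp
  have hone : ∀ b ∈ L, ∀ F : Finset α, b ∈ F → (F ∩ L).card ≠ 0 := by
    intro b hb F hbF h0
    rw [Finset.card_eq_zero] at h0
    have : b ∈ F ∩ L := Finset.mem_inter.mpr ⟨hbF, hb⟩
    rw [h0] at this
    simp at this
  have i2 : s * q ≤ l := by
    have h5 := cone_ineq (S := S) (fun e => wt L ∅ Q 1 0 (-(s : ℚ)) e) (by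
      intro F hF
      rw [sum_wt]
      rcases tys F hF with h | h
      · rw [h.1, h.2.1]; push_cast; simp; positivity
      · rw [h.1, h.2.1]; push_cast; simp) hc
    rw [sum_wt_mul] at h5
    have h2 : ((s * q : ℕ) : ℚ) ≤ l := by
      rw [hldef, hqdef]
      push_cast
      simp only [zero_mul, add_zero, one_mul] at h5
      linarith
    exact_mod_cast h2
  have i4 : ∀ b ∈ L, (s + 1) * x b ≤ l + q := by
    intro b hb
    have := gen 1 1 (s + 1) b (by
      intro F hF
      rcases tys F hF with h | h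
      · rw [h.1, h.2.1]; push_cast
        split_ifs
        · simp
        · simp; positivity
      · rw [h.1, h.2.1]; push_cast
        split_ifs
        · simp
        · simp; positivity)
    have h2 : (((s + 1) * x b : ℕ) : ℚ) ≤ ((l + q : ℕ) : ℚ) := by push_cast; linarith
    exact_mod_cast h2
  have j2 : ((s + 1 : ℕ) : ℤ) ∣ (l : ℤ) - (s : ℤ) * (q : ℤ) := by
    set w : α → ℤ := fun e => (if e ∈ L then 1 else 0) + (if e ∈ Q then -(s : ℤ) else 0) with hw
    have hwt : ∀ e, (w e : ℚ) = wt L ∅ Q 1 0 (-(s : ℚ)) e := by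
      intro e
      simp only [hw, wt]
      push_cast
      simp
    have h5 := lat_dvd (S := S) (x := fun e => ((x e : ℕ) : ℤ)) w ((s + 1 : ℕ) : ℤ) (by
      intro F hF
      have h6 : ∑ e ∈ F, w e = (F ∩ L).card - (s : ℤ) * (F ∩ Q).card := by
        have h7 : ((∑ e ∈ F, w e : ℤ) : ℚ) =
            (((F ∩ L).card - (s : ℤ) * (F ∩ Q).card : ℤ) : ℚ) := by
          push_cast
          rw [Finset.sum_congr rfl fun e _ => hwt e, sum_wt]
          simp
          ring
        exact_mod_cast h7
      rw [h6]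
      rcases tys F hF with h | h
      · rw [h.1, h.2.1]; simp
      · rw [h.1, h.2.1]; simp) (by simpa using hl)
    have h8 : ∑ e, w e * ((x e : ℕ) : ℤ) = (l : ℤ) - (s : ℤ) * (q : ℤ) := by
      have h9 : ((∑ e, w e * ((x e : ℕ) : ℤ) : ℤ) : ℚ) =
          (((l : ℤ) - (s : ℤ) * (q : ℤ) : ℤ) : ℚ) := by
        push_cast
        rw [hldef, hqdef]
        push_cast
        have h10 := sum_wt_mul L ∅ Q 1 0 (-(s : ℚ)) (fun e => (x e : ℚ))
        rw [Finset.sum_congr rfl fun e _ => by rw [hwt e], h10]
        simp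
        ring
      exact_mod_cast h9
    rw [← h8]
    exact h5
  obtain ⟨k, hk⟩ : ∃ k : ℕ, l = (s + 1) * k + s * q := by
    obtain ⟨d, hd⟩ := j2
    have hd0 : 0 ≤ d := by
      have h1 : (0 : ℤ) ≤ ((s + 1 : ℕ) : ℤ) * d := by
        rw [← hd]
        have : ((s * q : ℕ) : ℤ) ≤ (l : ℤ) := by exact_mod_cast i2
        push_cast at this
        linarith
      by_contra hneg
      push Not at hneg
      have h2 : ((s + 1 : ℕ) : ℤ) * d < 0 := by
        refine mul_neg_of_pos_of_neg ?_ hneg
        exact_mod_cast Nat.succ_pos s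
      linarith
    refine ⟨d.toNat, ?_⟩
    have h3 : (l : ℤ) = (((s + 1) * d.toNat + s * q : ℕ) : ℤ) := by
      push_cast
      rw [Int.toNat_of_nonneg hd0]
      push_cast at hd
      linarith
    exact_mod_cast h3
  obtain ⟨C, D, hC, hD, hCD⟩ := decomp s L k q (fun e => if e ∈ L then x e else 0) (by
      intro e
      by_cases h : e ∈ L
      · have h1 := i4 e h
        simp only [h, if_true]
        rw [hk] at h1
        have h2 : (s + 1) * x e ≤ (s + 1) * (k + q) := by
          calc (s + 1) * x e ≤ (s + 1) * k + s * q + q := h1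
            _ = (s + 1) * (k + q) := by ring
        exact Nat.le_of_mul_le_mul_left h2 (Nat.succ_pos s)
      · simp [h]) (by
      intro e he
      simp [he]) (by
      have : ∑ e ∈ L, (if e ∈ L then x e else 0) = ∑ e ∈ L, x e :=
        Finset.sum_congr rfl fun e he => by simp [he]
      rw [this, ← hldef, hk])
  have hWx : (fun e => ((if e ∈ W then x e else 0 : ℕ) : ℚ)) =
      ∑ i ∈ Finset.range q, chi W := by
    ext e
    simp only [Finset.sum_const, Finset.card_range, Pi.smul_apply, nsmul_eq_mul, chi]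
    by_cases h : e ∈ W
    · simp [h, xW e h]
    · simp [h]
  have hsplit : (fun e => (x e : ℚ)) = (fun e => ((if e ∈ L then x e else 0 : ℕ) : ℚ)) +
      fun e => ((if e ∈ W then x e else 0 : ℕ) : ℚ) := by
    ext e
    have hu : e ∈ L ∪ W := by rw [hU]; simp
    rw [Finset.mem_union] at hu
    have d1 : e ∈ L → e ∉ W := fun h => Finset.disjoint_left.mp hLW h
    rcases hu with h | h
    · simp [h, d1 h]
    · have : e ∉ L := fun h2 => d1 h2 h
      simp [h, this]
  have hsum : ∑ i ∈ Finset.range q, chi (D i ∪ W) =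
      ∑ i ∈ Finset.range q, chi (D i) + ∑ i ∈ Finset.range q, chi W := by
    rw [← Finset.sum_add_distrib]
    refine Finset.sum_congr rfl fun i hi => ?_
    rw [chi_union]
    exact Finset.disjoint_of_subset_left (hD i (Finset.mem_range.mp hi)).1 hLW
  have hfin : (fun e => (x e : ℚ)) = ∑ i ∈ Finset.range k, chi (C i) +
      ∑ i ∈ Finset.range q, chi (D i ∪ W) := by
    rw [hsplit, hCD, hWx, hsum]
    abel
  rw [hfin]
  refine IntCone.add ?_ ?_
  · refine IntCone.sum _ _ fun i hi => IntCone.chi ?_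
    have := hC i (Finset.mem_range.mp hi)
    exact hL _ this.1 this.2
  · refine IntCone.sum _ _ fun i hi => IntCone.chi ?_
    have hi' := Finset.mem_range.mp hi
    have h5 := hD i hi'
    refine hW2 ?_ _ h5.1 h5.2
    by_contra h2
    have : q = 0 := by rw [hqdef, hQ0 h2]; simp
    omega

end Pool.Agent.L5helper89.HB
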