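import Pool.Agent.L5helper89.HB.Hyp
import Pool.Agent.L5helper89.HB.SuffLine

/-!
# Large paving matroids
-/

set_option autoImplicit false
set_option linter.unusedSectionVars false
set_option linter.unusedVariables false

namespace Pool.Agent.L5helper89.HB

open Finset

variable {α : Type} [Fintype α] [DecidableEq α] {M : Matroid α} {r : ℕ}

/-- The data: a paving matroid of rank `r` and a flat `H` of smaller rank. -/
structure Pav (M : Matroid α) (r : ℕ) (H : Finset α) : Prop where
  hE : M.E = Set.univ
  hr4 : 4 ≤ r
  hr : M.eRank = r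
  hp : ∀ S : Finset α, S.card < r → M.Indep (S : Set α)
  flat : ∀ x, x ∈ M.closure (H : Set α) → x ∈ H
  rk : M.eRk (H : Set α) < r

variable {H : Finset α}

lemma Pav.closure_le (h : Pav M r H) {X : Finset α} (hX : X.card = r - 1) {F : Set α}
    (hXF : (X : Set α) ⊆ F) (hF : M.eRk F < r) : F ⊆ M.closure (X : Set α) := by
  have hr4 := h.hr4
  intro f hf
  have hXI : M.Indep (X : Set α) := h.hp X (by omega)
  by_contra hcon
  have hfX : f ∉ X := fun h2 => hcon (M.mem_closure_of_mem' (Finset.mem_coe.mpr h2)
    (by rw [h.hE]; trivial))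
  have h5 : M.Indep (insert f (X : Set α)) := by
    by_contra hcon2
    apply hcon
    rw [hXI.mem_closure_iff']
    exact ⟨by rw [h.hE]; trivial, fun h6 => absurd h6 hcon2⟩
  have h6 : (insert f (X : Set α)).encard ≤ M.eRk F :=
    h5.encard_le_eRk_of_subset (Set.insert_subset hf hXF)
  have h7 : (insert f (X : Set α)) = ((insert f X : Finset α) : Set α) := by simp
  rw [h7, Set.encard_coe_eq_coe_finsetCard, Finset.card_insert_of_notMem hfX, hX] at h6
  have h8 := lt_of_le_of_lt h6 hF
  have h9 : r - 1 + 1 < r := by exact_mod_cast h8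
  omega

lemma Pav.inter_small (h : Pav M r H) {S : Finset α} (hS : S.card = r - 1) (hSH : ¬ S ⊆ H)
    {X : Finset α} (hX1 : ∀ x ∈ X, x ∈ M.closure (S : Set α)) (hX2 : X ⊆ H) :
    X.card ≤ r - 2 := by
  have hr4 := h.hr4
  by_contra hcon
  push Not at hcon
  obtain ⟨Y, hYX, hY⟩ := Finset.exists_subset_card_eq (show r - 1 ≤ X.card by omega)
  have hrkS : M.eRk (M.closure (S : Set α)) < r := by
    rw [M.eRk_closure_eq]
    refine lt_of_le_of_lt (M.eRk_le_encard _) ?_
    rw [Set.encard_coe_eq_coe_finsetCard, hS]
    exact_mod_cast (show r - 1 < r by omega)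
  have h1 : M.closure (S : Set α) ⊆ M.closure (Y : Set α) :=
    h.closure_le hY (fun x hx => hX1 x (hYX hx)) hrkS
  have h2 : M.closure (Y : Set α) ⊆ M.closure (H : Set α) :=
    M.closure_subset_closure (Finset.coe_subset.mpr (hYX.trans hX2))
  apply hSH
  intro x hx
  refine h.flat x (h2 (h1 ?_))
  exact M.mem_closure_of_mem' (Finset.mem_coe.mpr hx) (by rw [h.hE]; trivial)

/-- Generic position of `T ⊆ H` relative to `W`. -/
def GenW (M : Matroid α) (r : ℕ) (W T : Finset α) : Prop :=
  ∀ S ⊆ T ∪ W, S.card ≤ r → ¬ S ⊆ T → M.Indep (S : Set α)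

lemma Pav.extend (h : Pav M r H) (hbig : r * (r + 1).choose 2 ≤ H.card) {W : Finset α}
    (hW : Disjoint W H) (hWc : W.card ≤ 3) {T : Finset α} (hTH : T ⊆ H) (hTc : T.card ≤ r - 2)
    (hT : GenW M r W T) : ∃ e ∈ H, e ∉ T ∧ GenW M r W (insert e T) := by
  classical
  have hr4 := h.hr4
  set F : Finset (Finset α) := ((T ∪ W).powersetCard (r - 1)).filter fun S => ¬ S ⊆ H with hF
  have hC3 : 3 ≤ (r + 1).choose 2 := by
    calc 3 = (2 + 1).choose 2 := by decide
      _ ≤ (r + 1).choose 2 := Nat.choose_le_choose 2 (by omega)
  have hFc : F.card ≤ (r + 1).choose 2 := by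
    have h1 : F.card ≤ (T ∪ W).card.choose (r - 1) := by
      rw [← Finset.card_powersetCard]
      exact Finset.card_filter_le _ _
    have h2 : (T ∪ W).card ≤ r + 1 := (Finset.card_union_le _ _).trans (by omega)
    have h3 : (r + 1).choose (r - 1) = (r + 1).choose 2 := by
      rw [← Nat.choose_symm (show 2 ≤ r + 1 by omega)]
      have : r + 1 - 2 = r - 1 := by omega
      rw [this]
    calc F.card ≤ (T ∪ W).card.choose (r - 1) := h1
      _ ≤ (r + 1).choose (r - 1) := Nat.choose_le_choose _ h2
      _ = (r + 1).choose 2 := h3
  set bad : Finset α → Finset α := fun S => H.filter fun e => e ∈ M.closure (S : Set α) with hbad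
  have hb : ∀ S ∈ F, (bad S).card ≤ r - 2 := by
    intro S hS
    rw [hF, Finset.mem_filter, Finset.mem_powersetCard] at hS
    refine h.inter_small hS.1.2 hS.2 ?_ (Finset.filter_subset _ _)
    intro x hx
    exact (Finset.mem_filter.mp hx).2
  have hex : ∃ e ∈ H, e ∉ T ∪ F.biUnion bad := by
    by_contra hcon
    push Not at hcon
    have h1 : H ⊆ T ∪ F.biUnion bad := hcon
    have h2 : H.card ≤ T.card + (F.biUnion bad).card :=
      (Finset.card_le_card h1).trans (Finset.card_union_le _ _)
    have h3 : (F.biUnion bad).card ≤ F.card * (r - 2) := Finset.card_biUnion_le_card_mul _ _ _ hb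
    have h4 : F.card * (r - 2) ≤ (r + 1).choose 2 * (r - 2) := Nat.mul_le_mul_right _ hFc
    have h5 : r * (r + 1).choose 2 = (r + 1).choose 2 * (r - 2) + 2 * (r + 1).choose 2 := by
      obtain ⟨s, rfl⟩ : ∃ s, r = s + 2 := ⟨r - 2, by omega⟩
      rw [Nat.add_sub_cancel]
      ring
    have h6 : r - 2 < (r + 1).choose 2 := by
      have : r + 1 ≤ (r + 1).choose 2 := by
        have e2 : (r + 1).choose 2 = r.choose 1 + r.choose 2 := Nat.choose_succ_succ' r 1
        have e3 : 1 ≤ r.choose 2 := Nat.choose_pos (by omega)
        rw [e2, Nat.choose_one_right]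
        omega
      omega
    omega
  obtain ⟨e, heH, he⟩ := hex
  rw [Finset.mem_union, not_or] at he
  refine ⟨e, heH, he.1, ?_⟩
  intro S hS hSc hST
  by_cases heS : e ∈ S
  · have h1 : S.erase e ⊆ T ∪ W := by
      intro x hx
      have h2 := Finset.mem_erase.mp hx
      rcases Finset.mem_union.mp (hS h2.2) with h3 | h3
      · rcases Finset.mem_insert.mp h3 with h4 | h4
        · exact absurd h4 h2.1
        · exact Finset.mem_union_left _ h4
      · exact Finset.mem_union_right _ h3
    rcases Nat.lt_or_ge S.card r with h2 | h2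
    · exact h.hp S h2
    have hSr : S.card = r := by omega
    have h3 : (S.erase e).card = r - 1 := by
      rw [Finset.card_erase_of_mem heS, hSr]
    have h4 : ¬ S.erase e ⊆ H := by
      intro h5
      apply hST
      intro x hx
      rcases Finset.mem_union.mp (hS hx) with h6 | h6
      · exact h6
      · exfalso
        have hxH : x ∉ H := Finset.disjoint_left.mp hW h6
        have hxe : x ≠ e := fun h7 => hxH (h7 ▸ heH)
        exact hxH (h5 (Finset.mem_erase.mpr ⟨hxe, hx⟩))
    have h5 : S.erase e ∈ F := by
      rw [hF, Finset.mem_filter, Finset.mem_powersetCard]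
      exact ⟨⟨h1, h3⟩, h4⟩
    have h6 : e ∉ M.closure ((S.erase e : Finset α) : Set α) := by
      intro h7
      apply he.2
      exact Finset.mem_biUnion.mpr ⟨_, h5, Finset.mem_filter.mpr ⟨heH, h7⟩⟩
    have h7 : M.Indep ((S.erase e : Finset α) : Set α) := h.hp _ (by omega)
    have h8 : M.Indep (insert e ((S.erase e : Finset α) : Set α)) := by
      by_contra hcon
      apply h6
      rw [h7.mem_closure_iff']
      exact ⟨by rw [h.hE]; trivial, fun h9 => absurd h9 hcon⟩
    have h9 : (insert e ((S.erase e : Finset α) : Set α)) = (S : Set α) := by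
      rw [← Finset.coe_insert, Finset.insert_erase heS]
    rwa [h9] at h8
  · refine hT S ?_ hSc ?_
    · intro x hx
      rcases Finset.mem_union.mp (hS hx) with h3 | h3
      · rcases Finset.mem_insert.mp h3 with h4 | h4
        · exact absurd (h4 ▸ hx) heS
        · exact Finset.mem_union_left _ h4
      · exact Finset.mem_union_right _ h3
    · intro h5
      exact hST (h5.trans (Finset.subset_insert _ _))

lemma Pav.exists_gen (h : Pav M r H) (hbig : r * (r + 1).choose 2 ≤ H.card) {W : Finset α}
    (hW : Disjoint W H) (hWc : W.card ≤ 3) (k : ℕ) (hk : k ≤ r - 1) :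
    ∃ T ⊆ H, T.card = k ∧ GenW M r W T := by
  have hr4 := h.hr4
  induction k with
  | zero =>
    refine ⟨∅, by simp, by simp, ?_⟩
    intro S hS hSc _
    rw [Finset.empty_union] at hS
    exact h.hp S (by have := Finset.card_le_card hS; omega)
  | succ k ih =>
    obtain ⟨T, hTH, hTc, hT⟩ := ih (by omega)
    obtain ⟨e, heH, heT, hG⟩ := h.extend hbig hW hWc hTH (by omega) hT
    refine ⟨insert e T, Finset.insert_subset heH hTH, ?_, hG⟩
    rw [Finset.card_insert_of_notMem heT, hTc]

lemma Pav.circ_sub (h : Pav M r H) {F : Finset α} (hF : F ⊆ H) (hc : F.card = r) :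
    F ∈ circ M := by
  show M.IsCircuit _
  rw [Matroid.isCircuit_iff_dep_forall_sdiff_singleton_indep]
  refine ⟨⟨?_, by rw [h.hE]; exact Set.subset_univ _⟩, ?_⟩
  · intro hI
    have h1 := hI.encard_le_eRk_of_subset (Finset.coe_subset.mpr hF)
    rw [Set.encard_coe_eq_coe_finsetCard, hc] at h1
    exact absurd (lt_of_le_of_lt h1 h.rk) (lt_irrefl _)
  · intro e he
    have h2 : ((F : Set α) \ {e}) = ((F.erase e : Finset α) : Set α) := by simp
    rw [h2]
    refine h.hp _ ?_
    rw [Finset.card_erase_of_mem (Finset.mem_coe.mp he), hc]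
    have := h.hr4
    omega

lemma Pav.card_ge (h : Pav M r H) {F : Finset α} (hF : F ∈ circ M) : r ≤ F.card := by
  by_contra hcon
  push Not at hcon
  exact (Matroid.IsCircuit.dep hF).not_indep (h.hp F hcon)

lemma Pav.diff (h : Pav M r H) (hH : r + 1 ≤ H.card) {x z : α} (hx : x ∈ H) (hz : z ∈ H) :
    del x - del z ∈ Lat (circ M) := by
  by_cases hxz : x = z
  · subst hxz
    rw [sub_self]
    exact Lat.zero
  have hr4 := h.hr4
  obtain ⟨B, hB1, hB2, hB3⟩ := Finset.exists_subsuperset_card_eq
    (show ({x, z} : Finset α) ⊆ H by
      intro t ht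
      simp only [Finset.mem_insert, Finset.mem_singleton] at ht
      rcases ht with rfl | rfl <;> assumption)
    (show ({x, z} : Finset α).card ≤ r + 1 by rw [Finset.card_pair hxz]; omega) hH
  have hxB : x ∈ B := hB1 (by simp)
  have hzB : z ∈ B := hB1 (by simp)
  have c1 : ∀ a ∈ B, B.erase a ∈ circ M := fun a ha =>
    h.circ_sub ((Finset.erase_subset _ _).trans hB2)
      (by rw [Finset.card_erase_of_mem ha, hB3]; omega)
  have := Lat.sub (Lat.chi (c1 z hzB)) (Lat.chi (c1 x hxB))
  rw [chi_erase hxB, chi_erase hzB] at this
  convert this using 1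
  abel

/-- If a unit vector of the hyperplane is in the lattice, then the property fails. -/
lemma Pav.contra (h : Pav M r H) (hHil : IsHilbert (circ M)) (hH : r + 1 ≤ H.card) {x : α}
    (hx : x ∈ H) (hxL : del x ∈ Lat (circ M)) : False := by
  have hr4 := h.hr4
  obtain ⟨B, hB2, hB3⟩ := Finset.exists_subset_card_eq hH
  have c1 : ∀ a ∈ B, B.erase a ∈ circ M := fun a ha =>
    h.circ_sub ((Finset.erase_subset _ _).trans hB2)
      (by rw [Finset.card_erase_of_mem ha, hB3]; omega)
  have hall : ∀ a ∈ B, del a ∈ Lat (circ M) := by
    intro a ha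
    have := Lat.add (h.diff hH (hB2 ha) hx) hxL
    convert this using 1
    abel
  refine obstruct_dvd (A := B) (t := r) (N := r + 1) (p := chi B) ?_ ?_ ?_ ?_ ?_ ?_ hHil
  · intro F hF hFB
    have h1 := h.card_ge hF
    obtain ⟨G, hGF, hG⟩ := Finset.exists_subset_card_eq h1
    have hGc : G ∈ circ M := h.circ_sub ((hGF.trans hFB).trans hB2) hG
    have h2 : (G : Set α) = (F : Set α) :=
      Matroid.IsCircuit.eq_of_subset_isCircuit (C := (G : Set α)) (C' := (F : Set α)) hGc hF
        (Finset.coe_subset.mpr hGF)
    have h3 : G = F := Finset.coe_injective h2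
    rw [← h3, hG]
  · have h1 : ∑ a ∈ B, chi (B.erase a) ∈ Cone (circ M) :=
      Cone.sum _ _ fun a ha => Cone.chi (c1 a ha)
    have h2 := Cone.smul (r := 1 / (r : ℚ)) (by positivity) h1
    convert h2 using 1
    have h3 : ∑ a ∈ B, chi (B.erase a) = (r : ℚ) • chi B := by
      rw [Finset.sum_congr rfl fun a ha => chi_erase ha, Finset.sum_sub_distrib, ← chi_eq_sum,
        Finset.sum_const, hB3]
      module
    rw [h3, smul_smul]
    have hr0 : (r : ℚ) ≠ 0 := by
      have : r ≠ 0 := by omega
      exact_mod_cast this
    have : (1 / (r : ℚ)) * (r : ℚ) = 1 := by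
      field_simp
    rw [this, one_smul]
  · rw [chi_eq_sum]
    exact Lat.sum _ _ hall
  · intro e he
    simp [chi, he]
  · rw [sum_chi, Finset.univ_inter, hB3]
  · intro hdvd
    have h1 : r ∣ 1 := (Nat.dvd_add_right (dvd_refl r)).mp hdvd
    have := Nat.le_of_dvd (by norm_num) h1
    omega

/-- Membership of sets of size `r + 1` in generic position. -/
lemma Pav.genW_circ (h : Pav M r H) {W T X : Finset α} (hT : GenW M r W T) (hTr : T.card ≤ r - 1)
    (hX : X ⊆ T ∪ W) (hXc : X.card = r + 1) : X ∈ circ M := by
  refine gen_circ h.hE h.hr ?_ hXc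
  intro S hS hSc
  rcases Nat.lt_or_ge S.card r with h1 | h1
  · exact h.hp S h1
  · refine hT S (hS.trans hX) hSc ?_
    intro h2
    have := Finset.card_le_card h2
    have := h.hr4
    omega

/-- At most two elements are outside of the hyperplane. -/
lemma Pav.outside (h : Pav M r H) (hHil : IsHilbert (circ M))
    (hbig : r * (r + 1).choose 2 ≤ H.card) (hH : r + 1 ≤ H.card) {u v w : α} (hu : u ∉ H)
    (hv : v ∉ H) (hw : w ∉ H) (huv : u ≠ v) (huw : u ≠ w) (hvw : v ≠ w) : False := by
  have hr4 := h.hr4
  have hW : Disjoint ({u, v, w} : Finset α) H := by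
    rw [Finset.disjoint_left]
    intro t ht
    simp only [Finset.mem_insert, Finset.mem_singleton] at ht
    rcases ht with rfl | rfl | rfl <;> assumption
  obtain ⟨T, hTH, hTc, hT⟩ := h.exists_gen hbig hW Finset.card_le_three (r - 1) (le_refl _)
  have hne : T.Nonempty := Finset.card_pos.mp (by omega)
  obtain ⟨t, ht⟩ := hne
  have htH := hTH ht
  have nT : ∀ a, a ∉ H → a ∉ T := fun a ha hb => ha (hTH hb)
  -- the circuits
  have cir2 : ∀ a b, a ∈ ({u, v, w} : Finset α) → b ∈ ({u, v, w} : Finset α) → a ≠ b →
      a ∉ H → b ∉ H → chi T + del a + del b ∈ Lat (circ M) := by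
    intro a b ha hb hab haH hbH
    have hbT : b ∉ T := nT b hbH
    have haT : a ∉ insert b T := by
      simp only [Finset.mem_insert, not_or]
      exact ⟨hab, nT a haH⟩
    have hm : insert a (insert b T) ∈ circ M := by
      refine h.genW_circ hT (by omega) ?_ ?_
      · intro x hx
        simp only [Finset.mem_insert] at hx
        rcases hx with rfl | rfl | hx
        · exact Finset.mem_union_right _ ha
        · exact Finset.mem_union_right _ hb
        · exact Finset.mem_union_left _ hx
      · rw [Finset.card_insert_of_notMem haT, Finset.card_insert_of_notMem hbT, hTc]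
        omega
    have := Lat.chi hm
    rw [chi_insert haT, chi_insert hbT] at this
    convert this using 1
    abel
  have cir3 : chi T - del t + del u + del v + del w ∈ Lat (circ M) := by
    have hwT : w ∉ T.erase t := fun e => nT w hw (Finset.mem_of_mem_erase e)
    have hvT : v ∉ insert w (T.erase t) := by
      simp only [Finset.mem_insert, not_or]
      exact ⟨hvw, fun e => nT v hv (Finset.mem_of_mem_erase e)⟩
    have huT : u ∉ insert v (insert w (T.erase t)) := by
      simp only [Finset.mem_insert, not_or]
      exact ⟨huv, huw, fun e => nT u hu (Finset.mem_of_mem_erase e)⟩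
    have hm : insert u (insert v (insert w (T.erase t))) ∈ circ M := by
      refine h.genW_circ hT (by omega) ?_ ?_
      · intro x hx
        simp only [Finset.mem_insert] at hx
        rcases hx with rfl | rfl | rfl | hx
        · exact Finset.mem_union_right _ (by simp)
        · exact Finset.mem_union_right _ (by simp)
        · exact Finset.mem_union_right _ (by simp)
        · exact Finset.mem_union_left _ (Finset.mem_of_mem_erase hx)
      · rw [Finset.card_insert_of_notMem huT, Finset.card_insert_of_notMem hvT,
          Finset.card_insert_of_notMem hwT, Finset.card_erase_of_mem ht, hTc]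
        omega
    have := Lat.chi hm
    rw [chi_insert huT, chi_insert hvT, chi_insert hwT, chi_erase ht] at this
    convert this using 1
    abel
  have cuv := cir2 u v (by simp) (by simp) huv hu hv
  have cuw := cir2 u w (by simp) (by simp) huw hu hw
  have cvw := cir2 v w (by simp) (by simp) hvw hv hw
  -- differences between `t` and the outer elements
  have d1 : del t - del w ∈ Lat (circ M) := by
    have := Lat.sub cuv cir3
    convert this using 1
    abel
  have d2 : del t - del v ∈ Lat (circ M) := by
    have := Lat.sub cuw cir3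
    convert this using 1
    abel
  have d3 : del t - del u ∈ Lat (circ M) := by
    have := Lat.sub cvw cir3
    convert this using 1
    abel
  -- sums over subsets of the hyperplane
  have sumH : ∀ F : Finset α, F ⊆ H → chi F - ((F.card : ℤ) : ℚ) • del t ∈ Lat (circ M) := by
    intro F hF
    have h1 : ∑ a ∈ F, (del a - del t) ∈ Lat (circ M) :=
      Lat.sum _ _ fun a ha => h.diff hH (hF ha) htH
    convert h1 using 1
    rw [Finset.sum_sub_distrib, ← chi_eq_sum, Finset.sum_const]
    push_cast
    module
  obtain ⟨B, hB2, hB3⟩ := Finset.exists_subset_card_eq (show r ≤ H.card by omega)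
  have e1 : ((r : ℤ) : ℚ) • del t ∈ Lat (circ M) := by
    have h1 := Lat.sub (Lat.chi (h.circ_sub hB2 hB3)) (sumH B hB2)
    rw [hB3] at h1
    convert h1 using 1
    abel
  have e2 := sumH T hTH
  rw [hTc] at e2
  have hcast : (((r - 1 : ℕ) : ℤ) : ℚ) = (r : ℚ) - 1 := by
    push_cast [show 1 ≤ r by omega]
    ring
  rw [hcast] at e2
  refine h.contra hHil hH htH ?_
  have := Lat.sub (Lat.add (Lat.add (Lat.sub cuv e2) d3) d2) e1
  convert this using 1
  push_cast
  module

/-- Dependent sets of size `r` are contained in the hyperplane. -/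
lemma Pav.inside (h : Pav M r H) (hHil : IsHilbert (circ M))
    (hbig : r * (r + 1).choose 2 ≤ H.card) (hH : r + 1 ≤ H.card)
    (hout : ∀ u v w, u ∉ H → v ∉ H → w ∉ H → u ≠ v → u ≠ w → v ≠ w → False) {S : Finset α}
    (hS : S.card = r) (hdep : ¬ M.Indep (S : Set α)) : S ⊆ H := by
  classical
  have hr4 := h.hr4
  by_contra hSH
  obtain ⟨u, huS, huH⟩ := Finset.not_subset.mp hSH
  have hSI : ∀ F ⊆ S, F.card < r → M.Indep (F : Set α) := fun F _ hF => h.hp F hF
  by_cases h1 : S.erase u ⊆ H
  · -- one element outside
    have h2 : (S.erase u).card = r - 1 := by rw [Finset.card_erase_of_mem huS, hS]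
    have h3 : M.Indep ((S.erase u : Finset α) : Set α) := h.hp _ (by omega)
    apply hdep
    have h4 : u ∉ M.closure ((S.erase u : Finset α) : Set α) := by
      intro h5
      exact huH (h.flat u (M.closure_subset_closure (Finset.coe_subset.mpr h1) h5))
    have h8 : M.Indep (insert u ((S.erase u : Finset α) : Set α)) := by
      by_contra hcon
      apply h4
      rw [h3.mem_closure_iff']
      exact ⟨by rw [h.hE]; trivial, fun h9 => absurd h9 hcon⟩
    have h9 : (insert u ((S.erase u : Finset α) : Set α)) = (S : Set α) := by
      rw [← Finset.coe_insert, Finset.insert_erase huS]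
    rwa [h9] at h8
  · obtain ⟨v, hvS', hvH⟩ := Finset.not_subset.mp h1
    have hvu : v ≠ u := (Finset.mem_erase.mp hvS').1
    have hvS : v ∈ S := (Finset.mem_erase.mp hvS').2
    set S0 := (S.erase u).erase v with hS0
    have hS0H : S0 ⊆ H := by
      intro x hx
      by_contra hxH
      have hx1 := Finset.mem_erase.mp hx
      have hx2 := Finset.mem_erase.mp hx1.2
      exact hout u v x huH hvH hxH hvu.symm (Ne.symm hx2.1) (Ne.symm hx1.1)
    have hS0c : S0.card = r - 2 := by
      rw [hS0, Finset.card_erase_of_mem hvS', Finset.card_erase_of_mem huS, hS]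
      omega
    have hSc : S ∈ circ M := by
      show M.IsCircuit _
      rw [Matroid.isCircuit_iff_dep_forall_sdiff_singleton_indep]
      refine ⟨⟨hdep, by rw [h.hE]; exact Set.subset_univ _⟩, ?_⟩
      intro e he
      have h2 : ((S : Set α) \ {e}) = ((S.erase e : Finset α) : Set α) := by simp
      rw [h2]
      refine h.hp _ ?_
      rw [Finset.card_erase_of_mem (Finset.mem_coe.mp he), hS]
      omega
    have hW : Disjoint ({u, v} : Finset α) H := by
      rw [Finset.disjoint_left]
      intro t ht
      simp only [Finset.mem_insert, Finset.mem_singleton] at ht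
      rcases ht with rfl | rfl <;> assumption
    obtain ⟨T, hTH, hTc, hT⟩ := h.exists_gen hbig hW
      (Finset.card_le_two.trans (by norm_num)) (r - 1) (le_refl _)
    obtain ⟨t, ht⟩ : T.Nonempty := Finset.card_pos.mp (by omega)
    have htH := hTH ht
    have hvT : v ∉ T := fun e => hvH (hTH e)
    have huT : u ∉ insert v T := by
      simp only [Finset.mem_insert, not_or]
      exact ⟨hvu.symm, fun e => huH (hTH e)⟩
    have hm : insert u (insert v T) ∈ circ M := by
      refine h.genW_circ hT (by omega) ?_ ?_
      · intro x hx
        simp only [Finset.mem_insert] at hx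
        rcases hx with rfl | rfl | hx
        · exact Finset.mem_union_right _ (by simp)
        · exact Finset.mem_union_right _ (by simp)
        · exact Finset.mem_union_left _ hx
      · rw [Finset.card_insert_of_notMem huT, Finset.card_insert_of_notMem hvT, hTc]
        omega
    have e1 := Lat.chi hm
    rw [chi_insert huT, chi_insert hvT] at e1
    have e2 := Lat.chi hSc
    have hchiS : chi S = del u + (del v + chi S0) := by
      have e3 : chi (S.erase u) = chi S - del u := chi_erase huS
      have e4 : chi S0 = chi (S.erase u) - del v := chi_erase hvS'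
      rw [e4, e3]
      abel
    rw [hchiS] at e2
    have sumH : ∀ F : Finset α, F ⊆ H → chi F - ((F.card : ℤ) : ℚ) • del t ∈ Lat (circ M) := by
      intro F hF
      have h1 : ∑ a ∈ F, (del a - del t) ∈ Lat (circ M) :=
        Lat.sum _ _ fun a ha => h.diff hH (hF ha) htH
      convert h1 using 1
      rw [Finset.sum_sub_distrib, ← chi_eq_sum, Finset.sum_const]
      push_cast
      module
    have e5 := sumH T hTH
    have e6 := sumH S0 hS0H
    rw [hTc] at e5
    rw [hS0c] at e6
    have hcast : (((r - 1 : ℕ) : ℤ) : ℚ) = (r : ℚ) - 1 := by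
      push_cast [show 1 ≤ r by omega]
      ring
    have hcast2 : (((r - 2 : ℕ) : ℤ) : ℚ) = (r : ℚ) - 2 := by
      push_cast [show 2 ≤ r by omega]
      ring
    rw [hcast] at e5
    rw [hcast2] at e6
    refine h.contra hHil hH htH ?_
    have := Lat.sub (Lat.sub e1 e2) (Lat.sub e5 e6)
    convert this using 1
    module

/-- The classification of large paving matroids. -/
theorem paving (hE : M.E = Set.univ) (hr4 : 4 ≤ r) (hr : M.eRank = r)
    (hp : ∀ S : Finset α, S.card < r → M.Indep (S : Set α))
    (hn : r * (r + 1).choose 2 ^ 2 ≤ Fintype.card α) :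
    IsHilbert (circ M) ↔ (∀ S : Finset α, S.card = r → M.Indep (S : Set α)) ∨
      ∃ H : Finset α, Hᶜ.card ≤ 2 ∧ ∀ S : Finset α, S.card = r →
        (¬ M.Indep (S : Set α) ↔ S ⊆ H) := by
  classical
  have hl : ∀ a, M.Indep {a} := by
    intro a
    have := hp {a} (by simp; omega)
    simpa using this
  constructor
  · intro hHil
    by_cases hcov : Small M r
    · left
      intro S hS
      exact (small_hyperplanes hE (by omega) hr hl hcov).mp hHil S (by omega)
    · right
      unfold Small at hcov
      push Not at hcov
      obtain ⟨𝓗, hc, hrk, hcover⟩ := hcov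
      -- a large member
      have hex : ∃ X ∈ 𝓗, r * (r + 1).choose 2 ≤ X.ncard := by
        by_contra hcon
        push Not at hcon
        have h1 : (Finset.univ : Finset α) ⊆ 𝓗.biUnion fun X => X.toFinset := by
          intro w _
          obtain ⟨X, hX, hw⟩ := hcover w
          exact Finset.mem_biUnion.mpr ⟨X, hX, by simpa using hw⟩
        have h2 : Fintype.card α ≤ ∑ X ∈ 𝓗, X.toFinset.card := by
          rw [← Finset.card_univ]
          exact (Finset.card_le_card h1).trans Finset.card_biUnion_le
        have hpos : 0 < Fintype.card α := by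
          have hch : 0 < (r + 1).choose 2 := Nat.choose_pos (by omega)
          have : 0 < r * (r + 1).choose 2 ^ 2 := by positivity
          omega
        have hne : 𝓗.Nonempty := by
          obtain ⟨w⟩ := Fintype.card_pos_iff.mp hpos
          obtain ⟨X, hX, _⟩ := hcover w
          exact ⟨X, hX⟩
        have h3 : ∑ X ∈ 𝓗, X.toFinset.card < ∑ X ∈ 𝓗, r * (r + 1).choose 2 := by
          refine Finset.sum_lt_sum_of_nonempty hne fun X hX => ?_
          have := hcon X hX
          rwa [Set.ncard_eq_toFinset_card'] at this
        rw [Finset.sum_const, smul_eq_mul] at h3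
        have h4 : 𝓗.card * (r * (r + 1).choose 2) ≤ (r + 1).choose 2 * (r * (r + 1).choose 2) :=
          Nat.mul_le_mul_right _ hc
        have h5 : (r + 1).choose 2 * (r * (r + 1).choose 2) = r * (r + 1).choose 2 ^ 2 := by ring
        omega
      obtain ⟨X, hX, hXbig⟩ := hex
      set H : Finset α := (M.closure X).toFinset with hH
      have hHcoe : (H : Set α) = M.closure X := by simp [hH]
      have hXH : X ⊆ (H : Set α) := by
        rw [hHcoe]
        exact M.subset_closure X (by rw [hE]; exact Set.subset_univ _)
      have hpav : Pav M r H := by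
        refine ⟨hE, hr4, hr, hp, ?_, ?_⟩
        · intro x hx
          rw [hHcoe, M.closure_closure] at hx
          rw [← Finset.mem_coe, hHcoe]
          exact hx
        · rw [hHcoe, M.eRk_closure_eq, ← hr]
          exact hrk X hX
      have hbig : r * (r + 1).choose 2 ≤ H.card := by
        refine hXbig.trans ?_
        rw [← Set.ncard_coe_finset]
        exact Set.ncard_le_ncard hXH (Set.toFinite _)
      have hch : 2 ≤ (r + 1).choose 2 := by
        have : (2 + 1).choose 2 ≤ (r + 1).choose 2 := Nat.choose_le_choose 2 (by omega)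
        have h3 : (2 + 1).choose 2 = 3 := by decide
        omega
      have hH1 : r + 1 ≤ H.card := by
        have : r * 2 ≤ r * (r + 1).choose 2 := Nat.mul_le_mul_left _ hch
        omega
      have hout : ∀ u v w, u ∉ H → v ∉ H → w ∉ H → u ≠ v → u ≠ w → v ≠ w → False :=
        fun u v w hu hv hw h1 h2 h3 => hpav.outside hHil hbig hH1 hu hv hw h1 h2 h3
      refine ⟨H, ?_, ?_⟩
      · by_contra hcon
        push Not at hcon
        obtain ⟨u, v, w, hu, hv, hw, huv, huw, hvw⟩ := Finset.two_lt_card_iff.mp hcon
        exact hout u v w (Finset.mem_compl.mp hu) (Finset.mem_compl.mp hv)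
          (Finset.mem_compl.mp hw) huv huw hvw
      · intro S hS
        constructor
        · intro hdep
          exact hpav.inside hHil hbig hH1 hout hS hdep
        · intro hSH
          have := hpav.circ_sub hSH hS
          exact (Matroid.IsCircuit.dep this).not_indep
  · rintro (hU | ⟨H, hHc, hHS⟩)
    · refine suff_uniform' (k := r + 1) (by omega) ?_
      intro F
      constructor
      · intro hF
        have h1 := circ_card_le hr hF
        have h2 : ¬ F.card ≤ r := by
          intro h3
          refine (Matroid.IsCircuit.dep hF).not_indep ?_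
          rcases Nat.lt_or_ge F.card r with h4 | h4
          · exact hp F h4
          · exact hU F (by omega)
        omega
      · intro hF
        refine gen_circ hE hr (fun S _ hS => ?_) hF
        rcases Nat.lt_or_ge S.card r with h4 | h4
        · exact hp S h4
        · exact hU S (by omega)
    · -- a hyperplane
      have csub : ∀ F ⊆ H, F.card = r → F ∈ circ M := by
        intro F hF hc
        show M.IsCircuit _
        rw [Matroid.isCircuit_iff_dep_forall_sdiff_singleton_indep]
        refine ⟨⟨(hHS F hc).mpr hF, by rw [hE]; exact Set.subset_univ _⟩, ?_⟩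
        intro e he
        have h2 : ((F : Set α) \ {e}) = ((F.erase e : Finset α) : Set α) := by simp
        rw [h2]
        refine hp _ ?_
        rw [Finset.card_erase_of_mem (Finset.mem_coe.mp he), hc]
        omega
      refine suff_line H Hᶜ (r - 1) disjoint_compl_right (by simp) ?_ ?_ ?_
      · intro F hF hc
        exact csub F hF (by omega)
      · intro h2 F hF hc
        have hdisj : Disjoint F Hᶜ := Finset.disjoint_of_subset_left hF disjoint_compl_right
        have hcc : (F ∪ Hᶜ).card = r + 1 := by
          rw [Finset.card_union_of_disjoint hdisj, hc, h2]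
          omega
        refine gen_circ hE hr (fun S hS hSc => ?_) hcc
        rcases Nat.lt_or_ge S.card r with h4 | h4
        · exact hp S h4
        · by_contra hdep
          have h5 := (hHS S (by omega)).mp hdep
          have h6 : S ⊆ F := by
            intro x hx
            rcases Finset.mem_union.mp (hS hx) with h7 | h7
            · exact h7
            · exact absurd (h5 hx) (Finset.mem_compl.mp h7)
          have := Finset.card_le_card h6
          omega
      · intro F hF
        have hge : r ≤ F.card := by
          by_contra hcon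
          push Not at hcon
          exact (Matroid.IsCircuit.dep hF).not_indep (hp F hcon)
        have hle := circ_card_le hr hF
        have hsum : (F ∩ H).card + (F ∩ Hᶜ).card = F.card := by
          rw [← Finset.card_union_of_disjoint]
          · congr 1
            rw [← Finset.inter_union_distrib_left, Finset.union_compl, Finset.inter_univ]
          · exact Finset.disjoint_of_subset_left Finset.inter_subset_right
              (Finset.disjoint_of_subset_right Finset.inter_subset_right disjoint_compl_right)
        rcases Nat.lt_or_ge F.card (r + 1) with h1 | h1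
        · left
          have hFr : F.card = r := by omega
          have hdep := (Matroid.IsCircuit.dep hF).not_indep
          have hFH := (hHS F hFr).mp hdep
          refine ⟨?_, ?_⟩
          · rw [Finset.inter_eq_left.mpr hFH]; omega
          · rw [← Finset.disjoint_iff_inter_eq_empty]
            exact Finset.disjoint_of_subset_left hFH disjoint_compl_right
        · right
          have hFr : F.card = r + 1 := by omega
          have h2 : (F ∩ H).card ≤ r - 1 := by
            by_contra hcon
            push Not at hcon
            obtain ⟨G, hG, hGc⟩ := Finset.exists_subset_card_eq (show r ≤ (F ∩ H).card by omega)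
            have hGm := csub G (hG.trans Finset.inter_subset_right) hGc
            have h3 : (G : Set α) = (F : Set α) :=
              Matroid.IsCircuit.eq_of_subset_isCircuit (C := (G : Set α)) (C' := (F : Set α))
                hGm hF (Finset.coe_subset.mpr (hG.trans Finset.inter_subset_left))
            have h4 : G = F := Finset.coe_injective h3
            rw [h4] at hGc
            omega
          have h3 : (F ∩ Hᶜ).card ≤ Hᶜ.card := Finset.card_le_card Finset.inter_subset_right
          have h4 : (F ∩ Hᶜ).card = 2 := by omega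
          refine ⟨by omega, ?_, by omega⟩
          have h5 : F ∩ Hᶜ = Hᶜ :=
            Finset.eq_of_subset_of_card_le Finset.inter_subset_right (by omega)
          rw [← h5]
          exact Finset.inter_subset_left

end Pool.Agent.L5helper89.HB
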