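import Pool.Agent.L5helper89.HB.Mat
import Pool.Agent.L5helper89.HB.Fano

/-!
# The minor `U_{2,4}` in rank three, and parallel classes
-/

set_option autoImplicit false
set_option linter.unusedSectionVars false
set_option linter.unusedVariables false

namespace Pool.Agent.L5helper89.HB

open Finset

variable {α : Type} [Fintype α] [DecidableEq α] {M : Matroid α}

lemma u24_config (hr : M.eRank = 3) (h : HasU24Minor M) :
    (∃ a b c d, M.Indep {a, b} ∧ M.Indep {a, c} ∧ M.Indep {a, d} ∧ M.Indep {b, c} ∧
      M.Indep {b, d} ∧ M.Indep {c, d} ∧ a ≠ b ∧ a ≠ c ∧ a ≠ d ∧ b ≠ c ∧ b ≠ d ∧ c ≠ d ∧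
      ¬ M.Indep {a, b, c} ∧ ¬ M.Indep {a, b, d}) ∨
    (∃ p a b c d, p ≠ a ∧ p ≠ b ∧ p ≠ c ∧ p ≠ d ∧ a ≠ b ∧ a ≠ c ∧ a ≠ d ∧ b ≠ c ∧ b ≠ d ∧ c ≠ d ∧
      M.Indep {p, a, b} ∧ M.Indep {p, a, c} ∧ M.Indep {p, a, d} ∧ M.Indep {p, b, c} ∧
      M.Indep {p, b, d} ∧ M.Indep {p, c, d}) := by
  obtain ⟨N, ⟨C, D, rfl⟩, h4, hN⟩ := h
  obtain ⟨J, hJ⟩ := M.exists_isBasis' C
  have key : ∀ X ⊆ ((M.contract C).delete D).E, (M.Indep (X ∪ J) ↔ X.encard ≤ 2) := by
    intro X hX
    rw [← hN X hX, Matroid.delete_indep_iff, hJ.contract_indep_iff]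
    have h1 : Disjoint C X ∧ Disjoint X D := by
      rw [Matroid.delete_ground, Matroid.contract_ground] at hX
      constructor
      · rw [Set.disjoint_right]
        intro x hx
        exact (hX hx).1.2
      · rw [Set.disjoint_left]
        intro x hx
        exact (hX hx).2
    tauto
  have hEJ : ∀ x ∈ ((M.contract C).delete D).E, x ∉ J := by
    intro x hx hxJ
    rw [Matroid.delete_ground, Matroid.contract_ground] at hx
    exact hx.1.2 (hJ.subset hxJ)
  obtain ⟨a, b, c, d, hab, hac, had, hbc, hbd, hcd, hE⟩ := Set.encard_eq_four.mp h4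
  rw [hE] at key hEJ
  have ka := hEJ a (by simp)
  have kb := hEJ b (by simp)
  have kc := hEJ c (by simp)
  have kd := hEJ d (by simp)
  have pair : ∀ x ∈ ({a, b, c, d} : Set α), ∀ y ∈ ({a, b, c, d} : Set α), M.Indep ({x, y} ∪ J) := by
    intro x hx y hy
    rw [key]
    · refine (Set.encard_insert_le _ _).trans ?_
      rw [Set.encard_singleton]; norm_num
    · intro z hz
      rcases hz with rfl | rfl
      · exact hx
      · exact hy
  have triple : ∀ x ∈ ({a, b, c, d} : Set α), ∀ y ∈ ({a, b, c, d} : Set α),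
      ∀ z ∈ ({a, b, c, d} : Set α), x ≠ y → x ≠ z → y ≠ z → ¬ M.Indep ({x, y, z} ∪ J) := by
    intro x hx y hy z hz hxy hxz hyz
    rw [key]
    · rw [Set.encard_eq_three.mpr ⟨x, y, z, hxy, hxz, hyz, rfl⟩]
      norm_num
    · intro w hw
      rcases hw with rfl | rfl | rfl
      · exact hx
      · exact hy
      · exact hz
  have ma : a ∈ ({a, b, c, d} : Set α) := by simp
  have mb : b ∈ ({a, b, c, d} : Set α) := by simp
  have mc : c ∈ ({a, b, c, d} : Set α) := by simp
  have md : d ∈ ({a, b, c, d} : Set α) := by simp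
  rcases J.eq_empty_or_nonempty with hJ0 | ⟨p, hp⟩
  · left
    rw [hJ0] at pair triple
    simp only [Set.union_empty] at pair triple
    exact ⟨a, b, c, d, pair a ma b mb, pair a ma c mc, pair a ma d md, pair b mb c mc,
      pair b mb d md, pair c mc d md, hab, hac, had, hbc, hbd, hcd,
      triple a ma b mb c mc hab hac hbc, triple a ma b mb d md hab had hbd⟩
  · right
    have npa : p ≠ a := fun h => ka (h ▸ hp)
    have npb : p ≠ b := fun h => kb (h ▸ hp)
    have npc : p ≠ c := fun h => kc (h ▸ hp)
    have npd : p ≠ d := fun h => kd (h ▸ hp)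
    have sub : ∀ x y, ({p, x, y} : Set α) ⊆ {x, y} ∪ J := by
      intro x y z hz
      simp only [Set.mem_insert_iff, Set.mem_singleton_iff] at hz
      rcases hz with rfl | rfl | rfl
      · exact Or.inr hp
      · exact Or.inl (by simp)
      · exact Or.inl (by simp)
    exact ⟨p, a, b, c, d, npa, npb, npc, npd, hab, hac, had, hbc, hbd, hcd,
      (pair a ma b mb).subset (sub a b), (pair a ma c mc).subset (sub a c),
      (pair a ma d md).subset (sub a d), (pair b mb c mc).subset (sub b c),
      (pair b mb d md).subset (sub b d), (pair c mc d md).subset (sub c d)⟩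

/-- A nonbinary space has no two intersecting lines of size three. -/
lemma no_theta_of_config {col : α → α → α → Prop} {S : Set (Finset α)} (hc : ColAx col)
    (hS : Fam col S) (hH : IsHilbert S)
    (h : (∃ a b c d : α, a ≠ b ∧ a ≠ c ∧ a ≠ d ∧ b ≠ c ∧ b ≠ d ∧ c ≠ d ∧ col a b c ∧ col a b d) ∨
      ∃ p a b c d, Four col p a b c d) : NoTheta col := by
  rcases h with ⟨x1, x2, x3, x4, n12, n13, n14, n23, n24, n34, h1, h2⟩ | ⟨p, a, b, c, d, h⟩
  · intro a b c d e hab hac hbc had hae hde k1 k2
    by_contra k3
    have s1 := hc.s1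
    have s2 := hc.s2
    have tr := hc.tr
    have dg := hc.dg
    have four : ∀ p, ¬ col x1 x2 p → Four col p x1 x2 x3 x4 := by
      intro p hp
      refine ⟨?_, ?_, ?_, ?_, ?_, ?_⟩ <;> grind
    have : ∃ p, ¬ col x1 x2 p := by
      by_contra hcon
      push Not at hcon
      have ha := hcon a
      have hb := hcon b
      have hd := hcon d
      exact k3 (by grind)
    obtain ⟨p, hp⟩ := this
    exact k3 (no_theta_of_four hc hS hH (four p hp) a b c d e hab hac hbc had hae hde k1 k2)
  · exact no_theta_of_four hc hS hH h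

lemma col_iff {a b c : α} : col M a b c ↔ M.eRk {a, b, c} ≤ 2 := by
  have hpair : ∀ x y : α, M.eRk {x, y} ≤ 2 := by
    intro x y
    refine (M.eRk_le_encard _).trans ((Set.encard_insert_le _ _).trans ?_)
    rw [Set.encard_singleton]; norm_num
  constructor
  · rintro (h | h | h | h)
    · rw [h]; simpa using hpair b c
    · rw [h]
      have : ({c, b, c} : Set α) = {b, c} := by ext x; simp
      rw [this]; exact hpair b c
    · rw [h]; simpa using hpair a c
    · by_contra hcon
      push Not at hcon
      have h3 : (3 : ℕ∞) ≤ M.eRk {a, b, c} := by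
        have := Order.add_one_le_of_lt hcon
        norm_num at this
        exact this
      rw [Matroid.le_eRk_iff] at h3
      obtain ⟨I, hI, hI2, hI3⟩ := h3
      have hle : ({a, b, c} : Set α).encard ≤ 3 := by
        refine (Set.encard_insert_le _ _).trans ?_
        have := Set.encard_insert_le ({c} : Set α) b
        rw [Set.encard_singleton] at this
        calc ({b, c} : Set α).encard + 1 ≤ (1 + 1) + 1 := by gcongr
          _ = 3 := by norm_num
      have hfin : ({a, b, c} : Set α).Finite := Set.toFinite _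
      have heq : I = {a, b, c} :=
        (hfin.subset hI).eq_of_subset_of_encard_le hI (by rw [hI3]; exact hle)
      rw [heq] at hI2
      exact h hI2
  · intro h
    by_cases h1 : a = b
    · exact Or.inl h1
    by_cases h2 : a = c
    · exact Or.inr (Or.inl h2)
    by_cases h3 : b = c
    · exact Or.inr (Or.inr (Or.inl h3))
    refine Or.inr (Or.inr (Or.inr fun hI => ?_))
    rw [hI.eRk_eq_encard, Set.encard_eq_three.mpr ⟨a, b, c, h1, h2, h3, rfl⟩] at h
    norm_num at h

/-- Parallel elements, as an equivalence relation. -/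
def parS (M : Matroid α) : Setoid α where
  r a b := M.closure {a} = M.closure {b}
  iseqv := ⟨fun _ => rfl, fun h => h.symm, fun h1 h2 => h1.trans h2⟩

lemma indep_pair_iff (hE : M.E = Set.univ) (hl : ∀ a, M.Indep {a}) (a b : α) :
    M.Indep {a, b} ↔ a = b ∨ M.closure {a} ≠ M.closure {b} := by
  by_cases hab : a = b
  · subst hab
    simpa using hl a
  · simp only [hab, false_or]
    constructor
    · intro h h2
      have h3 := h.notMem_closure_sdiff_of_mem (e := b) (by simp)
      apply h3
      have : ({a, b} : Set α) \ {b} = {a} := by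
        ext x
        simp only [Set.mem_sdiff, Set.mem_insert_iff, Set.mem_singleton_iff]
        constructor
        · rintro ⟨h5 | h5, h6⟩
          · exact h5
          · exact absurd h5 h6
        · intro h5
          exact ⟨Or.inl h5, fun h6 => hab (h5 ▸ h6)⟩
      rw [this, h2]
      exact M.mem_closure_of_mem' (by simp) (by rw [hE]; trivial)
    · intro h
      by_contra hI
      apply h
      have key : ∀ x y : α, ¬ M.Indep {x, y} → M.closure {y} ⊆ M.closure {x} := by
        intro x y hxy
        refine M.closure_subset_closure_of_subset_closure ?_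
        rw [Set.singleton_subset_iff, (hl x).mem_closure_iff']
        refine ⟨by rw [hE]; trivial, fun h2 => ?_⟩
        exact absurd (by rw [Set.pair_comm]; exact h2) hxy
      exact Set.Subset.antisymm (key b a (by rw [Set.pair_comm]; exact hI)) (key a b hI)

lemma eRk_congr {a a' : α} (h : M.closure {a} = M.closure {a'}) (X : Set α) :
    M.eRk (insert a X) = M.eRk (insert a' X) := by
  rw [Set.insert_eq, Set.insert_eq, ← M.eRk_closure_eq, ← M.closure_union_closure_left_eq, h,
    M.closure_union_closure_left_eq, M.eRk_closure_eq]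

lemma col_congr {a b c a' b' c' : α} (ha : M.closure {a} = M.closure {a'})
    (hb : M.closure {b} = M.closure {b'}) (hc : M.closure {c} = M.closure {c'}) :
    col M a b c ↔ col M a' b' c' := by
  rw [col_iff, col_iff]
  have e1 : M.eRk {a, b, c} = M.eRk {a', b, c} := eRk_congr ha _
  have e2 : M.eRk {a', b, c} = M.eRk {a', b', c} := by
    rw [Set.insert_comm a' b, Set.insert_comm a' b']
    exact eRk_congr hb _
  have e3 : M.eRk {a', b', c} = M.eRk {a', b', c'} := by
    have x1 : ({a', b', c} : Set α) = insert c {a', b'} := by ext x; simp; tauto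
    have x2 : ({a', b', c'} : Set α) = insert c' {a', b'} := by ext x; simp; tauto
    rw [x1, x2]
    exact eRk_congr hc _
  rw [e1, e2, e3]

lemma circ2 {a b : α} (hE : M.E = Set.univ) (hl : ∀ a, M.Indep {a}) (hab : a ≠ b)
    (h : ¬ M.Indep {a, b}) : {a, b} ∈ circ M := by
  show M.IsCircuit _
  rw [Matroid.isCircuit_iff_dep_forall_sdiff_singleton_indep]
  refine ⟨⟨by simpa using h, by rw [hE]; exact Set.subset_univ _⟩, ?_⟩
  intro e he
  simp only [Finset.coe_insert, Finset.coe_singleton, Set.mem_insert_iff,
    Set.mem_singleton_iff] at he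
  rcases he with rfl | rfl
  · refine (hl b).subset ?_
    intro x hx; simp at hx ⊢; tauto
  · refine (hl a).subset ?_
    intro x hx; simp at hx ⊢; tauto

end Pool.Agent.L5helper89.HB
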